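import Mathlib
import Pool.Agent.H86.Refl.HData

/-!
# Rational curves given by polynomials
-/

set_option autoImplicit false

namespace Pool.Agent.H24.SG

open MvPolynomial Pool.Agent.H86.Refl

variable {N c : ℕ} {e : Fin c → ℕ} {G : Fin c → MvPolynomial (Fin (N + 1)) ℂ}

lemma eval_aeval_poly (A : Fin (N + 1) → Polynomial ℂ) (P : MvPolynomial (Fin (N + 1)) ℂ)
    (z : ℂ) : (aeval A P : Polynomial ℂ).eval z = eval (fun j => (A j).eval z) P := by
  rw [MvPolynomial.aeval_def, ← Polynomial.coe_evalRingHom, MvPolynomial.hom_eval₂]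
  rw [MvPolynomial.eval, MvPolynomial.coe_eval₂Hom]
  congr 1
  ext x
  simp

/-- Rational curves given by polynomials lead to morphisms from `G_m`. -/
lemma gm_of_poly (hG : ∀ j, (G j).IsHomogeneous (e j)) (A : Fin (N + 1) → Polynomial ℂ)
    (hA : ∀ z j, eval (fun i => (A i).eval z) (G j) = 0) (z₀ : ℂ) {P : Fin (N + 1) → ℂ}
    (hP : P ≠ 0) (l : ℂ) (hl : l ≠ 0) (h0 : ∀ i, (A i).eval z₀ = l * P i)
    (hnc : ∃ z i j, (A i).eval z * P j ≠ (A j).eval z * P i) :
    Projectivization.mk ℂ P hP ∈ gmPoints (projectiveSet G) := by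
  obtain ⟨z₁, i₁, j₁, h1⟩ := hnc
  have hAne : ∃ i, A i ≠ 0 := by
    by_contra hcon
    push Not at hcon
    apply h1
    rw [hcon, hcon]
    simp
  obtain ⟨d, B, hd0, hAB, hB⟩ := exists_coprime A hAne
  have hBne : ∀ z, (fun i => (B i).eval z) ≠ 0 := by
    intro z h
    obtain ⟨i, hi⟩ := hB z
    exact hi (congrFun h i)
  have hABz : ∀ z i, (A i).eval z = d.eval z * (B i).eval z := by
    intro z i
    rw [hAB i, Polynomial.eval_mul]
  have hd₀ : d.eval z₀ ≠ 0 := by
    intro h
    apply hP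
    funext i
    have h2 := h0 i
    rw [hABz, h, zero_mul] at h2
    exact (mul_eq_zero.mp h2.symm).resolve_left hl
  have hf₀ : Projectivization.mk ℂ (fun i => (B i).eval z₀) (hBne z₀) =
      Projectivization.mk ℂ P hP := by
    apply mk_eq_of_smul _ _ (l / d.eval z₀)
    funext i
    have h2 := h0 i
    rw [hABz] at h2
    simp only [Pi.smul_apply, smul_eq_mul]
    field_simp
    linear_combination h2
  have hmem : ∀ z, Projectivization.mk ℂ (fun i => (B i).eval z) (hBne z) ∈
      projectiveSet G := by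
    intro z j
    rw [vanishesAt_mk (hG j), ← eval_aeval_poly]
    have h2 : d * aeval B (G j) = 0 := by
      apply Polynomial.funext
      intro y
      rw [Polynomial.eval_mul, Polynomial.eval_zero, eval_aeval_poly]
      by_cases hdy : d.eval y = 0
      · rw [hdy, zero_mul]
      · have h3 := hA y j
        have h4 : (fun i => (A i).eval y) = d.eval y • (fun i => (B i).eval y) := by
          funext i
          rw [hABz]
          rfl
        rw [h4, eval_smul_homogeneous (hG j)] at h3
        rw [(mul_eq_zero.mp h3).resolve_left (pow_ne_zero _ hdy), mul_zero]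
    rw [(mul_eq_zero.mp h2).resolve_left hd0, Polynomial.eval_zero]
  have hcomp : ∀ (i : Fin (N + 1)) (z : ℂ),
      ((B i).comp (Polynomial.X + Polynomial.C (z₀ - 1))).eval z =
      (B i).eval (z + (z₀ - 1)) := by
    intro i z
    rw [Polynomial.eval_comp]
    simp
  -- a second parameter different from `z₀ - 1`
  obtain ⟨z₂, hz₂, h2⟩ : ∃ z₂, z₂ ≠ z₀ - 1 ∧ (B i₁).eval z₂ * P j₁ ≠ (B j₁).eval z₂ * P i₁ := by
    by_contra hcon
    push Not at hcon
    have h3 : (Polynomial.X - Polynomial.C (z₀ - 1)) * (B i₁ * Polynomial.C (P j₁) -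
        B j₁ * Polynomial.C (P i₁)) = 0 := by
      apply Polynomial.funext
      intro y
      by_cases hy : y = z₀ - 1
      · rw [hy]
        simp
      · simp only [Polynomial.eval_mul, Polynomial.eval_sub, Polynomial.eval_X,
          Polynomial.eval_C, Polynomial.eval_zero]
        rw [hcon y hy, sub_self, mul_zero]
    have h4 := (mul_eq_zero.mp h3).resolve_left (Polynomial.X_sub_C_ne_zero _)
    have h5 := congrArg (Polynomial.eval z₁) h4
    simp only [Polynomial.eval_mul, Polynomial.eval_sub,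
      Polynomial.eval_C, Polynomial.eval_zero] at h5
    apply h1
    rw [hABz, hABz]
    linear_combination d.eval z₁ * h5
  refine ⟨fun z => Projectivization.mk ℂ (fun i => (B i).eval (z + (z₀ - 1))) (hBne _),
    ⟨fun i => (B i).comp (Polynomial.X + Polynomial.C (z₀ - 1)), fun z _ => ?_⟩,
    fun z _ => hmem _, ⟨z₂ - (z₀ - 1), 1, sub_ne_zero.mpr hz₂, one_ne_zero, ?_⟩, 1,
    one_ne_zero, ?_⟩
  · have hB' : (fun i => ((B i).comp (Polynomial.X + Polynomial.C (z₀ - 1))).eval z) =
        fun i => (B i).eval (z + (z₀ - 1)) := funext fun i => hcomp i z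
    exact ⟨by rw [hB']; exact hBne _, by simp only [hB']⟩
  · have h6 : (1 : ℂ) + (z₀ - 1) = z₀ := by ring
    have h7 : z₂ - (z₀ - 1) + (z₀ - 1) = z₂ := by ring
    intro h
    simp only [h6, h7] at h
    rw [hf₀, Projectivization.mk_eq_mk_iff'] at h
    obtain ⟨μ, hμ⟩ := h
    apply h2
    have h8 := congrFun hμ i₁
    have h9 := congrFun hμ j₁
    simp only [Pi.smul_apply, smul_eq_mul] at h8 h9
    rw [← h8, ← h9]
    ring
  · have h6 : (1 : ℂ) + (z₀ - 1) = z₀ := by ring
    simp only [h6]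
    exact hf₀

/-- Rational curves in a plane. -/
lemma gm_of_coords (hG : ∀ j, (G j).IsHomogeneous (e j)) {p a b : Fin (N + 1) → ℂ}
    (hind : ∀ x y z : ℂ, x • p + y • a + z • b = 0 → x = 0 ∧ y = 0 ∧ z = 0)
    (U V W : Polynomial ℂ)
    (hA : ∀ z j, eval (U.eval z • p + V.eval z • a + W.eval z • b) (G j) = 0) (z₀ : ℂ)
    {P : Fin (N + 1) → ℂ} (hP : P ≠ 0) (l x₀ y₀ w₀ : ℂ) (hl : l ≠ 0)
    (hPe : P = x₀ • p + y₀ • a + w₀ • b)
    (hU : U.eval z₀ = l * x₀) (hV : V.eval z₀ = l * y₀) (hW : W.eval z₀ = l * w₀)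
    (z₁ : ℂ) (hnc : ¬ (U.eval z₁ * y₀ = V.eval z₁ * x₀ ∧ U.eval z₁ * w₀ = W.eval z₁ * x₀ ∧
      V.eval z₁ * w₀ = W.eval z₁ * y₀)) :
    Projectivization.mk ℂ P hP ∈ gmPoints (projectiveSet G) := by
  have hev : ∀ z, (fun i => (U * Polynomial.C (p i) + V * Polynomial.C (a i) +
      W * Polynomial.C (b i)).eval z) = U.eval z • p + V.eval z • a + W.eval z • b := by
    intro z
    funext i
    simp
  refine gm_of_poly hG (fun i => U * Polynomial.C (p i) + V * Polynomial.C (a i) +
    W * Polynomial.C (b i)) (fun z j => by rw [hev]; exact hA z j) z₀ hP l hl ?_ ?_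
  · intro i
    have h1 := congrFun (hev z₀) i
    rw [h1, hU, hV, hW, hPe]
    simp only [Pi.add_apply, Pi.smul_apply, smul_eq_mul]
    ring
  · by_contra hcon
    push Not at hcon
    apply hnc
    -- the vector at `z₁` is proportional to `P`
    obtain ⟨k, hk⟩ : ∃ k, P k ≠ 0 := by
      by_contra h
      push Not at h
      exact hP (funext h)
    set Q : Fin (N + 1) → ℂ := U.eval z₁ • p + V.eval z₁ • a + W.eval z₁ • b with hQ
    have h1 : ∀ i j, Q i * P j = Q j * P i := by
      intro i j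
      have h2 := hcon z₁ i j
      have h3 := congrFun (hev z₁) i
      have h4 := congrFun (hev z₁) j
      rw [hQ, ← h3, ← h4]
      exact h2
    have h2 : P k • Q = Q k • P := by
      funext i
      simp only [Pi.smul_apply, smul_eq_mul]
      linear_combination h1 i k
    have h3 : (P k * U.eval z₁ - Q k * x₀) • p + (P k * V.eval z₁ - Q k * y₀) • a +
        (P k * W.eval z₁ - Q k * w₀) • b = 0 := by
      have h4 : P k • Q - Q k • P = 0 := sub_eq_zero.mpr h2
      rw [← h4, hQ, hPe]
      module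
    obtain ⟨h4, h5, h6⟩ := hind _ _ _ h3
    refine ⟨?_, ?_, ?_⟩
    · apply mul_left_cancel₀ hk
      linear_combination y₀ * h4 - x₀ * h5
    · apply mul_left_cancel₀ hk
      linear_combination w₀ * h4 - x₀ * h6
    · apply mul_left_cancel₀ hk
      linear_combination w₀ * h5 - y₀ * h6

/-- Lines. -/
lemma gm_of_line (hG : ∀ j, (G j).IsHomogeneous (e j)) {P V : Fin (N + 1) → ℂ} (hP : P ≠ 0)
    (hV : ∀ x : ℂ, V ≠ x • P) (h : ∀ (s : ℂ) (j : Fin c), eval (P + s • V) (G j) = 0) :
    Projectivization.mk ℂ P hP ∈ gmPoints (projectiveSet G) := by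
  have hev : ∀ z, (fun i => (Polynomial.C (P i) + Polynomial.X *
      Polynomial.C (V i)).eval z) = P + z • V := by
    intro z
    funext i
    simp only [Polynomial.eval_add, Polynomial.eval_C, Polynomial.eval_mul, Polynomial.eval_X,
      Pi.add_apply, Pi.smul_apply, smul_eq_mul]
  refine gm_of_poly hG (fun i => Polynomial.C (P i) + Polynomial.X * Polynomial.C (V i))
    (fun z j => by rw [hev]; exact h z j) 0 hP 1 one_ne_zero (fun i => by simp) ?_
  by_contra hcon
  push Not at hcon
  obtain ⟨k, hk⟩ : ∃ k, P k ≠ 0 := by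
    by_contra h
    push Not at h
    exact hP (funext h)
  apply hV (V k / P k)
  funext i
  have h1 := hcon 1 i k
  simp only [Polynomial.eval_add, Polynomial.eval_C, Polynomial.eval_mul,
    Polynomial.eval_X] at h1
  simp only [Pi.smul_apply, smul_eq_mul]
  field_simp
  linear_combination h1

end Pool.Agent.H24.SG
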