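import Mathlib
import Pool.Agent.H86.Refl.SabDefs
import Pool.Agent.H86.Refl.Entire

/-!
# Fibres of morphisms from one-dimensional semi-abelian varieties

The fibres of a non-constant morphism from `G_m` or from an (affine) elliptic curve are finite.
-/

set_option autoImplicit false

namespace Pool.Agent.H24.SG

open MvPolynomial Pool.Agent.H86.Refl

/-- Reduction of a polynomial modulo the Weierstrass equation. -/
lemma exists_reduction (a b : ℂ) (H : MvPolynomial (Fin 2) ℂ) :
    ∃ A B : Polynomial ℂ, ∀ q ∈ affineE a b,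
      eval ![q.1, q.2] H = A.eval q.1 + B.eval q.1 * q.2 := by
  induction H using MvPolynomial.induction_on with
  | C c => exact ⟨Polynomial.C c, 0, fun q _ => by simp⟩
  | add p q hp hq =>
    obtain ⟨A, B, h⟩ := hp
    obtain ⟨A', B', h'⟩ := hq
    refine ⟨A + A', B + B', fun q hq => ?_⟩
    rw [map_add, h q hq, h' q hq, Polynomial.eval_add, Polynomial.eval_add]
    ring
  | mul_X p i hp =>
    obtain ⟨A, B, h⟩ := hp
    fin_cases i
    · refine ⟨A * Polynomial.X, B * Polynomial.X, fun q hq => ?_⟩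
      rw [map_mul, h q hq]
      simp
      ring
    · refine ⟨B * (Polynomial.X ^ 3 + Polynomial.C a * Polynomial.X + Polynomial.C b), A,
        fun q hq => ?_⟩
      have h2 : q.2 ^ 2 = q.1 ^ 3 + a * q.1 + b := hq
      rw [map_mul, h q hq]
      simp
      linear_combination Polynomial.eval q.1 B * h2

/-- A polynomial has finitely many zeros on the affine curve, or vanishes identically on it. -/
lemma zeros_affineE (a b : ℂ) (H : MvPolynomial (Fin 2) ℂ) :
    {q | q ∈ affineE a b ∧ eval ![q.1, q.2] H = 0}.Finite ∨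
      ∀ q ∈ affineE a b, eval ![q.1, q.2] H = 0 := by
  obtain ⟨A, B, h⟩ := exists_reduction a b H
  set C : Polynomial ℂ := Polynomial.X ^ 3 + Polynomial.C a * Polynomial.X + Polynomial.C b
    with hC
  have hCe : ∀ ξ, C.eval ξ = ξ ^ 3 + a * ξ + b := fun ξ => by rw [hC]; simp
  by_cases h0 : A = 0 ∧ B = 0
  · right
    intro q hq
    rw [h q hq, h0.1, h0.2]
    simp
  left
  have hCdeg : C.natDegree = 3 := by
    rw [hC]
    compute_degree!
  have hN : A ^ 2 - B ^ 2 * C ≠ 0 := by
    intro hcon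
    have h1 : A ^ 2 = B ^ 2 * C := sub_eq_zero.mp hcon
    have hC0 : C ≠ 0 := by
      intro hC0
      rw [hC0] at hCdeg
      simp at hCdeg
    by_cases hB : B = 0
    · rw [hB] at h1
      apply h0
      refine ⟨?_, hB⟩
      have : A ^ 2 = 0 := by rw [h1]; ring
      exact pow_eq_zero_iff two_ne_zero |>.mp this
    · have h2 := congrArg Polynomial.natDegree h1
      rw [Polynomial.natDegree_pow, Polynomial.natDegree_mul (pow_ne_zero _ hB) hC0,
        Polynomial.natDegree_pow, hCdeg] at h2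
      omega
  have hfin : {ξ : ℂ | (A ^ 2 - B ^ 2 * C).eval ξ = 0}.Finite := by
    have h3 := (A ^ 2 - B ^ 2 * C).roots.toFinset.finite_toSet
    refine h3.subset fun ξ hξ => ?_
    rw [Finset.mem_coe, Multiset.mem_toFinset, Polynomial.mem_roots hN]
    exact hξ
  have hsq : ∀ c : ℂ, {η : ℂ | η ^ 2 = c}.Finite := by
    intro c
    by_cases hc : ∃ η₀ : ℂ, η₀ ^ 2 = c
    · obtain ⟨η₀, hη₀⟩ := hc
      refine (Set.toFinite {η₀, -η₀}).subset fun η hη => ?_
      have h1 : (η - η₀) * (η + η₀) = 0 := by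
        have : η ^ 2 = c := hη
        linear_combination this - hη₀
      rcases mul_eq_zero.mp h1 with h2 | h2
      · left
        exact sub_eq_zero.mp h2
      · right
        exact eq_neg_of_add_eq_zero_left h2
    · refine (Set.finite_empty).subset fun η hη => ?_
      exact hc ⟨η, hη⟩
  have hfin2 : (⋃ ξ ∈ {ξ : ℂ | (A ^ 2 - B ^ 2 * C).eval ξ = 0},
      (fun η : ℂ => ((ξ, η) : ℂ × ℂ)) '' {η : ℂ | η ^ 2 = C.eval ξ}).Finite :=
    hfin.biUnion fun ξ _ => (hsq _).image _
  refine hfin2.subset ?_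
  rintro ⟨ξ, η⟩ ⟨hq, hz⟩
  have hq' : η ^ 2 = C.eval ξ := by rw [hCe]; exact hq
  simp only [Set.mem_iUnion]
  refine ⟨ξ, ?_, η, hq', rfl⟩
  rw [h _ hq] at hz
  show (A ^ 2 - B ^ 2 * C).eval ξ = 0
  simp only [Polynomial.eval_sub, Polynomial.eval_mul, Polynomial.eval_pow]
  have hz' : A.eval ξ + B.eval ξ * η = 0 := hz
  linear_combination (A.eval ξ - B.eval ξ * η) * hz' + (B.eval ξ) ^ 2 * hq'

lemma affineE_infinite (a b : ℂ) : (affineE a b).Infinite := by
  have hroot : ∀ ξ : ℂ, ∃ η : ℂ, η ^ 2 = ξ ^ 3 + a * ξ + b := fun ξ =>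
    IsAlgClosed.exists_pow_nat_eq _ (by norm_num)
  choose η hη using hroot
  have hinj : Function.Injective (fun ξ : ℂ => ((ξ, η ξ) : ℂ × ℂ)) := fun x y h =>
    (Prod.mk.inj h).1
  exact (Set.infinite_range_of_injective hinj).mono (by rintro _ ⟨ξ, rfl⟩; exact hη ξ)

lemma mk_eq_iff_minors {N : ℕ} {v : Fin (N + 1) → ℂ} (hv : v ≠ 0) (c : PSpace N) :
    Projectivization.mk ℂ v hv = c ↔ ∀ i j, v i * c.rep j = v j * c.rep i := by
  have hc : c.rep ≠ 0 := c.rep_nonzero
  constructor
  · intro h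
    rw [← c.mk_rep] at h
    obtain ⟨a, ha⟩ := (Projectivization.mk_eq_mk_iff' ℂ v c.rep hv hc).mp h
    intro i j
    rw [← ha]
    simp only [Pi.smul_apply, smul_eq_mul]
    ring
  · intro h
    obtain ⟨j, hj⟩ : ∃ j, c.rep j ≠ 0 := by
      by_contra hcon
      push Not at hcon
      exact hc (funext hcon)
    rw [← c.mk_rep, Projectivization.mk_eq_mk_iff']
    refine ⟨v j / c.rep j, ?_⟩
    funext i
    simp only [Pi.smul_apply, smul_eq_mul]
    have h1 := h i j
    field_simp
    linear_combination -h1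

/-- The fibres of a non-constant morphism from an elliptic curve are finite. -/
lemma fib_ell {N : ℕ} {a b : ℂ} {f : ℂ × ℂ → PSpace N} (hf : IsEllipticMorphism a b f)
    (hnc : ∃ p ∈ affineE a b, ∃ q ∈ affineE a b, f p ≠ f q) (c : PSpace N) :
    {q | q ∈ affineE a b ∧ f q = c}.Finite := by
  by_contra hinf
  have hinf' : {q | q ∈ affineE a b ∧ f q = c}.Infinite := hinf
  have key : ∀ p ∈ affineE a b, f p = c := by
    intro p hp
    obtain ⟨A, hA0, hA⟩ := hf p hp
    obtain ⟨i₀, hi₀⟩ : ∃ i, eval ![p.1, p.2] (A i) ≠ 0 := by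
      by_contra hcon
      push Not at hcon
      exact hA0 (funext hcon)
    have hZ : {q | q ∈ affineE a b ∧ eval ![q.1, q.2] (A i₀) = 0}.Finite := by
      rcases zeros_affineE a b (A i₀) with h | h
      · exact h
      · exact absurd (h p hp) hi₀
    have hinf2 := hinf'.sdiff hZ
    rw [hA p hp hA0, mk_eq_iff_minors]
    intro i j
    set H := A i * C (c.rep j) - A j * C (c.rep i) with hH
    have hHq : ∀ q : ℂ × ℂ, eval ![q.1, q.2] H =
        eval ![q.1, q.2] (A i) * c.rep j - eval ![q.1, q.2] (A j) * c.rep i := by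
      intro q
      rw [hH]
      simp
    have hall : ∀ q ∈ affineE a b, eval ![q.1, q.2] H = 0 := by
      rcases zeros_affineE a b H with h | h
      · exfalso
        refine hinf2 (h.subset ?_)
        rintro q ⟨⟨hq, hfq⟩, hq2⟩
        refine ⟨hq, ?_⟩
        have hne : (fun i => eval ![q.1, q.2] (A i)) ≠ 0 := by
          intro h0
          exact hq2 ⟨hq, congrFun h0 i₀⟩
        have h1 := hA q hq hne
        rw [hfq] at h1
        have h2 := (mk_eq_iff_minors hne c).mp h1.symm i j
        rw [hHq, h2, sub_self]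
      · exact h
    have h3 := hall p hp
    rw [hHq] at h3
    exact sub_eq_zero.mp h3
  obtain ⟨p, hp, q, hq, hpq⟩ := hnc
  exact hpq ((key p hp).trans (key q hq).symm)

/-- The fibres of a non-constant morphism from `G_m` are finite. -/
lemma fib_gm {N : ℕ} {f : ℂ → PSpace N} (hf : IsGmMorphism f)
    (hnc : ∃ z y, z ≠ 0 ∧ y ≠ 0 ∧ f z ≠ f y) (c : PSpace N) :
    {z : ℂ | z ≠ 0 ∧ f z = c}.Finite := by
  by_contra hinf
  obtain ⟨A, hA⟩ := hf
  have key : ∀ z, z ≠ 0 → f z = c := by
    intro z hz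
    obtain ⟨h0, h1⟩ := hA z hz
    rw [h1, mk_eq_iff_minors]
    intro i j
    have hH : A i * Polynomial.C (c.rep j) - A j * Polynomial.C (c.rep i) = 0 := by
      apply Polynomial.eq_zero_of_infinite_isRoot
      refine Set.Infinite.mono ?_ hinf
      rintro y ⟨hy, hfy⟩
      obtain ⟨h2, h3⟩ := hA y hy
      rw [hfy] at h3
      have h4 := (mk_eq_iff_minors h2 c).mp h3.symm i j
      show (A i * Polynomial.C (c.rep j) - A j * Polynomial.C (c.rep i)).eval y = 0
      simp only [Polynomial.eval_sub, Polynomial.eval_mul, Polynomial.eval_C]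
      rw [h4, sub_self]
    have h5 := congrArg (Polynomial.eval z) hH
    simp only [Polynomial.eval_sub, Polynomial.eval_mul, Polynomial.eval_C,
      Polynomial.eval_zero] at h5
    exact sub_eq_zero.mp h5
  obtain ⟨z, y, hz, hy, hzy⟩ := hnc
  exact hzy ((key z hz).trans (key y hy).symm)

end Pool.Agent.H24.SG
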