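import Mathlib
import Pool.Agent.H24.SG.Fib
import Pool.Agent.H86.Refl.HData

/-!
# Images under finite morphisms of the curves of genus at most one
-/

set_option autoImplicit false

namespace Pool.Agent.H24.SG

open MvPolynomial Pool.Agent.H86.Refl

/-- `ψ` is a morphism with finite fibres from `X` to `Y`, locally given by forms. -/
structure PatchMap {M N : ℕ} (X : Set (PSpace M)) (Y : Set (PSpace N))
    (ψ : PSpace M → PSpace N) : Prop where
  patch : ∀ x ∈ X, ∃ (δ : ℕ) (B : Fin (N + 1) → MvPolynomial (Fin (M + 1)) ℂ), 0 < δ ∧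
    (∀ i, (B i).IsHomogeneous δ) ∧ (fun i => eval x.rep (B i)) ≠ 0 ∧
    ∀ y ∈ X, ∀ h : (fun i => eval y.rep (B i)) ≠ 0, ψ y = Projectivization.mk ℂ _ h
  maps : ∀ x ∈ X, ψ x ∈ Y
  fib : ∀ c, {x | x ∈ X ∧ ψ x = c}.Finite

section

variable {M N : ℕ} {X : Set (PSpace M)} {Y : Set (PSpace N)} {ψ : PSpace M → PSpace N}

lemma eval_vec_smul {δ : ℕ} {B : Fin (N + 1) → MvPolynomial (Fin (M + 1)) ℂ}
    (hB : ∀ i, (B i).IsHomogeneous δ) (a : ℂ) (v : Fin (M + 1) → ℂ) :
    (fun i => eval (a • v) (B i)) = a ^ δ • (fun i => eval v (B i)) := by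
  funext i
  rw [eval_smul_homogeneous (hB i)]
  rfl

lemma patch_mk {δ : ℕ} {B : Fin (N + 1) → MvPolynomial (Fin (M + 1)) ℂ}
    (hB : ∀ i, (B i).IsHomogeneous δ)
    (h : ∀ y ∈ X, ∀ h : (fun i => eval y.rep (B i)) ≠ 0, ψ y = Projectivization.mk ℂ _ h)
    {v : Fin (M + 1) → ℂ} (hv : v ≠ 0) (hX : Projectivization.mk ℂ v hv ∈ X)
    (hBv : (fun i => eval v (B i)) ≠ 0) :
    ψ (Projectivization.mk ℂ v hv) = Projectivization.mk ℂ _ hBv := by
  obtain ⟨a, ha⟩ := Projectivization.exists_smul_eq_mk_rep ℂ v hv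
  have ha' : (Projectivization.mk ℂ v hv).rep = (a : ℂ) • v := ha.symm
  have h1 : (fun i => eval (Projectivization.mk ℂ v hv).rep (B i)) =
      (a : ℂ) ^ δ • (fun i => eval v (B i)) := by
    rw [ha', eval_vec_smul hB]
  have h2 : (fun i => eval (Projectivization.mk ℂ v hv).rep (B i)) ≠ 0 := by
    rw [h1]
    exact smul_ne_zero (pow_ne_zero _ a.ne_zero) hBv
  rw [h _ hX h2]
  exact mk_eq_of_smul h2 hBv _ h1

lemma patch_ne {δ : ℕ} {B : Fin (N + 1) → MvPolynomial (Fin (M + 1)) ℂ}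
    (hB : ∀ i, (B i).IsHomogeneous δ) {v : Fin (M + 1) → ℂ} (hv : v ≠ 0)
    (h : (fun i => eval (Projectivization.mk ℂ v hv).rep (B i)) ≠ 0) :
    (fun i => eval v (B i)) ≠ 0 := by
  obtain ⟨a, ha⟩ := Projectivization.exists_smul_eq_mk_rep ℂ v hv
  have ha' : (Projectivization.mk ℂ v hv).rep = (a : ℂ) • v := ha.symm
  rw [ha', eval_vec_smul hB] at h
  intro h0
  rw [h0, smul_zero] at h
  exact h rfl

lemma vec_ne_of_patch_ne {δ : ℕ} (hδ : 0 < δ)
    {B : Fin (N + 1) → MvPolynomial (Fin (M + 1)) ℂ}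
    (hB : ∀ i, (B i).IsHomogeneous δ) {v : Fin (M + 1) → ℂ}
    (h : (fun i => eval v (B i)) ≠ 0) : v ≠ 0 := by
  rintro rfl
  apply h
  have h1 := eval_vec_smul hB 0 0
  rw [zero_smul, zero_pow hδ.ne', zero_smul] at h1
  exact h1

lemma eval_bind (A : Fin (M + 1) → MvPolynomial (Fin 2) ℂ) (v : Fin 2 → ℂ)
    (P : MvPolynomial (Fin (M + 1)) ℂ) :
    eval v (aeval A P) = eval (fun j => eval v (A j)) P := by
  have h1 : (eval v).comp (algebraMap ℂ (MvPolynomial (Fin 2) ℂ)) = RingHom.id ℂ := by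
    ext x
    simp
  rw [aeval_def, MvPolynomial.hom_eval₂, h1]
  rfl

/-- Transport of points on images of elliptic curves. -/
theorem PatchMap.ell (h : PatchMap X Y ψ) {x : PSpace M} (hx : x ∈ ellipticPoints X) :
    ψ x ∈ ellipticPoints Y := by
  obtain ⟨a, b, f, hΔ, hf, hmem, hnc, p, hp, hfp⟩ := hx
  refine ⟨a, b, fun q => ψ (f q), hΔ, ?_, fun q hq => h.maps _ (hmem q hq), ?_, p, hp,
    congrArg ψ hfp⟩
  · intro p' hp'
    obtain ⟨A, hA0, hA⟩ := hf p' hp'
    obtain ⟨δ, B, hδ, hB, hB0, hBψ⟩ := h.patch (f p') (hmem p' hp')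
    refine ⟨fun i => aeval A (B i), ?_, ?_⟩
    · simp only [eval_bind]
      rw [hA p' hp' hA0] at hB0
      exact patch_ne hB hA0 hB0
    · intro q hq hne
      simp only [eval_bind] at hne ⊢
      have hAq : (fun i => eval ![q.1, q.2] (A i)) ≠ 0 := vec_ne_of_patch_ne hδ hB hne
      have h1 := hA q hq hAq
      have h2 := hmem q hq
      rw [h1] at h2
      rw [h1]
      exact patch_mk hB hBψ hAq h2 hne
  · by_contra hcon
    push Not at hcon
    have hinf := affineE_infinite a b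
    apply hinf
    have hfin : (⋃ c ∈ {c | c ∈ X ∧ ψ c = ψ (f p)}, {q | q ∈ affineE a b ∧ f q = c}).Finite :=
      (h.fib _).biUnion fun c _ => fib_ell hf hnc c
    refine hfin.subset fun q hq => ?_
    simp only [Set.mem_iUnion]
    exact ⟨f q, ⟨hmem q hq, hcon q hq p hp⟩, hq, rfl⟩

/-- Transport of points on images of `G_m`. -/
theorem PatchMap.gm (h : PatchMap X Y ψ) {x : PSpace M} (hx : x ∈ gmPoints X) :
    ψ x ∈ gmPoints Y := by
  obtain ⟨f, ⟨A, hA⟩, hmem, hnc, z₀, hz₀, hfz₀⟩ := hx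
  have hf : IsGmMorphism f := ⟨A, hA⟩
  -- the composition with a patch
  have hcomp : ∀ (B : Fin (N + 1) → MvPolynomial (Fin (M + 1)) ℂ) (z : ℂ),
      (fun i => (aeval A (B i) : Polynomial ℂ).eval z) =
      fun i => eval (fun j => (A j).eval z) (B i) := by
    intro B z
    funext i
    have h1 := MvPolynomial.aeval_def A (B i)
    rw [h1, ← Polynomial.coe_evalRingHom, MvPolynomial.hom_eval₂]
    rw [MvPolynomial.eval, MvPolynomial.coe_eval₂Hom]
    congr 1
    ext x
    simp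
  obtain ⟨δ, B, hδ, hB, hB0, hBψ⟩ := h.patch (f z₀) (hmem z₀ hz₀)
  have hval : ∀ {δ : ℕ} {B : Fin (N + 1) → MvPolynomial (Fin (M + 1)) ℂ}, 0 < δ →
      (∀ i, (B i).IsHomogeneous δ) →
      (∀ y ∈ X, ∀ h : (fun i => eval y.rep (B i)) ≠ 0, ψ y = Projectivization.mk ℂ _ h) →
      ∀ z, z ≠ 0 → ∀ hne : (fun i => (aeval A (B i) : Polynomial ℂ).eval z) ≠ 0,
      ψ (f z) = Projectivization.mk ℂ _ hne := by
    intro δ B hδ hB hBψ z hz hne
    obtain ⟨h0, h1⟩ := hA z hz
    have h2 := hmem z hz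
    rw [h1] at h2 ⊢
    have hne' := hne
    rw [hcomp] at hne'
    rw [patch_mk hB hBψ h0 h2 hne']
    congr 1
    rw [hcomp]
  have hne0 : ∀ {δ : ℕ} {B : Fin (N + 1) → MvPolynomial (Fin (M + 1)) ℂ},
      (∀ i, (B i).IsHomogeneous δ) → ∀ z, z ≠ 0 → (fun i => eval (f z).rep (B i)) ≠ 0 →
      (fun i => (aeval A (B i) : Polynomial ℂ).eval z) ≠ 0 := by
    intro δ B hB z hz h0
    obtain ⟨h1, h2⟩ := hA z hz
    rw [h2] at h0
    rw [hcomp]
    exact patch_ne hB h1 h0
  have hP0 := hne0 hB z₀ hz₀ hB0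
  obtain ⟨i₀, hi₀⟩ : ∃ i, (aeval A (B i) : Polynomial ℂ).eval z₀ ≠ 0 := by
    by_contra hcon
    push Not at hcon
    exact hP0 (funext hcon)
  have hPi₀ : (aeval A (B i₀) : Polynomial ℂ) ≠ 0 := by
    intro h0
    rw [h0] at hi₀
    simp at hi₀
  obtain ⟨d, C, hd, hPC, hC⟩ := exists_coprime (fun i => (aeval A (B i) : Polynomial ℂ))
    ⟨i₀, hPi₀⟩
  have hCne : ∀ z, (fun i => (C i).eval z) ≠ 0 := by
    intro z h0
    obtain ⟨i, hi⟩ := hC z
    exact hi (congrFun h0 i)
  have hψ : ∀ z, z ≠ 0 → ψ (f z) = Projectivization.mk ℂ (fun i => (C i).eval z) (hCne z) := by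
    intro z hz
    obtain ⟨δ', B', hδ', hB', hB0', hBψ'⟩ := h.patch (f z) (hmem z hz)
    have hP0' := hne0 hB' z hz hB0'
    rw [hval hδ' hB' hBψ' z hz hP0']
    obtain ⟨j₀, hj₀⟩ : ∃ i, (aeval A (B' i) : Polynomial ℂ).eval z ≠ 0 := by
      by_contra hcon
      push Not at hcon
      exact hP0' (funext hcon)
    have hPj₀ : (aeval A (B' j₀) : Polynomial ℂ) ≠ 0 := by
      intro h0
      rw [h0] at hj₀
      simp at hj₀
    have hminor : ∀ i j, C i * (aeval A (B' j) : Polynomial ℂ) =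
        C j * (aeval A (B' i) : Polynomial ℂ) := by
      intro i j
      have h3 : Polynomial.X * (aeval A (B i₀) : Polynomial ℂ) *
          (aeval A (B' j₀) : Polynomial ℂ) *
          (C i * (aeval A (B' j) : Polynomial ℂ) - C j * (aeval A (B' i) : Polynomial ℂ)) = 0 := by
        apply Polynomial.funext
        intro y
        rw [Polynomial.eval_zero, Polynomial.eval_mul, Polynomial.eval_mul, Polynomial.eval_mul,
          Polynomial.eval_X]
        by_cases hy : y = 0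
        · rw [hy]
          ring
        by_cases h1 : (aeval A (B i₀) : Polynomial ℂ).eval y = 0
        · rw [h1]
          ring
        by_cases h2 : (aeval A (B' j₀) : Polynomial ℂ).eval y = 0
        · rw [h2]
          ring
        have hn1 : (fun i => (aeval A (B i) : Polynomial ℂ).eval y) ≠ 0 := fun h0 =>
          h1 (congrFun h0 i₀)
        have hn2 : (fun i => (aeval A (B' i) : Polynomial ℂ).eval y) ≠ 0 := fun h0 =>
          h2 (congrFun h0 j₀)
        have h4 := (hval hδ hB hBψ y hy hn1).symm.trans (hval hδ' hB' hBψ' y hy hn2)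
        obtain ⟨μ, hμ⟩ := (Projectivization.mk_eq_mk_iff' ℂ _ _ _ _).mp h4
        have h5 : ∀ i, d.eval y * (C i).eval y = μ * (aeval A (B' i) : Polynomial ℂ).eval y := by
          intro i
          have h6 := congrFun hμ i
          simp only [Pi.smul_apply, smul_eq_mul] at h6
          rw [h6, hPC i, Polynomial.eval_mul]
        have hdy : d.eval y ≠ 0 := by
          intro h0
          apply h1
          rw [hPC i₀, Polynomial.eval_mul, h0, zero_mul]
        rw [Polynomial.eval_sub, Polynomial.eval_mul, Polynomial.eval_mul]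
        have h7 : d.eval y * ((C i).eval y * (aeval A (B' j) : Polynomial ℂ).eval y -
            (C j).eval y * (aeval A (B' i) : Polynomial ℂ).eval y) = 0 := by
          linear_combination (aeval A (B' j) : Polynomial ℂ).eval y * h5 i -
            (aeval A (B' i) : Polynomial ℂ).eval y * h5 j
        rw [(mul_eq_zero.mp h7).resolve_left hdy, mul_zero]
      have h8 := (mul_eq_zero.mp h3).resolve_left
        (mul_ne_zero (mul_ne_zero Polynomial.X_ne_zero hPi₀) hPj₀)
      exact sub_eq_zero.mp h8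
    obtain ⟨k, hk⟩ := hC z
    rw [Projectivization.mk_eq_mk_iff']
    refine ⟨(aeval A (B' k) : Polynomial ℂ).eval z / (C k).eval z, ?_⟩
    funext i
    have h9 := congrArg (Polynomial.eval z) (hminor i k)
    rw [Polynomial.eval_mul, Polynomial.eval_mul] at h9
    simp only [Pi.smul_apply, smul_eq_mul]
    field_simp
    linear_combination h9
  refine ⟨fun z => ψ (f z), ⟨C, fun z hz => ⟨hCne z, hψ z hz⟩⟩,
    fun z hz => h.maps _ (hmem z hz), ?_, z₀, hz₀, congrArg ψ hfz₀⟩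
  by_contra hcon
  push Not at hcon
  have hinf : {z : ℂ | z ≠ 0}.Infinite := by
    have h1 : ({0}ᶜ : Set ℂ).Infinite := (Set.finite_singleton (0 : ℂ)).infinite_compl
    exact h1
  apply hinf
  have hfin : (⋃ c ∈ {c | c ∈ X ∧ ψ c = ψ (f z₀)}, {z : ℂ | z ≠ 0 ∧ f z = c}).Finite :=
    (h.fib _).biUnion fun c _ => fib_gm hf hnc c
  refine hfin.subset fun z hz => ?_
  simp only [Set.mem_iUnion]
  exact ⟨f z, ⟨hmem z hz, hcon z z₀ hz hz₀⟩, hz, rfl⟩

theorem PatchMap.sab (h : PatchMap X Y ψ) {x : PSpace M}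
    (hx : x ∈ gmPoints X ∪ ellipticPoints X) : ψ x ∈ gmPoints Y ∪ ellipticPoints Y := by
  rcases hx with hx | hx
  · exact Or.inl (h.gm hx)
  · exact Or.inr (h.ell hx)

/-- Construction of a morphism from compatible patches. -/
theorem exists_patchMap {K : Type*} (δ : K → ℕ)
    (B : K → Fin (N + 1) → MvPolynomial (Fin (M + 1)) ℂ) (hδ : ∀ k, 0 < δ k)
    (hB : ∀ k i, (B k i).IsHomogeneous (δ k))
    (hcover : ∀ x ∈ X, ∃ k i, eval x.rep (B k i) ≠ 0)
    (hprop : ∀ x ∈ X, ∀ k l i j, eval x.rep (B k i) * eval x.rep (B l j) =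
      eval x.rep (B k j) * eval x.rep (B l i))
    (hmaps : ∀ x ∈ X, ∀ k, ∀ h : (fun i => eval x.rep (B k i)) ≠ 0,
      Projectivization.mk ℂ _ h ∈ Y)
    (hfib : ∀ c : PSpace N, {x | x ∈ X ∧ ∃ k, ∃ h : (fun i => eval x.rep (B k i)) ≠ 0,
      Projectivization.mk ℂ _ h = c}.Finite) :
    ∃ ψ : PSpace M → PSpace N, PatchMap X Y ψ ∧
      ∀ x ∈ X, ∀ k, ∀ h : (fun i => eval x.rep (B k i)) ≠ 0,
        ψ x = Projectivization.mk ℂ _ h := by
  classical
  have hex : ∀ x : PSpace M, ∃ y : PSpace N, x ∈ X →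
      ∀ k, ∀ h : (fun i => eval x.rep (B k i)) ≠ 0, y = Projectivization.mk ℂ _ h := by
    intro x
    by_cases hx : x ∈ X
    · obtain ⟨k, i, hki⟩ := hcover x hx
      have hk : (fun i => eval x.rep (B k i)) ≠ 0 := fun h0 => hki (congrFun h0 i)
      refine ⟨Projectivization.mk ℂ _ hk, fun _ l hl => ?_⟩
      obtain ⟨j, hj⟩ : ∃ j, eval x.rep (B l j) ≠ 0 := by
        by_contra hcon
        push Not at hcon
        exact hl (funext hcon)
      rw [Projectivization.mk_eq_mk_iff']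
      refine ⟨eval x.rep (B k j) / eval x.rep (B l j), ?_⟩
      funext i
      simp only [Pi.smul_apply, smul_eq_mul]
      have h1 := hprop x hx k l i j
      field_simp
      linear_combination -h1
    · refine ⟨Projectivization.mk ℂ (fun _ => 1) (fun h0 => one_ne_zero (congrFun h0 0)),
        fun h => absurd h hx⟩
  choose ψ hψ using hex
  refine ⟨ψ, ⟨?_, ?_, ?_⟩, fun x hx => hψ x hx⟩
  · intro x hx
    obtain ⟨k, i, hki⟩ := hcover x hx
    exact ⟨δ k, B k, hδ k, hB k, fun h0 => hki (congrFun h0 i), fun y hy h => hψ y hy k h⟩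
  · intro x hx
    obtain ⟨k, i, hki⟩ := hcover x hx
    have hk : (fun i => eval x.rep (B k i)) ≠ 0 := fun h0 => hki (congrFun h0 i)
    rw [hψ x hx k hk]
    exact hmaps x hx k hk
  · intro c
    refine (hfib c).subset ?_
    rintro x ⟨hx, hxc⟩
    obtain ⟨k, i, hki⟩ := hcover x hx
    have hk : (fun i => eval x.rep (B k i)) ≠ 0 := fun h0 => hki (congrFun h0 i)
    exact ⟨hx, k, hk, (hψ x hx k hk).symm.trans hxc⟩

end

end Pool.Agent.H24.SG
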