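import Mathlib
import Pool.Agent.H24.SG.Transport
import Pool.Agent.H86.Refl.SabCases

/-!
# Projection of a plane cubic from one of its points: the curve `w² = f₂² - 4 f₁ f₃`
-/

set_option autoImplicit false

namespace Pool.Agent.H24.SG

open MvPolynomial Pool.Agent.H86.Refl Pool.Agent.H84

/-- Coefficients of the cubic form `α² f₁(s,t) + α f₂(s,t) + f₃(s,t)`. -/
structure Coef where
  c0 : ℂ
  c1 : ℂ
  d0 : ℂ
  d1 : ℂ
  d2 : ℂ
  e0 : ℂ
  e1 : ℂ
  e2 : ℂ
  e3 : ℂ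

namespace Coef

variable (k : Coef)

def f1 (s t : ℂ) : ℂ := k.c0 * s + k.c1 * t
def f2 (s t : ℂ) : ℂ := k.d0 * s ^ 2 + k.d1 * (s * t) + k.d2 * t ^ 2
def f3 (s t : ℂ) : ℂ := k.e0 * s ^ 3 + k.e1 * (s ^ 2 * t) + k.e2 * (s * t ^ 2) + k.e3 * t ^ 3
def g0 : ℂ := k.d0 ^ 2 - 4 * (k.c0 * k.e0)
def g1 : ℂ := 2 * k.d0 * k.d1 - 4 * (k.c0 * k.e1 + k.c1 * k.e0)
def g2 : ℂ := 2 * k.d0 * k.d2 + k.d1 ^ 2 - 4 * (k.c0 * k.e2 + k.c1 * k.e1)
def g3 : ℂ := 2 * k.d1 * k.d2 - 4 * (k.c0 * k.e3 + k.c1 * k.e2)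
def g4 : ℂ := k.d2 ^ 2 - 4 * (k.c1 * k.e3)

lemma g_eq (s t : ℂ) : k.g0 * s ^ 4 + k.g1 * (s ^ 3 * t) + k.g2 * (s ^ 2 * t ^ 2) +
    k.g3 * (s * t ^ 3) + k.g4 * t ^ 4 = k.f2 s t ^ 2 - 4 * (k.f1 s t * k.f3 s t) := by
  simp only [g0, g1, g2, g3, g4, f1, f2, f3]
  ring

/-- The equations of the quartic curve. -/
noncomputable def H4 : Fin 2 → MvPolynomial (Fin (3 + 1)) ℂ :=
  ![X 0 * X 2 - X 1 ^ 2, X 3 ^ 2 - (C k.g0 * X 0 ^ 2 + C k.g1 * (X 0 * X 1) + C k.g2 * X 1 ^ 2 +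
    C k.g3 * (X 1 * X 2) + C k.g4 * X 2 ^ 2)]

lemma H4_hom : ∀ j, (k.H4 j).IsHomogeneous ((fun _ => 2 : Fin 2 → ℕ) j) := by
  have hX : ∀ i : Fin (3 + 1), (X i : MvPolynomial (Fin (3 + 1)) ℂ).IsHomogeneous 1 := fun i =>
    isHomogeneous_X ℂ i
  have hXX : ∀ i j : Fin (3 + 1),
      (X i * X j : MvPolynomial (Fin (3 + 1)) ℂ).IsHomogeneous 2 := fun i j =>
    (hX i).mul (hX j)
  have hX2 : ∀ i : Fin (3 + 1), (X i ^ 2 : MvPolynomial (Fin (3 + 1)) ℂ).IsHomogeneous 2 :=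
    fun i => by
      rw [sq]
      exact hXX i i
  have hC : ∀ (a : ℂ) {P : MvPolynomial (Fin (3 + 1)) ℂ}, P.IsHomogeneous 2 →
      (C a * P).IsHomogeneous 2 := fun a P hP => by
    have := (isHomogeneous_C (Fin (3 + 1)) a).mul hP
    rwa [zero_add] at this
  intro j
  fin_cases j
  · exact (hXX 0 2).sub (hX2 1)
  · exact (hX2 3).sub (((((hC _ (hX2 0)).add (hC _ (hXX 0 1))).add (hC _ (hX2 1))).add
      (hC _ (hXX 1 2))).add (hC _ (hX2 2)))

/-- Points of the quartic curve. -/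
def q4 (s t w : ℂ) : Fin (3 + 1) → ℂ := ![s ^ 2, s * t, t ^ 2, w]

lemma q4_zero {s t w : ℂ} (hw : w ^ 2 = k.f2 s t ^ 2 - 4 * (k.f1 s t * k.f3 s t)) (j : Fin 2) :
    eval (q4 s t w) (k.H4 j) = 0 := by
  rw [← g_eq] at hw
  fin_cases j
  · simp [H4, q4]
    ring
  · simp [H4, q4]
    linear_combination hw

lemma q4_ne {s t w : ℂ} (h : s ≠ 0 ∨ t ≠ 0) : q4 s t w ≠ 0 := by
  intro h0
  have h1 := congrFun h0 0
  have h2 := congrFun h0 2
  simp [q4] at h1 h2
  rcases h with h | h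
  · exact h h1
  · exact h h2

lemma mem4 {x : PSpace 3} (hx : x ∈ projectiveSet k.H4) : ∃ s t w, x.rep = q4 s t w ∧
    w ^ 2 = k.f2 s t ^ 2 - 4 * (k.f1 s t * k.f3 s t) ∧ (s ≠ 0 ∨ t ≠ 0) := by
  have h0 : x.rep 0 * x.rep 2 = x.rep 1 ^ 2 := by
    have := hx 0
    simp [VanishesAt, H4] at this
    exact sub_eq_zero.mp this
  have h1 : x.rep 3 ^ 2 = k.g0 * x.rep 0 ^ 2 + k.g1 * (x.rep 0 * x.rep 1) +
      k.g2 * x.rep 1 ^ 2 + k.g3 * (x.rep 1 * x.rep 2) + k.g4 * x.rep 2 ^ 2 := by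
    have := hx 1
    simp [VanishesAt, H4] at this
    exact sub_eq_zero.mp this
  obtain ⟨s, t, hs, hst, ht⟩ : ∃ s t : ℂ, x.rep 0 = s ^ 2 ∧ x.rep 1 = s * t ∧
      x.rep 2 = t ^ 2 := by
    by_cases h : x.rep 0 = 0
    · obtain ⟨t, ht⟩ := IsAlgClosed.exists_pow_nat_eq (x.rep 2) (n := 2) (by norm_num)
      rw [h, zero_mul] at h0
      have h2 : x.rep 1 = 0 := pow_eq_zero_iff two_ne_zero |>.mp h0.symm
      exact ⟨0, t, by rw [h]; ring, by rw [h2]; ring, ht.symm⟩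
    · obtain ⟨s, hs⟩ := IsAlgClosed.exists_pow_nat_eq (x.rep 0) (n := 2) (by norm_num)
      have hs0 : s ≠ 0 := by
        rintro rfl
        apply h
        rw [← hs]
        ring
      refine ⟨s, x.rep 1 / s, hs.symm, by field_simp, ?_⟩
      rw [div_pow, hs, ← h0]
      field_simp
  refine ⟨s, t, x.rep 3, ?_, ?_, ?_⟩
  · funext i
    fin_cases i
    · exact hs
    · exact hst
    · exact ht
    · rfl
  · rw [← g_eq, h1, hs, hst, ht]
    ring
  · by_contra hcon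
    push Not at hcon
    apply x.rep_nonzero
    obtain ⟨hs0, ht0⟩ := hcon
    rw [hs0] at hs hst
    rw [ht0] at hst ht
    funext i
    have h3 : x.rep 3 = 0 := by
      have h4 : x.rep 3 ^ 2 = 0 := by
        rw [h1, hs, hst, ht]
        ring
      exact pow_eq_zero_iff two_ne_zero |>.mp h4
    fin_cases i
    · show x.rep 0 = 0
      rw [hs]
      ring
    · show x.rep 1 = 0
      rw [hst]
      ring
    · show x.rep 2 = 0
      rw [ht]
      ring
    · exact h3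

/-- Finitely many points of the quartic curve lie over one direction. -/
lemma fin4 {σ τ : ℂ} (hστ : σ ≠ 0 ∨ τ ≠ 0) :
    {x : PSpace 3 | x ∈ projectiveSet k.H4 ∧ ∃ s t w, x.rep = q4 s t w ∧
      (s ≠ 0 ∨ t ≠ 0) ∧ σ * t = τ * s}.Finite := by
  obtain ⟨ω, hω⟩ := IsAlgClosed.exists_pow_nat_eq
    (k.f2 σ τ ^ 2 - 4 * (k.f1 σ τ * k.f3 σ τ)) (n := 2) (by norm_num)
  refine (Set.toFinite {Projectivization.mk ℂ (q4 σ τ ω) (q4_ne hστ),
    Projectivization.mk ℂ (q4 σ τ (-ω)) (q4_ne hστ)}).subset ?_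
  rintro x ⟨hx, s, t, w, hrep, hst, hdir⟩
  -- `(s, t) = l (σ, τ)`
  obtain ⟨l, hl, hls, hlt⟩ : ∃ l : ℂ, l ≠ 0 ∧ s = l * σ ∧ t = l * τ := by
    rcases eq_or_ne σ 0 with hσ | hσ
    · have hτ : τ ≠ 0 := by
        rcases hστ with h | h
        · exact absurd hσ h
        · exact h
      rw [hσ, zero_mul] at hdir
      have hs : s = 0 := (mul_eq_zero.mp hdir.symm).resolve_left hτ
      have ht : t ≠ 0 := by
        rcases hst with h | h
        · exact absurd hs h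
        · exact h
      refine ⟨t / τ, div_ne_zero ht hτ, ?_, ?_⟩
      · rw [hs, hσ, mul_zero]
      · field_simp
    · have hs : s ≠ 0 := by
        rintro rfl
        rw [mul_zero] at hdir
        have ht : t = 0 := (mul_eq_zero.mp hdir).resolve_left hσ
        rcases hst with h | h
        · exact h rfl
        · exact h ht
      refine ⟨s / σ, div_ne_zero hs hσ, ?_, ?_⟩
      · field_simp
      · field_simp
        linear_combination hdir
  obtain ⟨s', t', w', hrep', hw', -⟩ := k.mem4 hx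
  have hw2 : w ^ 2 = (l ^ 2 * ω) ^ 2 := by
    have h1 : x.rep 3 = w := by rw [hrep]; rfl
    have h2 : x.rep 3 = w' := by rw [hrep']; rfl
    have h3 := hx 1
    simp [VanishesAt, H4] at h3
    rw [hrep] at h3
    simp [q4] at h3
    have h4 := k.g_eq σ τ
    rw [hls, hlt] at h3
    rw [← hω] at h4
    linear_combination h3 + l ^ 4 * h4
  have h5 : (w - l ^ 2 * ω) * (w + l ^ 2 * ω) = 0 := by linear_combination hw2
  have hx' : x = Projectivization.mk ℂ x.rep x.rep_nonzero := x.mk_rep.symm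
  rcases mul_eq_zero.mp h5 with h | h
  · left
    rw [hx', Projectivization.mk_eq_mk_iff']
    refine ⟨l ^ 2, ?_⟩
    rw [hrep, hls, hlt, sub_eq_zero.mp h]
    funext i
    fin_cases i <;> simp [q4] <;> ring
  · right
    show x = Projectivization.mk ℂ (q4 σ τ (-ω)) (q4_ne hστ)
    rw [hx', Projectivization.mk_eq_mk_iff']
    refine ⟨l ^ 2, ?_⟩
    rw [hrep, hls, hlt, eq_neg_of_add_eq_zero_left h]
    funext i
    fin_cases i <;> simp [q4] <;> ring

/-- The point over the direction `(0, 1)` lies on a curve of genus at most one. -/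
lemma sab4 {w₀ : ℂ} (hw₀ : w₀ ≠ 0) (hw : w₀ ^ 2 = k.d2 ^ 2 - 4 * (k.c1 * k.e3)) :
    Projectivization.mk ℂ (q4 0 1 w₀) (q4_ne (Or.inr one_ne_zero)) ∈
      gmPoints (projectiveSet k.H4) ∪ ellipticPoints (projectiveSet k.H4) := by
  set g : Polynomial ℂ := Polynomial.C k.g4 + Polynomial.C k.g3 * Polynomial.X +
    Polynomial.C k.g2 * Polynomial.X ^ 2 + Polynomial.C k.g1 * Polynomial.X ^ 3 +
    Polynomial.C k.g0 * Polynomial.X ^ 4 with hg
  have hgd : g.natDegree ≤ 2 + 2 := by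
    rw [hg]
    compute_degree
  have D : HData 2 1 k.H4 (q4 0 1 w₀) ![Polynomial.X ^ 2, Polynomial.X, 1] g := by
    refine ⟨rfl, ?_, hgd, ?_, ?_, ?_, ?_⟩
    · intro i
      fin_cases i
      · simp
      · simp
      · simp
    · intro i
      fin_cases i <;> simp [q4]
    · rw [hg]
      simp [q4, g4, hw]
    · intro j s t w hw'
      have h1 : hform (2 + 2) g s t = k.f2 s t ^ 2 - 4 * (k.f1 s t * k.f3 s t) := by
        rw [← g_eq]
        unfold hform
        simp only [Finset.sum_range_succ, Finset.sum_range_zero, hg]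
        simp [Polynomial.coeff_X, Polynomial.coeff_C, Polynomial.coeff_X_pow]
        ring
      have h2 : (Fin.snoc (fun i => hform 2 ((![Polynomial.X ^ 2, Polynomial.X, 1] :
          Fin 3 → Polynomial ℂ) i) s t) w : Fin (3 + 1) → ℂ) = q4 s t w := by
        funext i
        fin_cases i
        · show hform 2 (Polynomial.X ^ 2) s t = s ^ 2
          unfold hform
          simp [Polynomial.coeff_X_pow]
        · show hform 2 Polynomial.X s t = s * t
          unfold hform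
          simp [Polynomial.coeff_X]
        · show hform 2 1 s t = t ^ 2
          unfold hform
          simp [Polynomial.coeff_one]
        · rfl
      rw [h2]
      apply k.q4_zero
      rw [← h1, ← hw']
    · refine ⟨1, 2, ?_⟩
      intro h
      have h3 := congrArg (Polynomial.eval 1) h
      simp [q4] at h3
  exact D.sab k.H4_hom (q4_ne (Or.inr one_ne_zero)) (by
    show w₀ ≠ 0
    exact hw₀)

end Coef

end Pool.Agent.H24.SG
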