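import Mathlib
import Pool.Agent.H24.SG.Quartic
import Pool.Agent.H24.SG.Poly

/-!
# The map from the quartic curve to the plane cubic
-/

set_option autoImplicit false

namespace Pool.Agent.H24.SG

open MvPolynomial Pool.Agent.H86.Refl

/-- The vector valued polynomial `U p + V a + W b`. -/
noncomputable def vp {n N : ℕ} (p a b : Fin (N + 1) → ℂ) (U V W : MvPolynomial (Fin n) ℂ) :
    Fin (N + 1) → MvPolynomial (Fin n) ℂ :=
  fun i => C (p i) * U + C (a i) * V + C (b i) * W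

lemma eval_vp {n N : ℕ} (p a b : Fin (N + 1) → ℂ) (U V W : MvPolynomial (Fin n) ℂ)
    (x : Fin n → ℂ) : (fun i => eval x (vp p a b U V W i)) =
    eval x U • p + eval x V • a + eval x W • b := by
  funext i
  simp only [vp, map_add, map_mul, eval_C, Pi.add_apply, Pi.smul_apply, smul_eq_mul]
  ring

lemma hom_C_mul {n d : ℕ} (a : ℂ) {P : MvPolynomial (Fin n) ℂ} (hP : P.IsHomogeneous d) :
    (C a * P).IsHomogeneous d := by
  have := (isHomogeneous_C (Fin n) a).mul hP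
  rwa [zero_add] at this

lemma vp_hom {n N d : ℕ} (p a b : Fin (N + 1) → ℂ) {U V W : MvPolynomial (Fin n) ℂ}
    (hU : U.IsHomogeneous d) (hV : V.IsHomogeneous d) (hW : W.IsHomogeneous d)
    (i : Fin (N + 1)) : (vp p a b U V W i).IsHomogeneous d :=
  ((hom_C_mul _ hU).add (hom_C_mul _ hV)).add (hom_C_mul _ hW)

lemma vp_minors {N : ℕ} {p a b : Fin (N + 1) → ℂ} {u v w u' v' w' : ℂ}
    (h1 : u * v' = v * u') (h2 : u * w' = w * u') (h3 : v * w' = w * v') (i j : Fin (N + 1)) :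
    (u • p + v • a + w • b) i * (u' • p + v' • a + w' • b) j =
    (u • p + v • a + w • b) j * (u' • p + v' • a + w' • b) i := by
  simp only [Pi.add_apply, Pi.smul_apply, smul_eq_mul]
  linear_combination (p i * a j - a i * p j) * h1 + (p i * b j - b i * p j) * h2 +
    (a i * b j - b i * a j) * h3

/-- Three vectors are linearly independent. -/
def Ind3 {N : ℕ} (p a b : Fin (N + 1) → ℂ) : Prop :=
  ∀ x y z : ℂ, x • p + y • a + z • b = 0 → x = 0 ∧ y = 0 ∧ z = 0

lemma Ind3.eq {N : ℕ} {p a b : Fin (N + 1) → ℂ} (h : Ind3 p a b) {x y z x' y' z' : ℂ}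
    (he : x • p + y • a + z • b = x' • p + y' • a + z' • b) : x = x' ∧ y = y' ∧ z = z' := by
  have h1 : (x - x') • p + (y - y') • a + (z - z') • b = 0 := by
    have h2 : (x • p + y • a + z • b) - (x' • p + y' • a + z' • b) = 0 := sub_eq_zero.mpr he
    rw [← h2]
    module
  obtain ⟨h3, h4, h5⟩ := h _ _ _ h1
  exact ⟨sub_eq_zero.mp h3, sub_eq_zero.mp h4, sub_eq_zero.mp h5⟩

namespace Coef

variable (k : Coef)

noncomputable def F2X : MvPolynomial (Fin (3 + 1)) ℂ :=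
  C k.d0 * X 0 + C k.d1 * X 1 + C k.d2 * X 2

noncomputable def UU : Fin 3 → MvPolynomial (Fin (3 + 1)) ℂ :=
  ![X 3 - k.F2X,
    C (2 * k.e0) * (X 0 * X 0) + C (2 * k.e1) * (X 0 * X 1) + C (2 * k.e2) * (X 0 * X 2) +
      C (2 * k.e3) * (X 1 * X 2),
    C (2 * k.e0) * (X 0 * X 1) + C (2 * k.e1) * (X 0 * X 2) + C (2 * k.e2) * (X 1 * X 2) +
      C (2 * k.e3) * (X 2 * X 2)]

noncomputable def VV : Fin 3 → MvPolynomial (Fin (3 + 1)) ℂ :=
  ![C (2 * k.c0) * X 0 + C (2 * k.c1) * X 1, -((k.F2X + X 3) * X 0), -((k.F2X + X 3) * X 1)]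

noncomputable def WW : Fin 3 → MvPolynomial (Fin (3 + 1)) ℂ :=
  ![C (2 * k.c0) * X 1 + C (2 * k.c1) * X 2, -((k.F2X + X 3) * X 1), -((k.F2X + X 3) * X 2)]

def deg3 : Fin 3 → ℕ := ![1, 2, 2]

lemma UVW_hom (i : Fin 3) : (k.UU i).IsHomogeneous (deg3 i) ∧ (k.VV i).IsHomogeneous (deg3 i) ∧
    (k.WW i).IsHomogeneous (deg3 i) := by
  have hX : ∀ i : Fin (3 + 1), (X i : MvPolynomial (Fin (3 + 1)) ℂ).IsHomogeneous 1 := fun i =>
    isHomogeneous_X ℂ i
  have hXX : ∀ i j : Fin (3 + 1),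
      (X i * X j : MvPolynomial (Fin (3 + 1)) ℂ).IsHomogeneous 2 := fun i j =>
    (hX i).mul (hX j)
  have hF : k.F2X.IsHomogeneous 1 :=
    ((hom_C_mul _ (hX 0)).add (hom_C_mul _ (hX 1))).add (hom_C_mul _ (hX 2))
  have hFX : ∀ i : Fin (3 + 1), (-((k.F2X + X 3) * X i)).IsHomogeneous 2 := fun i =>
    ((hF.add (hX 3)).mul (hX i)).neg
  fin_cases i
  · exact ⟨(hX 3).sub hF, (hom_C_mul _ (hX 0)).add (hom_C_mul _ (hX 1)),
      (hom_C_mul _ (hX 1)).add (hom_C_mul _ (hX 2))⟩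
  · exact ⟨(((hom_C_mul _ (hXX 0 0)).add (hom_C_mul _ (hXX 0 1))).add
      (hom_C_mul _ (hXX 0 2))).add (hom_C_mul _ (hXX 1 2)), hFX 0, hFX 1⟩
  · exact ⟨(((hom_C_mul _ (hXX 0 1)).add (hom_C_mul _ (hXX 0 2))).add
      (hom_C_mul _ (hXX 1 2))).add (hom_C_mul _ (hXX 2 2)), hFX 1, hFX 2⟩

/-- The values of the patches. -/
def uu (s t w : ℂ) : Fin 3 → ℂ := ![w - k.f2 s t, 2 * k.f3 s t * s, 2 * k.f3 s t * t]
def kk (s t w : ℂ) : Fin 3 → ℂ :=
  ![2 * k.f1 s t, -((k.f2 s t + w) * s), -((k.f2 s t + w) * t)]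

lemma eval_UVW (i : Fin 3) (s t w : ℂ) : eval (q4 s t w) (k.UU i) = k.uu s t w i ∧
    eval (q4 s t w) (k.VV i) = k.kk s t w i * s ∧ eval (q4 s t w) (k.WW i) = k.kk s t w i * t := by
  fin_cases i
  · refine ⟨?_, ?_, ?_⟩
    · simp [UU, F2X, q4, uu, f2]
    · simp [VV, q4, kk, f1]
      ring
    · simp [WW, q4, kk, f1]
      ring
  · refine ⟨?_, ?_, ?_⟩
    · simp [UU, q4, uu, f3]
      ring
    · simp [VV, F2X, q4, kk, f2]
      ring
    · simp [WW, F2X, q4, kk, f2]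
      ring
  · refine ⟨?_, ?_, ?_⟩
    · simp [UU, q4, uu, f3]
      ring
    · simp [VV, F2X, q4, kk, f2]
      ring
    · simp [WW, F2X, q4, kk, f2]
      ring

lemma uk_minor {s t w : ℂ} (hw : w ^ 2 = k.f2 s t ^ 2 - 4 * (k.f1 s t * k.f3 s t))
    (i j : Fin 3) : k.uu s t w i * k.kk s t w j = k.kk s t w i * k.uu s t w j := by
  fin_cases i <;> fin_cases j <;> simp [uu, kk]
  · ring
  · linear_combination (-s) * hw
  · linear_combination (-t) * hw
  · linear_combination s * hw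
  · ring
  · ring
  · linear_combination t * hw
  · ring
  · ring

lemma uk_cubic {s t w : ℂ} (hw : w ^ 2 = k.f2 s t ^ 2 - 4 * (k.f1 s t * k.f3 s t))
    (i : Fin 3) : k.uu s t w i ^ 2 * k.f1 (k.kk s t w i * s) (k.kk s t w i * t) +
      k.uu s t w i * k.f2 (k.kk s t w i * s) (k.kk s t w i * t) +
      k.f3 (k.kk s t w i * s) (k.kk s t w i * t) = 0 := by
  have h1 : ∀ κ : ℂ, k.f1 (κ * s) (κ * t) = κ * k.f1 s t := fun κ => by
    simp only [f1]
    ring
  have h2 : ∀ κ : ℂ, k.f2 (κ * s) (κ * t) = κ ^ 2 * k.f2 s t := fun κ => by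
    simp only [f2]
    ring
  have h3 : ∀ κ : ℂ, k.f3 (κ * s) (κ * t) = κ ^ 3 * k.f3 s t := fun κ => by
    simp only [f3]
    ring
  rw [h1, h2, h3]
  fin_cases i <;> simp only [uu, kk, Fin.zero_eta, Fin.isValue, Matrix.cons_val_zero,
    Fin.mk_one, Matrix.cons_val_one, Fin.reduceFinMk, Matrix.cons_val]
  · linear_combination (2 * k.f1 s t ^ 2) * hw
  · linear_combination (-((k.f2 s t + w) * s) * k.f3 s t * s ^ 2) * hw
  · linear_combination (-((k.f2 s t + w) * t) * k.f3 s t * t ^ 2) * hw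

lemma uk_zero {s t w : ℂ} (hw : w ^ 2 = k.f2 s t ^ 2 - 4 * (k.f1 s t * k.f3 s t))
    (i : Fin 3) (h0 : k.kk s t w i = 0) (hu : k.uu s t w i ≠ 0) : k.f1 s t = 0 := by
  fin_cases i
  · simpa [kk] using h0
  · simp [kk, uu] at h0 hu
    have h2 : k.f2 s t + w = 0 := by
      rcases h0 with h | h
      · exact h
      · exact absurd h hu.2
    have h3 : 4 * (k.f1 s t * k.f3 s t) = 0 := by
      linear_combination hw - (w - k.f2 s t) * h2
    have h4 : k.f1 s t * k.f3 s t = 0 := by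
      rcases mul_eq_zero.mp h3 with h | h
      · norm_num at h
      · exact h
    exact (mul_eq_zero.mp h4).resolve_right hu.1
  · simp [kk, uu] at h0 hu
    have h2 : k.f2 s t + w = 0 := by
      rcases h0 with h | h
      · exact h
      · exact absurd h hu.2
    have h3 : 4 * (k.f1 s t * k.f3 s t) = 0 := by
      linear_combination hw - (w - k.f2 s t) * h2
    have h4 : k.f1 s t * k.f3 s t = 0 := by
      rcases mul_eq_zero.mp h3 with h | h
      · norm_num at h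
      · exact h
    exact (mul_eq_zero.mp h4).resolve_right hu.1

lemma uk_cover (hno : ∀ s t : ℂ, s ≠ 0 ∨ t ≠ 0 → k.f1 s t = 0 → k.f2 s t = 0 →
      k.f3 s t ≠ 0) {s t w : ℂ} (hst : s ≠ 0 ∨ t ≠ 0)
    (hk : ∀ i, k.kk s t w i = 0) (hu : ∀ i, k.uu s t w i = 0) : False := by
  have a0 := hk 0
  have a1 := hk 1
  have a2 := hk 2
  have b0 := hu 0
  have b1 := hu 1
  have b2 := hu 2
  simp [kk, uu] at a0 a1 a2 b0 b1 b2
  have h1 : k.f2 s t + w = 0 := by
    rcases hst with h | h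
    · exact a1.resolve_right h
    · exact a2.resolve_right h
  have h2 : k.f3 s t = 0 := by
    rcases hst with h | h
    · exact b1.resolve_right h
    · exact b2.resolve_right h
  have h3 : k.f2 s t = 0 := by
    have : 2 * k.f2 s t = 0 := by linear_combination h1 - b0
    rcases mul_eq_zero.mp this with h | h
    · norm_num at h
    · exact h
  exact hno s t hst a0 h3 h2

variable {N c : ℕ} {e : Fin c → ℕ} {G : Fin c → MvPolynomial (Fin (N + 1)) ℂ}

/-- The projection of the quartic curve to the cubic. -/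
theorem proj (hG : ∀ j, (G j).IsHomogeneous (e j)) {p a b : Fin (N + 1) → ℂ}
    (hind : Ind3 p a b)
    (hY : ∀ α s t : ℂ, α ^ 2 * k.f1 s t + α * k.f2 s t + k.f3 s t = 0 →
      ∀ j, eval (α • p + s • a + t • b) (G j) = 0)
    (hc : k.c0 ≠ 0 ∨ k.c1 ≠ 0)
    (hno : ∀ s t : ℂ, s ≠ 0 ∨ t ≠ 0 → k.f1 s t = 0 → k.f2 s t = 0 → k.f3 s t ≠ 0) :
    ∃ ψ : PSpace 3 → PSpace N, PatchMap (projectiveSet k.H4) (projectiveSet G) ψ ∧
      ∀ x ∈ projectiveSet k.H4, ∀ i, ∀ h : (fun j => eval x.rep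
        (vp p a b (k.UU i) (k.VV i) (k.WW i) j)) ≠ 0, ψ x = Projectivization.mk ℂ _ h := by
  have hne_imp : ∀ {u v w : ℂ}, u • p + v • a + w • b ≠ 0 → ¬ (u = 0 ∧ v = 0 ∧ w = 0) := by
    rintro u v w h ⟨rfl, rfl, rfl⟩
    apply h
    simp
  apply exists_patchMap deg3 (fun i => vp p a b (k.UU i) (k.VV i) (k.WW i))
  · intro i
    fin_cases i <;> simp [deg3]
  · intro i j
    obtain ⟨h1, h2, h3⟩ := k.UVW_hom i
    exact vp_hom p a b h1 h2 h3 j
  · intro x hx
    obtain ⟨s, t, w, hrep, hw, hst⟩ := k.mem4 hx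
    by_contra hcon
    push Not at hcon
    have h1 : ∀ i, k.uu s t w i = 0 ∧ k.kk s t w i * s = 0 ∧ k.kk s t w i * t = 0 := by
      intro i
      have h2 : (fun j => eval x.rep (vp p a b (k.UU i) (k.VV i) (k.WW i) j)) = 0 :=
        funext fun j => hcon i j
      rw [eval_vp, hrep, (k.eval_UVW i s t w).1, (k.eval_UVW i s t w).2.1,
        (k.eval_UVW i s t w).2.2] at h2
      exact hind _ _ _ h2
    refine k.uk_cover hno hst (w := w) (fun i => ?_) fun i => (h1 i).1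
    rcases hst with h | h
    · exact (mul_eq_zero.mp (h1 i).2.1).resolve_right h
    · exact (mul_eq_zero.mp (h1 i).2.2).resolve_right h
  · intro x hx i j m n
    obtain ⟨s, t, w, hrep, hw, hst⟩ := k.mem4 hx
    have hev : ∀ (i : Fin 3) (m : Fin (N + 1)),
        eval x.rep (vp p a b (k.UU i) (k.VV i) (k.WW i) m) =
        (k.uu s t w i • p + (k.kk s t w i * s) • a + (k.kk s t w i * t) • b) m := by
      intro i m
      have h2 := congrFun (eval_vp p a b (k.UU i) (k.VV i) (k.WW i) x.rep) m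
      rw [hrep, (k.eval_UVW i s t w).1, (k.eval_UVW i s t w).2.1,
        (k.eval_UVW i s t w).2.2] at h2
      rw [hrep]
      exact h2
    rw [hev, hev, hev, hev]
    have hmin := k.uk_minor hw i j
    apply vp_minors
    · linear_combination s * hmin
    · linear_combination t * hmin
    · ring
  · intro x hx i h j
    obtain ⟨s, t, w, hrep, hw, hst⟩ := k.mem4 hx
    rw [vanishesAt_mk (hG j), eval_vp, hrep, (k.eval_UVW i s t w).1, (k.eval_UVW i s t w).2.1,
      (k.eval_UVW i s t w).2.2]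
    exact hY _ _ _ (k.uk_cubic hw i) j
  · intro y
    -- coordinates of a point with given image
    have key : ∀ x : PSpace 3, (x ∈ projectiveSet k.H4 ∧ ∃ i,
        ∃ h : (fun j => eval x.rep (vp p a b (k.UU i) (k.VV i) (k.WW i) j)) ≠ 0,
        Projectivization.mk ℂ _ h = y) → ∃ (s t w : ℂ) (i : Fin 3) (μ : ℂ), x.rep = q4 s t w ∧ (s ≠ 0 ∨ t ≠ 0) ∧
        w ^ 2 = k.f2 s t ^ 2 - 4 * (k.f1 s t * k.f3 s t) ∧ μ ≠ 0 ∧
        μ • y.rep = k.uu s t w i • p + (k.kk s t w i * s) • a + (k.kk s t w i * t) • b := by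
      rintro x ⟨hx, i, h, hxy⟩
      obtain ⟨s, t, w, hrep, hw, hst⟩ := k.mem4 hx
      have h1 := eval_vp p a b (k.UU i) (k.VV i) (k.WW i) x.rep
      rw [hrep, (k.eval_UVW i s t w).1, (k.eval_UVW i s t w).2.1,
        (k.eval_UVW i s t w).2.2, ← hrep] at h1
      rw [← y.mk_rep, Projectivization.mk_eq_mk_iff'] at hxy
      obtain ⟨μ, hμ⟩ := hxy
      rw [h1] at hμ
      refine ⟨s, t, w, i, μ, hrep, hst, hw, ?_, hμ⟩
      rintro rfl
      apply h
      rw [h1, ← hμ, zero_smul]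
    by_cases hp : ∃ m : ℂ, y.rep = m • p
    · obtain ⟨m, hm⟩ := hp
      have hc' : k.c1 ≠ 0 ∨ -k.c0 ≠ 0 := by
        rcases hc with h | h
        · exact Or.inr (neg_ne_zero.mpr h)
        · exact Or.inl h
      refine (k.fin4 hc').subset ?_
      rintro x hx
      obtain ⟨s, t, w, i, μ, hrep, hst, hw, hμ, he⟩ := key x hx
      refine ⟨hx.1, s, t, w, hrep, hst, ?_⟩
      have h2 : (μ * m) • p + (0 : ℂ) • a + (0 : ℂ) • b =
          k.uu s t w i • p + (k.kk s t w i * s) • a + (k.kk s t w i * t) • b := by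
        rw [← he, hm]
        module
      obtain ⟨h3, h4, h5⟩ := hind.eq h2
      have h6 : k.kk s t w i = 0 := by
        rcases hst with h | h
        · exact (mul_eq_zero.mp h4.symm).resolve_right h
        · exact (mul_eq_zero.mp h5.symm).resolve_right h
      have h7 : k.uu s t w i ≠ 0 := by
        intro h0
        rw [h0, h6] at he
        simp only [zero_mul, zero_smul, add_zero] at he
        exact y.rep_nonzero ((smul_eq_zero.mp he).resolve_left hμ)
      have h8 := k.uk_zero hw i h6 h7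
      simp only [f1] at h8
      linear_combination h8
    · by_cases hne : ∃ x : PSpace 3, (x ∈ projectiveSet k.H4 ∧ ∃ i,
          ∃ h : (fun j => eval x.rep (vp p a b (k.UU i) (k.VV i) (k.WW i) j)) ≠ 0,
          Projectivization.mk ℂ _ h = y)
      · obtain ⟨x₀, hx₀⟩ := hne
        obtain ⟨s₀, t₀, w₀, i₀, μ₀, -, hst₀, -, hμ₀, he₀⟩ := key x₀ hx₀
        have hκ₀ : k.kk s₀ t₀ w₀ i₀ ≠ 0 := by
          intro h0
          apply hp
          rw [h0] at he₀
          refine ⟨μ₀⁻¹ * k.uu s₀ t₀ w₀ i₀, ?_⟩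
          simp only [zero_mul, zero_smul, add_zero] at he₀
          rw [mul_smul, ← he₀, smul_smul, inv_mul_cancel₀ hμ₀, one_smul]
        refine (k.fin4 hst₀).subset ?_
        rintro x hx
        obtain ⟨s, t, w, i, μ, hrep, hst, hw, hμ, he⟩ := key x hx
        refine ⟨hx.1, s, t, w, hrep, hst, ?_⟩
        have hκ : k.kk s t w i ≠ 0 := by
          intro h0
          apply hp
          rw [h0] at he
          refine ⟨μ⁻¹ * k.uu s t w i, ?_⟩
          simp only [zero_mul, zero_smul, add_zero] at he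
          rw [mul_smul, ← he, smul_smul, inv_mul_cancel₀ hμ, one_smul]
        have h2 : (μ₀ * k.uu s t w i) • p + (μ₀ * (k.kk s t w i * s)) • a +
            (μ₀ * (k.kk s t w i * t)) • b =
            (μ * k.uu s₀ t₀ w₀ i₀) • p + (μ * (k.kk s₀ t₀ w₀ i₀ * s₀)) • a +
            (μ * (k.kk s₀ t₀ w₀ i₀ * t₀)) • b := by
          have h3 : μ₀ • (μ • y.rep) = μ • (μ₀ • y.rep) := smul_comm _ _ _
          rw [he, he₀] at h3
          calc _ = μ₀ • (k.uu s t w i • p + (k.kk s t w i * s) • a +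
                (k.kk s t w i * t) • b) := by module
            _ = _ := h3
            _ = _ := by module
        obtain ⟨-, h4, h5⟩ := hind.eq h2
        have h6 : μ * k.kk s₀ t₀ w₀ i₀ * (μ₀ * k.kk s t w i) * (s₀ * t - t₀ * s) = 0 := by
          linear_combination (-(μ * k.kk s₀ t₀ w₀ i₀ * t₀)) * h4 +
            μ * k.kk s₀ t₀ w₀ i₀ * s₀ * h5
        have h7 := (mul_eq_zero.mp h6).resolve_left
          (mul_ne_zero (mul_ne_zero hμ hκ₀) (mul_ne_zero hμ₀ hκ))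
        exact sub_eq_zero.mp h7
      · refine Set.finite_empty.subset ?_
        intro x hx
        exact hne ⟨x, hx⟩

/-- The points of the cubic that are projections of unramified points of the quartic curve. -/
theorem proj_sab (hG : ∀ j, (G j).IsHomogeneous (e j)) {p a b : Fin (N + 1) → ℂ}
    (hind : Ind3 p a b)
    (hY : ∀ α s t : ℂ, α ^ 2 * k.f1 s t + α * k.f2 s t + k.f3 s t = 0 →
      ∀ j, eval (α • p + s • a + t • b) (G j) = 0)
    (hc : k.c0 ≠ 0 ∨ k.c1 ≠ 0)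
    (hno : ∀ s t : ℂ, s ≠ 0 ∨ t ≠ 0 → k.f1 s t = 0 → k.f2 s t = 0 → k.f3 s t ≠ 0)
    {w₀ : ℂ} (hw₀ : w₀ ≠ 0) (hw : w₀ ^ 2 = k.d2 ^ 2 - 4 * (k.c1 * k.e3)) :
    (∀ P : Fin (N + 1) → ℂ, ∀ hP : P ≠ 0, P = (w₀ - k.d2) • p + (2 * k.c1) • b →
      Projectivization.mk ℂ P hP ∈ gmPoints (projectiveSet G) ∪ ellipticPoints (projectiveSet G)) ∧
    (∀ P : Fin (N + 1) → ℂ, ∀ hP : P ≠ 0, P = (2 * k.e3) • p + (-(k.d2 + w₀)) • b →
      Projectivization.mk ℂ P hP ∈
        gmPoints (projectiveSet G) ∪ ellipticPoints (projectiveSet G)) := by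
  obtain ⟨ψ, hψ, hψe⟩ := k.proj hG hind hY hc hno
  have hsab := hψ.sab (k.sab4 hw₀ hw)
  have hmem : Projectivization.mk ℂ (q4 0 1 w₀) (q4_ne (Or.inr one_ne_zero)) ∈
      projectiveSet k.H4 := by
    intro j
    rw [vanishesAt_mk (k.H4_hom j)]
    apply k.q4_zero
    rw [hw]
    simp only [f1, f2, f3]
    ring
  have hval : ∀ i, ∀ h : (fun j => eval (q4 0 1 w₀) (vp p a b (k.UU i) (k.VV i) (k.WW i) j)) ≠ 0,
      ψ (Projectivization.mk ℂ (q4 0 1 w₀) (q4_ne (Or.inr one_ne_zero))) =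
      Projectivization.mk ℂ _ h := fun i h =>
    patch_mk (fun j => by
      obtain ⟨h1, h2, h3⟩ := k.UVW_hom i
      exact vp_hom p a b h1 h2 h3 j) (fun y hy h => hψe y hy i h) _ hmem h
  constructor
  · rintro P hP rfl
    have h1 : (fun j => eval (q4 0 1 w₀) (vp p a b (k.UU 0) (k.VV 0) (k.WW 0) j)) =
        (w₀ - k.d2) • p + (2 * k.c1) • b := by
      rw [eval_vp, (k.eval_UVW 0 0 1 w₀).1, (k.eval_UVW 0 0 1 w₀).2.1, (k.eval_UVW 0 0 1 w₀).2.2]
      simp [uu, kk, f1, f2]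
    have h2 := hval 0 (by rw [h1]; exact hP)
    rw [h2] at hsab
    simpa only [h1] using hsab
  · rintro P hP rfl
    have h1 : (fun j => eval (q4 0 1 w₀) (vp p a b (k.UU 2) (k.VV 2) (k.WW 2) j)) =
        (2 * k.e3) • p + (-(k.d2 + w₀)) • b := by
      rw [eval_vp, (k.eval_UVW 2 0 1 w₀).1, (k.eval_UVW 2 0 1 w₀).2.1, (k.eval_UVW 2 0 1 w₀).2.2]
      simp [uu, kk, f2, f3]
    have h2 := hval 2 (by rw [h1]; exact hP)
    rw [h2] at hsab
    simpa only [h1] using hsab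

end Coef

end Pool.Agent.H24.SG
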