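import Mathlib
import Pool.Agent.H24.SG.Proj

/-!
# Every point of a plane cubic lies on a curve of genus at most one
-/

set_option autoImplicit false

namespace Pool.Agent.H24.SG

open MvPolynomial Pool.Agent.H86.Refl

/-- A binary quadratic form has a zero. -/
lemma quad_root (d0 d1 d2 : ℂ) : ∃ s t : ℂ, (s ≠ 0 ∨ t ≠ 0) ∧
    d0 * s ^ 2 + d1 * (s * t) + d2 * t ^ 2 = 0 := by
  by_cases h : d0 = 0
  · refine ⟨1, 0, Or.inl one_ne_zero, ?_⟩
    rw [h]
    ring
  · obtain ⟨r, hr⟩ := IsAlgClosed.exists_pow_nat_eq (d1 ^ 2 - 4 * (d0 * d2)) (n := 2)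
      (by norm_num)
    refine ⟨(-d1 + r) / (2 * d0), 1, Or.inr one_ne_zero, ?_⟩
    field_simp
    linear_combination hr

/-- A binary cubic form has a zero. -/
lemma cubic_root (e0 e1 e2 e3 : ℂ) : ∃ s t : ℂ, (s ≠ 0 ∨ t ≠ 0) ∧
    e0 * s ^ 3 + e1 * (s ^ 2 * t) + e2 * (s * t ^ 2) + e3 * t ^ 3 = 0 := by
  by_cases h : e0 = 0
  · refine ⟨1, 0, Or.inl one_ne_zero, ?_⟩
    rw [h]
    ring
  · set q : Polynomial ℂ := Polynomial.C e0 * Polynomial.X ^ 3 + Polynomial.C e1 *
      Polynomial.X ^ 2 + Polynomial.C e2 * Polynomial.X + Polynomial.C e3 with hq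
    have hdeg : q.degree = 3 := by
      rw [hq]
      exact Polynomial.degree_cubic h
    obtain ⟨s, hs⟩ := IsAlgClosed.exists_root q (by rw [hdeg]; norm_num)
    refine ⟨s, 1, Or.inr one_ne_zero, ?_⟩
    have h1 : q.eval s = 0 := hs
    rw [hq] at h1
    simp at h1
    linear_combination h1

namespace Coef

variable (k : Coef)

/-- Linear substitution in the two variables. -/
def subst (x y z w : ℂ) : Coef where
  c0 := k.c0 * x + k.c1 * z
  c1 := k.c0 * y + k.c1 * w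
  d0 := k.d0 * x ^ 2 + k.d1 * (x * z) + k.d2 * z ^ 2
  d1 := 2 * k.d0 * x * y + k.d1 * (x * w + y * z) + 2 * k.d2 * z * w
  d2 := k.d0 * y ^ 2 + k.d1 * (y * w) + k.d2 * w ^ 2
  e0 := k.e0 * x ^ 3 + k.e1 * (x ^ 2 * z) + k.e2 * (x * z ^ 2) + k.e3 * z ^ 3
  e1 := 3 * k.e0 * x ^ 2 * y + k.e1 * (x ^ 2 * w + 2 * x * y * z) +
    k.e2 * (2 * x * z * w + y * z ^ 2) + 3 * k.e3 * z ^ 2 * w
  e2 := 3 * k.e0 * x * y ^ 2 + k.e1 * (2 * x * y * w + y ^ 2 * z) +
    k.e2 * (x * w ^ 2 + 2 * y * z * w) + 3 * k.e3 * z * w ^ 2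
  e3 := k.e0 * y ^ 3 + k.e1 * (y ^ 2 * w) + k.e2 * (y * w ^ 2) + k.e3 * w ^ 3

lemma subst_f1 (x y z w s t : ℂ) :
    (k.subst x y z w).f1 s t = k.f1 (x * s + y * t) (z * s + w * t) := by
  simp only [f1, subst]
  ring

lemma subst_f2 (x y z w s t : ℂ) :
    (k.subst x y z w).f2 s t = k.f2 (x * s + y * t) (z * s + w * t) := by
  simp only [f2, subst]
  ring

lemma subst_f3 (x y z w s t : ℂ) :
    (k.subst x y z w).f3 s t = k.f3 (x * s + y * t) (z * s + w * t) := by
  simp only [f3, subst]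
  ring

variable {N c : ℕ} {e : Fin c → ℕ} {G : Fin c → MvPolynomial (Fin (N + 1)) ℂ}

/-- Lines through the point. -/
lemma point_line (hG : ∀ j, (G j).IsHomogeneous (e j)) {p a b : Fin (N + 1) → ℂ}
    (hind : Ind3 p a b)
    (hY : ∀ α s t : ℂ, α ^ 2 * k.f1 s t + α * k.f2 s t + k.f3 s t = 0 →
      ∀ j, eval (α • p + s • a + t • b) (G j) = 0) (hp : p ≠ 0) {s t : ℂ}
    (hst : s ≠ 0 ∨ t ≠ 0) (h1 : k.f1 s t = 0) (h2 : k.f2 s t = 0) (h3 : k.f3 s t = 0) :
    Projectivization.mk ℂ p hp ∈ gmPoints (projectiveSet G) := by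
  apply gm_of_line hG hp (V := s • a + t • b)
  · intro x hx
    have h4 : (-x) • p + s • a + t • b = 0 := by
      have h5 : (s • a + t • b) - x • p = 0 := sub_eq_zero.mpr hx
      rw [← h5]
      module
    obtain ⟨-, h5, h6⟩ := hind _ _ _ h4
    rcases hst with h | h
    · exact h h5
    · exact h h6
  · intro z j
    have h4 := hY 1 (z * s) (z * t) (by
      have e1 : k.f1 (z * s) (z * t) = z * k.f1 s t := by simp only [f1]; ring
      have e2 : k.f2 (z * s) (z * t) = z ^ 2 * k.f2 s t := by simp only [f2]; ring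
      have e3 : k.f3 (z * s) (z * t) = z ^ 3 * k.f3 s t := by simp only [f3]; ring
      rw [e1, e2, e3, h1, h2, h3]
      ring) j
    have h5 : (1 : ℂ) • p + (z * s) • a + (z * t) • b = p + z • (s • a + t • b) := by
      module
    rwa [h5] at h4

/-- Singular points. -/
lemma point_singular (hG : ∀ j, (G j).IsHomogeneous (e j)) {p a b : Fin (N + 1) → ℂ}
    (hind : Ind3 p a b)
    (hY : ∀ α s t : ℂ, α ^ 2 * k.f1 s t + α * k.f2 s t + k.f3 s t = 0 →
      ∀ j, eval (α • p + s • a + t • b) (G j) = 0) (hp : p ≠ 0)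
    (hno : ∀ s t : ℂ, s ≠ 0 ∨ t ≠ 0 → k.f1 s t = 0 → k.f2 s t = 0 → k.f3 s t ≠ 0)
    (hc0 : k.c0 = 0) (hc1 : k.c1 = 0) :
    Projectivization.mk ℂ p hp ∈ gmPoints (projectiveSet G) := by
  have hf1 : ∀ s t, k.f1 s t = 0 := fun s t => by simp only [f1, hc0, hc1]; ring
  obtain ⟨s₀, t₀, hst₀, h0⟩ := quad_root k.d0 k.d1 k.d2
  have h3 : k.f3 s₀ t₀ ≠ 0 := hno s₀ t₀ hst₀ (hf1 _ _) h0
  obtain ⟨s₁, t₁, h1⟩ : ∃ s t, k.f2 s t ≠ 0 := by
    by_contra hcon
    push Not at hcon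
    obtain ⟨s, t, hst, hr⟩ := cubic_root k.e0 k.e1 k.e2 k.e3
    exact hno s t hst (hf1 _ _) (hcon _ _) hr
  set S : Polynomial ℂ := Polynomial.C s₀ + Polynomial.X * Polynomial.C (s₁ - s₀) with hS
  set T : Polynomial ℂ := Polynomial.C t₀ + Polynomial.X * Polynomial.C (t₁ - t₀) with hT
  set F2 : Polynomial ℂ := Polynomial.C k.d0 * S ^ 2 + Polynomial.C k.d1 * (S * T) +
    Polynomial.C k.d2 * T ^ 2 with hF2
  set F3 : Polynomial ℂ := Polynomial.C k.e0 * S ^ 3 + Polynomial.C k.e1 * (S ^ 2 * T) +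
    Polynomial.C k.e2 * (S * T ^ 2) + Polynomial.C k.e3 * T ^ 3 with hF3
  have hF2e : ∀ z, F2.eval z = k.f2 (S.eval z) (T.eval z) := by
    intro z
    simp only [hF2, f2, Polynomial.eval_add, Polynomial.eval_mul, Polynomial.eval_C,
      Polynomial.eval_pow]
  have hF3e : ∀ z, F3.eval z = k.f3 (S.eval z) (T.eval z) := by
    intro z
    simp only [hF3, f3, Polynomial.eval_add, Polynomial.eval_mul, Polynomial.eval_C,
      Polynomial.eval_pow]
  have hS0 : S.eval 0 = s₀ := by simp [hS]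
  have hT0 : T.eval 0 = t₀ := by simp [hT]
  have hS1 : S.eval 1 = s₁ := by simp [hS]
  have hT1 : T.eval 1 = t₁ := by simp [hT]
  refine gm_of_coords hG hind (-F3) (F2 * S) (F2 * T) ?_ 0 hp (-k.f3 s₀ t₀) 1 0 0
    (neg_ne_zero.mpr h3) (by module) ?_ ?_ ?_ 1 ?_
  · intro z j
    apply hY
    rw [Polynomial.eval_neg, Polynomial.eval_mul, Polynomial.eval_mul, hF2e, hF3e, hf1]
    have e2 : ∀ κ s t : ℂ, k.f2 (κ * s) (κ * t) = κ ^ 2 * k.f2 s t := fun κ s t => by
      simp only [f2]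
      ring
    have e3 : ∀ κ s t : ℂ, k.f3 (κ * s) (κ * t) = κ ^ 3 * k.f3 s t := fun κ s t => by
      simp only [f3]
      ring
    rw [e2, e3]
    ring
  · rw [Polynomial.eval_neg, hF3e, hS0, hT0]
    ring
  · have h0' : k.f2 s₀ t₀ = 0 := h0
    rw [Polynomial.eval_mul, hF2e, hS0, hT0, h0']
    ring
  · have h0' : k.f2 s₀ t₀ = 0 := h0
    rw [Polynomial.eval_mul, hF2e, hS0, hT0, h0']
    ring
  · rintro ⟨h4, h5, -⟩
    rw [Polynomial.eval_mul, hF2e, hS1, hT1, mul_zero, mul_one] at h4 h5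
    have h6 : s₁ = 0 := (mul_eq_zero.mp h4.symm).resolve_left h1
    have h7 : t₁ = 0 := (mul_eq_zero.mp h5.symm).resolve_left h1
    apply h1
    rw [h6, h7]
    simp [f2]

/-- Smooth points, in adapted coordinates. -/
lemma point_smooth (hG : ∀ j, (G j).IsHomogeneous (e j)) {p a b : Fin (N + 1) → ℂ}
    (hind : Ind3 p a b)
    (hY : ∀ α s t : ℂ, α ^ 2 * k.f1 s t + α * k.f2 s t + k.f3 s t = 0 →
      ∀ j, eval (α • p + s • a + t • b) (G j) = 0) (hp : p ≠ 0)
    (hno : ∀ s t : ℂ, s ≠ 0 ∨ t ≠ 0 → k.f1 s t = 0 → k.f2 s t = 0 → k.f3 s t ≠ 0)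
    (hc0 : k.c0 ≠ 0) (hc1 : k.c1 = 0) :
    Projectivization.mk ℂ p hp ∈
      gmPoints (projectiveSet G) ∪ ellipticPoints (projectiveSet G) := by
  by_cases hd2 : k.d2 = 0
  · -- a flex
    have he3 : k.e3 ≠ 0 := by
      have h1 := hno 0 1 (Or.inr one_ne_zero) (by simp [f1, hc1]) (by simp [f2, hd2])
      simpa [f3] using h1
    obtain ⟨r, hr⟩ := IsAlgClosed.exists_pow_nat_eq (k.d0 ^ 2 - 4 * (k.c0 * k.e0)) (n := 2)
      (by norm_num)
    obtain ⟨α₀, hα₀⟩ : ∃ α₀ : ℂ, k.c0 * α₀ ^ 2 + k.d0 * α₀ + k.e0 = 0 := by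
      refine ⟨(-k.d0 + r) / (2 * k.c0), ?_⟩
      field_simp
      linear_combination hr
    set p₀ := α₀ • p + a with hp₀
    have hind' : Ind3 p₀ b p := by
      intro x y z h
      have h1 : (x * α₀ + z) • p + x • a + y • b = 0 := by
        rw [← h, hp₀]
        module
      obtain ⟨h2, h3, h4⟩ := hind _ _ _ h1
      refine ⟨h3, h4, ?_⟩
      rw [h3] at h2
      linear_combination h2
    set k' : Coef := ⟨α₀ * k.d1 + k.e1, 2 * k.c0 * α₀ + k.d0, k.e2, k.d1, k.c0, k.e3, 0, 0, 0⟩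
      with hk'
    have hY' : ∀ α s t : ℂ, α ^ 2 * k'.f1 s t + α * k'.f2 s t + k'.f3 s t = 0 →
        ∀ j, eval (α • p₀ + s • b + t • p) (G j) = 0 := by
      intro β s t h j
      have h1 := hY (β * α₀ + t) β s (by
        have h2 : β ^ 2 * k'.f1 s t + β * k'.f2 s t + k'.f3 s t = 0 := h
        simp only [hk', f1, f2, f3] at h2 ⊢
        rw [hc1, hd2]
        linear_combination h2 + β ^ 3 * hα₀) j
      have h3 : (β * α₀ + t) • p + β • a + s • b = β • p₀ + s • b + t • p := by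
        rw [hp₀]
        module
      rwa [h3] at h1
    have hno' : ∀ s t : ℂ, s ≠ 0 ∨ t ≠ 0 → k'.f1 s t = 0 → k'.f2 s t = 0 → k'.f3 s t ≠ 0 := by
      intro s t hst _ h2 h3
      simp only [hk', f2, f3] at h2 h3
      have hs : s = 0 := by
        have h4 : k.e3 * s ^ 3 = 0 := by linear_combination h3
        exact pow_eq_zero_iff three_ne_zero |>.mp ((mul_eq_zero.mp h4).resolve_left he3)
      have ht : t ≠ 0 := by
        rcases hst with h | h
        · exact absurd hs h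
        · exact h
      rw [hs] at h2
      have h4 : k.c0 * t ^ 2 = 0 := by linear_combination h2
      exact ht (pow_eq_zero_iff two_ne_zero |>.mp ((mul_eq_zero.mp h4).resolve_left hc0))
    by_cases hc' : k'.c0 = 0 ∧ k'.c1 = 0
    · -- `p₀` is a singular point
      left
      have hf1 : ∀ s t, k'.f1 s t = 0 := fun s t => by
        simp only [f1, hc'.1, hc'.2]
        ring
      set F2 : Polynomial ℂ := Polynomial.C k.e2 * Polynomial.X ^ 2 + Polynomial.C k.d1 *
        Polynomial.X + Polynomial.C k.c0 with hF2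
      set F3 : Polynomial ℂ := Polynomial.C k.e3 * Polynomial.X ^ 3 with hF3
      refine gm_of_coords hG hind' (-F3) (F2 * Polynomial.X) F2 ?_ 0 hp k.c0 0 0 1 hc0
        (by module) ?_ ?_ ?_ 1 ?_
      · intro z j
        apply hY'
        rw [hf1]
        simp only [hk', hF2, hF3, f2, f3, Polynomial.eval_add, Polynomial.eval_mul,
          Polynomial.eval_C, Polynomial.eval_pow, Polynomial.eval_X, Polynomial.eval_neg]
        ring
      · simp [hF3]
      · simp
      · simp [hF2]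
      · rintro ⟨-, h5, -⟩
        simp [hF3] at h5
        exact he3 h5
    · have hc'' : k'.c0 ≠ 0 ∨ k'.c1 ≠ 0 := by
        by_contra hcon
        push Not at hcon
        exact hc' hcon
      obtain ⟨-, h2⟩ := k'.proj_sab hG hind' hY' hc'' hno' (w₀ := k.c0) hc0 (by
        simp only [hk']
        ring)
      have h3 : (2 * k'.e3) • p₀ + (-(k'.d2 + k.c0)) • p = (-(2 * k.c0)) • p := by
        simp only [hk']
        module
      have h4 : (-(2 * k.c0)) ≠ 0 := neg_ne_zero.mpr (mul_ne_zero two_ne_zero hc0)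
      have h5 := h2 _ (smul_ne_zero h4 hp) h3.symm
      rwa [mk_eq_of_smul (smul_ne_zero h4 hp) hp _ rfl] at h5
  · obtain ⟨h1, -⟩ := k.proj_sab hG hind hY (Or.inl hc0) hno (w₀ := -k.d2)
      (neg_ne_zero.mpr hd2) (by rw [hc1]; ring)
    have h4 : (-(2 * k.d2)) ≠ 0 := neg_ne_zero.mpr (mul_ne_zero two_ne_zero hd2)
    have h3 : (-k.d2 - k.d2) • p + (2 * k.c1) • b = (-(2 * k.d2)) • p := by
      rw [hc1]
      module
    have h5 := h1 _ (smul_ne_zero h4 hp) h3.symm
    rwa [mk_eq_of_smul (smul_ne_zero h4 hp) hp _ rfl] at h5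

/-- Every point of a plane cubic lies on the image of a curve of genus at most one. -/
theorem point (hG : ∀ j, (G j).IsHomogeneous (e j)) {p a b : Fin (N + 1) → ℂ}
    (hind : Ind3 p a b)
    (hY : ∀ α s t : ℂ, α ^ 2 * k.f1 s t + α * k.f2 s t + k.f3 s t = 0 →
      ∀ j, eval (α • p + s • a + t • b) (G j) = 0) (hp : p ≠ 0) :
    Projectivization.mk ℂ p hp ∈
      gmPoints (projectiveSet G) ∪ ellipticPoints (projectiveSet G) := by
  by_cases hno : ∀ s t : ℂ, s ≠ 0 ∨ t ≠ 0 → k.f1 s t = 0 → k.f2 s t = 0 → k.f3 s t ≠ 0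
  swap
  · push Not at hno
    obtain ⟨s, t, hst, h1, h2, h3⟩ := hno
    exact Or.inl (k.point_line hG hind hY hp hst h1 h2 h3)
  -- change of the basis `a, b`
  have hsub : ∀ x y z w : ℂ, x * w - y * z ≠ 0 →
      Ind3 p (x • a + z • b) (y • a + w • b) ∧
      (∀ α s t : ℂ, α ^ 2 * (k.subst x y z w).f1 s t + α * (k.subst x y z w).f2 s t +
        (k.subst x y z w).f3 s t = 0 →
        ∀ j, eval (α • p + s • (x • a + z • b) + t • (y • a + w • b)) (G j) = 0) ∧
      ∀ s t : ℂ, s ≠ 0 ∨ t ≠ 0 → (k.subst x y z w).f1 s t = 0 →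
        (k.subst x y z w).f2 s t = 0 → (k.subst x y z w).f3 s t ≠ 0 := by
    intro x y z w hdet
    have hne : ∀ s t : ℂ, x * s + y * t = 0 → z * s + w * t = 0 → s = 0 ∧ t = 0 := by
      intro s t h1 h2
      have h5 : (x * w - y * z) * s = 0 := by linear_combination w * h1 - y * h2
      have h6 : (x * w - y * z) * t = 0 := by linear_combination x * h2 - z * h1
      exact ⟨(mul_eq_zero.mp h5).resolve_left hdet, (mul_eq_zero.mp h6).resolve_left hdet⟩
    refine ⟨?_, ?_, ?_⟩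
    · intro u s t h
      have h1 : u • p + (x * s + y * t) • a + (z * s + w * t) • b = 0 := by
        rw [← h]
        module
      obtain ⟨h2, h3, h4⟩ := hind _ _ _ h1
      exact ⟨h2, hne s t h3 h4⟩
    · intro α s t h j
      rw [subst_f1, subst_f2, subst_f3] at h
      have h1 := hY α _ _ h j
      have h2 : α • p + (x * s + y * t) • a + (z * s + w * t) • b =
          α • p + s • (x • a + z • b) + t • (y • a + w • b) := by
        module
      rwa [h2] at h1
    · intro s t hst h1 h2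
      rw [subst_f1] at h1
      rw [subst_f2] at h2
      rw [subst_f3]
      refine hno _ _ ?_ h1 h2
      by_contra hcon
      push Not at hcon
      obtain ⟨h3, h4⟩ := hne s t hcon.1 hcon.2
      rcases hst with h | h
      · exact h h3
      · exact h h4
  by_cases hc0 : k.c0 = 0
  · by_cases hc1 : k.c1 = 0
    · exact Or.inl (k.point_singular hG hind hY hp hno hc0 hc1)
    · -- the tangent direction is `a`
      obtain ⟨h1, h2, h3⟩ := hsub 0 1 1 0 (by norm_num)
      refine (k.subst 0 1 1 0).point_smooth hG h1 h2 hp h3 ?_ ?_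
      · simp only [subst]
        simpa using hc1
      · simp only [subst]
        simp [hc0]
  · obtain ⟨h1, h2, h3⟩ := hsub 1 k.c1 0 (-k.c0) (by simpa using hc0)
    refine (k.subst 1 k.c1 0 (-k.c0)).point_smooth hG h1 h2 hp h3 ?_ ?_
    · simp only [subst]
      simpa using hc0
    · simp only [subst]
      ring

end Coef

end Pool.Agent.H24.SG
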