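import Mathlib
import Pool.Agent.H24.SG.Quartic

/-!
# Expansion of forms of degree at most three
-/

set_option autoImplicit false

namespace Pool.Agent.H24.SG

open MvPolynomial Finset

variable {n : ℕ}

lemma card_of_hom {d : ℕ} {G : MvPolynomial (Fin n) ℂ} (hG : G.IsHomogeneous d)
    {m : Fin n →₀ ℕ} (hm : m ∈ G.support) : (Finsupp.toMultiset m).card = d := by
  rw [Finsupp.card_toMultiset]
  have h1 := hG (mem_support_iff.mp hm)
  rw [← h1, Finsupp.weight_apply]
  refine Finsupp.sum_congr fun i _ => ?_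
  simp

lemma eval_monomial_multiset (x : Fin n → ℂ) (m : Fin n →₀ ℕ) (c : ℂ) :
    eval x (monomial m c) = c * ((Finsupp.toMultiset m).map x).prod := by
  rw [eval_monomial, Finsupp.toMultiset_map, Finsupp.prod_toMultiset,
    Finsupp.prod_mapDomain_index (fun _ => pow_zero _) (fun _ _ _ => pow_add _ _ _)]

lemma exists_lin {G : MvPolynomial (Fin n) ℂ} (hG : G.IsHomogeneous 1) :
    ∃ l : Fin n → ℂ, ∀ x, eval x G = ∑ i, l i * x i := by
  classical
  rw [G.as_sum]
  refine Finset.sum_induction _ (fun G => ∃ l : Fin n → ℂ, ∀ x, eval x G = ∑ i, l i * x i)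
    ?_ ⟨0, fun x => by simp⟩ ?_
  · rintro a b ⟨l, hl⟩ ⟨l', hl'⟩
    refine ⟨l + l', fun x => ?_⟩
    rw [map_add, hl, hl', ← sum_add_distrib]
    exact sum_congr rfl fun i _ => by rw [Pi.add_apply]; ring
  · intro m hm
    obtain ⟨i, hi⟩ := Multiset.card_eq_one.mp (card_of_hom hG hm)
    refine ⟨fun i' => if i' = i then coeff m G else 0, fun x => ?_⟩
    rw [eval_monomial_multiset, hi]
    simp

lemma exists_quad {G : MvPolynomial (Fin n) ℂ} (hG : G.IsHomogeneous 2) :
    ∃ b : Fin n → Fin n → ℂ, ∀ x, eval x G = ∑ i, ∑ j, b i j * (x i * x j) := by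
  classical
  rw [G.as_sum]
  refine Finset.sum_induction _
    (fun G => ∃ b : Fin n → Fin n → ℂ, ∀ x, eval x G = ∑ i, ∑ j, b i j * (x i * x j))
    ?_ ⟨0, fun x => by simp⟩ ?_
  · rintro a b ⟨l, hl⟩ ⟨l', hl'⟩
    refine ⟨l + l', fun x => ?_⟩
    rw [map_add, hl, hl', ← sum_add_distrib]
    refine sum_congr rfl fun i _ => ?_
    rw [← sum_add_distrib]
    exact sum_congr rfl fun j _ => by rw [Pi.add_apply, Pi.add_apply]; ring
  · intro m hm
    obtain ⟨i, j, hi⟩ := Multiset.card_eq_two.mp (card_of_hom hG hm)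
    refine ⟨fun i' j' => if i' = i then if j' = j then coeff m G else 0 else 0, fun x => ?_⟩
    rw [eval_monomial_multiset, hi]
    simp [ite_mul, Finset.sum_ite_eq']

lemma exists_cub {G : MvPolynomial (Fin n) ℂ} (hG : G.IsHomogeneous 3) :
    ∃ b : Fin n → Fin n → Fin n → ℂ, ∀ x, eval x G =
      ∑ i, ∑ j, ∑ k, b i j k * (x i * x j * x k) := by
  classical
  rw [G.as_sum]
  refine Finset.sum_induction _
    (fun G => ∃ b : Fin n → Fin n → Fin n → ℂ, ∀ x, eval x G =
      ∑ i, ∑ j, ∑ k, b i j k * (x i * x j * x k))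
    ?_ ⟨0, fun x => by simp⟩ ?_
  · rintro a b ⟨l, hl⟩ ⟨l', hl'⟩
    refine ⟨l + l', fun x => ?_⟩
    rw [map_add, hl, hl', ← sum_add_distrib]
    refine sum_congr rfl fun i _ => ?_
    rw [← sum_add_distrib]
    refine sum_congr rfl fun j _ => ?_
    rw [← sum_add_distrib]
    exact sum_congr rfl fun k _ => by rw [Pi.add_apply, Pi.add_apply, Pi.add_apply]; ring
  · intro m hm
    obtain ⟨i, j, k, hi⟩ := Multiset.card_eq_three.mp (card_of_hom hG hm)
    refine ⟨fun i' j' k' => if i' = i then if j' = j then if k' = k then coeff m G else 0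
      else 0 else 0, fun x => ?_⟩
    rw [eval_monomial_multiset, hi]
    simp [ite_mul, Finset.sum_ite_eq', mul_assoc]

/-- Restriction of a cubic form to a three-dimensional space. -/
lemma exists_coef {G : MvPolynomial (Fin n) ℂ} (hG : G.IsHomogeneous 3) {p : Fin n → ℂ}
    (hp : eval p G = 0) (a b : Fin n → ℂ) :
    ∃ k : Coef, ∀ α s t : ℂ, eval (α • p + s • a + t • b) G =
      α ^ 2 * k.f1 s t + α * k.f2 s t + k.f3 s t := by
  obtain ⟨c, hc⟩ := exists_cub hG
  refine ⟨⟨∑ i, ∑ j, ∑ k, c i j k * (a i * p j * p k + p i * a j * p k + p i * p j * a k),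
    ∑ i, ∑ j, ∑ k, c i j k * (b i * p j * p k + p i * b j * p k + p i * p j * b k),
    ∑ i, ∑ j, ∑ k, c i j k * (a i * a j * p k + a i * p j * a k + p i * a j * a k),
    ∑ i, ∑ j, ∑ k, c i j k * (a i * b j * p k + a i * p j * b k + p i * a j * b k +
      b i * a j * p k + b i * p j * a k + p i * b j * a k),
    ∑ i, ∑ j, ∑ k, c i j k * (b i * b j * p k + b i * p j * b k + p i * b j * b k),
    ∑ i, ∑ j, ∑ k, c i j k * (a i * a j * a k),
    ∑ i, ∑ j, ∑ k, c i j k * (a i * a j * b k + a i * b j * a k + b i * a j * a k),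
    ∑ i, ∑ j, ∑ k, c i j k * (a i * b j * b k + b i * a j * b k + b i * b j * a k),
    ∑ i, ∑ j, ∑ k, c i j k * (b i * b j * b k)⟩, fun α s t => ?_⟩
  have h0 : α ^ 3 * ∑ i, ∑ j, ∑ k, c i j k * (p i * p j * p k) = 0 := by
    rw [← hc, hp, mul_zero]
  rw [hc]
  refine Eq.trans ?_ (add_zero _)
  rw [← h0]
  simp only [Coef.f1, Coef.f2, Coef.f3, Finset.mul_sum, Finset.sum_mul,
    ← Finset.sum_add_distrib]
  refine sum_congr rfl fun i _ => sum_congr rfl fun j _ => sum_congr rfl fun k _ => ?_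
  simp only [Pi.add_apply, Pi.smul_apply, smul_eq_mul]
  ring

/-- Coefficients of a quadratic form in a plane. -/
lemma exists_quad_coef {G : MvPolynomial (Fin n) ℂ} (hG : G.IsHomogeneous 2) {p : Fin n → ℂ}
    (hp : eval p G = 0) (a b : Fin n → ℂ) :
    ∃ m₀ m₁ q₀ q₁ q₂ : ℂ, ∀ α s t : ℂ, eval (α • p + s • a + t • b) G =
      α * (m₀ * s + m₁ * t) + (q₀ * s ^ 2 + q₁ * (s * t) + q₂ * t ^ 2) := by
  obtain ⟨c, hc⟩ := exists_quad hG
  refine ⟨∑ i, ∑ j, c i j * (a i * p j + p i * a j), ∑ i, ∑ j, c i j * (b i * p j + p i * b j),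
    ∑ i, ∑ j, c i j * (a i * a j), ∑ i, ∑ j, c i j * (a i * b j + b i * a j),
    ∑ i, ∑ j, c i j * (b i * b j), fun α s t => ?_⟩
  have h0 : α ^ 2 * ∑ i, ∑ j, c i j * (p i * p j) = 0 := by
    rw [← hc, hp, mul_zero]
  rw [hc]
  refine Eq.trans ?_ (add_zero _)
  rw [← h0]
  simp only [Finset.mul_sum, Finset.sum_mul, ← Finset.sum_add_distrib]
  refine sum_congr rfl fun i _ => sum_congr rfl fun j _ => ?_
  simp only [Pi.add_apply, Pi.smul_apply, smul_eq_mul]
  ring

lemma eval_aeval_gen {σ τ : Type*} (A : σ → MvPolynomial τ ℂ) (v : τ → ℂ)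
    (P : MvPolynomial σ ℂ) : eval v (aeval A P) = eval (fun j => eval v (A j)) P := by
  have h1 : (eval v).comp (algebraMap ℂ (MvPolynomial τ ℂ)) = RingHom.id ℂ := by
    ext x
    simp
  rw [aeval_def, MvPolynomial.hom_eval₂, h1]
  rfl

/-- The linear forms of a linear map. -/
noncomputable def linForms {m : ℕ} (w : (Fin m → ℂ) →ₗ[ℂ] (Fin n → ℂ)) (i : Fin n) :
    MvPolynomial (Fin m) ℂ := ∑ k, C (w (Pi.single k 1) i) * X k

lemma linForms_hom {m : ℕ} (w : (Fin m → ℂ) →ₗ[ℂ] (Fin n → ℂ)) (i : Fin n) :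
    (linForms w i).IsHomogeneous 1 := by
  refine IsHomogeneous.sum _ _ _ fun k _ => ?_
  have := (isHomogeneous_C (Fin m) (w (Pi.single k 1) i)).mul (isHomogeneous_X ℂ k)
  rwa [zero_add] at this

lemma eval_linForms {m : ℕ} (w : (Fin m → ℂ) →ₗ[ℂ] (Fin n → ℂ)) (i : Fin n) (v : Fin m → ℂ) :
    eval v (linForms w i) = w v i := by
  have h1 : v = ∑ k, v k • (Pi.single k 1 : Fin m → ℂ) := by
    funext j
    simp [Finset.sum_apply, Pi.single_apply]
  conv_rhs => rw [h1]
  simp [linForms, map_sum, Finset.sum_apply, mul_comm]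

/-- Restriction of a quadratic form to a linear space through a zero. -/
lemma exists_restrict {m : ℕ} {Q : MvPolynomial (Fin n) ℂ} (hQ : Q.IsHomogeneous 2)
    {p : Fin n → ℂ} (hp : eval p Q = 0) (w : (Fin m → ℂ) →ₗ[ℂ] (Fin n → ℂ)) :
    ∃ l q : MvPolynomial (Fin m) ℂ, l.IsHomogeneous 1 ∧ q.IsHomogeneous 2 ∧
      ∀ (α : ℂ) (v : Fin m → ℂ), eval (α • p + w v) Q = α * eval v l + eval v q := by
  obtain ⟨c, hc⟩ := exists_quad hQ
  refine ⟨∑ i, ∑ j, C (c i j) * (C (p j) * linForms w i + C (p i) * linForms w j),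
    aeval (linForms w) Q, ?_, ?_, fun α v => ?_⟩
  · have hCm : ∀ (x : ℂ) {P : MvPolynomial (Fin m) ℂ}, P.IsHomogeneous 1 →
        (C x * P).IsHomogeneous 1 := by
      intro x P hP
      have := (isHomogeneous_C (Fin m) x).mul hP
      rwa [zero_add] at this
    refine IsHomogeneous.sum _ _ _ fun i _ => ?_
    refine IsHomogeneous.sum _ _ _ fun j _ => ?_
    apply hCm
    apply IsHomogeneous.add
    · exact hCm _ (linForms_hom w i)
    · exact hCm _ (linForms_hom w j)
  · have h2 := hQ.aeval (linForms w) (fun i => linForms_hom w i)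
    rwa [one_mul] at h2
  · rw [eval_aeval_gen]
    have h1 : (fun j => eval v (linForms w j)) = w v := by
      funext j
      rw [eval_linForms]
    rw [h1, hc (w v), hc]
    simp only [map_sum, map_mul, map_add, eval_C, eval_linForms]
    have h0 : α ^ 2 * ∑ i, ∑ j, c i j * (p i * p j) = 0 := by
      rw [← hc, hp, mul_zero]
    refine Eq.trans ?_ (add_zero _)
    rw [← h0]
    simp only [Finset.mul_sum, ← Finset.sum_add_distrib]
    refine sum_congr rfl fun i _ => sum_congr rfl fun j _ => ?_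
    simp only [Pi.add_apply, Pi.smul_apply, smul_eq_mul]
    ring

end Pool.Agent.H24.SG
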