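import Mathlib
import Pool.Agent.H24.SG.Cubic
import Pool.Agent.H24.SG.Expand
import Pool.Agent.H42.GGL.Core

/-!
# Entire curves in lines and in planes
-/

set_option autoImplicit false

namespace Pool.Agent.H24.SG

open MvPolynomial Pool.Agent.H86.Refl

open Pool.Agent.H42.GGL (exists_common_ne entire_mul_eq_zero)

/-- A polynomial which vanishes on the quotient of two independent entire functions is zero. -/
lemma poly_zero_of_ratio {s t : ℂ → ℂ} (hs : Differentiable ℂ s) (ht : Differentiable ℂ t)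
    (hrel : ∀ x y : ℂ, (∀ z, x * s z + y * t z = 0) → x = 0 ∧ y = 0) (u : Polynomial ℂ)
    (hu : ∀ z, t z ≠ 0 → u.eval (s z / t z) = 0) : u = 0 := by
  classical
  by_contra hne
  obtain ⟨z, hz⟩ := exists_common_ne (insert none (u.roots.toFinset.image some))
    (fun o : Option ℂ => o.elim t (fun r z => s z - r * t z))
    (by
      rintro (_ | r)
      · exact ht
      · exact hs.sub (ht.const_mul r))
    (by
      rintro (_ | r)
      · by_contra hcon
        push Not at hcon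
        have h1 : ∀ z, t z = 0 := fun z => hcon z
        exact one_ne_zero (hrel 0 1 fun z => by rw [h1 z]; ring).2
      · by_contra hcon
        push Not at hcon
        have h1 : ∀ z, s z - r * t z = 0 := fun z => hcon z
        exact one_ne_zero (hrel 1 (-r) fun z => by linear_combination h1 z).1)
  have h1 : t z ≠ 0 := hz none (Finset.mem_insert_self _ _)
  have h2 : s z / t z ∈ u.roots.toFinset := by
    rw [Multiset.mem_toFinset, Polynomial.mem_roots hne]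
    exact hu z h1
  have h3 : s z - s z / t z * t z ≠ 0 :=
    hz (some (s z / t z)) (Finset.mem_insert_of_mem (Finset.mem_image_of_mem _ h2))
  apply h3
  field_simp
  ring

/-- Coordinates with respect to independent vectors. -/
lemma exists_coords {m n : ℕ} {Φ : ℂ → Fin n → ℂ}
    (hΦ : ∀ q, Differentiable ℂ (fun z => Φ z q)) (T : (Fin m → ℂ) →ₗ[ℂ] (Fin n → ℂ))
    (hT : Function.Injective T) (h : ∀ z, ∃ v, T v = Φ z) :
    ∃ σ : (Fin n → ℂ) →ₗ[ℂ] (Fin m → ℂ), (∀ v, σ (T v) = v) ∧ (∀ z, T (σ (Φ z)) = Φ z) ∧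
      ∀ k, Differentiable ℂ (fun z => σ (Φ z) k) := by
  obtain ⟨σ, hσ⟩ := LinearMap.exists_leftInverse_of_injective T (LinearMap.ker_eq_bot.mpr hT)
  have hσ' : ∀ v, σ (T v) = v := fun v => by
    rw [← LinearMap.comp_apply, hσ, LinearMap.id_apply]
  refine ⟨σ, hσ', fun z => ?_, fun k => ?_⟩
  · obtain ⟨v, hv⟩ := h z
    rw [← hv, hσ']
  · have h1 : (fun z => σ (Φ z) k) = fun z => ∑ i, Φ z i * σ (Pi.single i 1) k := by
      funext z
      have h2 : Φ z = ∑ i, Φ z i • (Pi.single i 1 : Fin n → ℂ) := by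
        funext j
        simp [Finset.sum_apply, Pi.single_apply]
      conv_lhs => rw [h2]
      simp [map_sum, Finset.sum_apply]
    rw [h1]
    exact Differentiable.fun_sum fun i _ => (hΦ i).mul_const _

/-- The linear map with given values on the standard basis of `ℂ²`. -/
def comb2 {n : ℕ} (p a : Fin n → ℂ) : (Fin 2 → ℂ) →ₗ[ℂ] (Fin n → ℂ) where
  toFun v := v 0 • p + v 1 • a
  map_add' v w := by simp only [Pi.add_apply]; module
  map_smul' x v := by simp only [Pi.smul_apply, smul_eq_mul, RingHom.id_apply]; module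

/-- The linear map with given values on the standard basis of `ℂ³`. -/
def comb3 {n : ℕ} (p a b : Fin n → ℂ) : (Fin 3 → ℂ) →ₗ[ℂ] (Fin n → ℂ) where
  toFun v := v 0 • p + v 1 • a + v 2 • b
  map_add' v w := by simp only [Pi.add_apply]; module
  map_smul' x v := by simp only [Pi.smul_apply, smul_eq_mul, RingHom.id_apply]; module

lemma comb3_inj {N : ℕ} {p a b : Fin (N + 1) → ℂ} (h : Ind3 p a b) :
    Function.Injective (comb3 p a b) := by
  intro v w hvw
  obtain ⟨h1, h2, h3⟩ := h.eq (show v 0 • p + v 1 • a + v 2 • b =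
    w 0 • p + w 1 • a + w 2 • b from hvw)
  funext i
  fin_cases i
  · exact h1
  · exact h2
  · exact h3

lemma ind2 {n : ℕ} {p a : Fin n → ℂ} (hp : p ≠ 0) (ha : ∀ x : ℂ, a ≠ x • p) {x y : ℂ}
    (h : x • p + y • a = 0) : x = 0 ∧ y = 0 := by
  have hy : y = 0 := by
    by_contra hy
    apply ha (-(y⁻¹ * x))
    have h1 : y • a = -(x • p) := by
      rw [eq_neg_iff_add_eq_zero, ← h]
      exact add_comm _ _
    have h2 : a = y⁻¹ • (y • a) := by rw [smul_smul, inv_mul_cancel₀ hy, one_smul]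
    rw [h2, h1]
    module
  rw [hy, zero_smul, add_zero] at h
  exact ⟨(smul_eq_zero.mp h).resolve_right hp, hy⟩

lemma comb2_inj {n : ℕ} {p a : Fin n → ℂ} (hp : p ≠ 0) (ha : ∀ x : ℂ, a ≠ x • p) :
    Function.Injective (comb2 p a) := by
  intro v w hvw
  have h0 : v 0 • p + v 1 • a = w 0 • p + w 1 • a := hvw
  have h1 : (v 0 - w 0) • p + (v 1 - w 1) • a = 0 := by
    have h2 := sub_eq_zero.mpr h0
    rw [← h2]
    module
  obtain ⟨h3, h4⟩ := ind2 hp ha h1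
  funext i
  fin_cases i
  · exact sub_eq_zero.mp h3
  · exact sub_eq_zero.mp h4

variable {N c : ℕ} {e : Fin c → ℕ} {G : Fin c → MvPolynomial (Fin (N + 1)) ℂ}

/-- Entire curves in a line. -/
lemma line_case (hG : ∀ j, (G j).IsHomogeneous (e j)) {Φ : ℂ → Fin (N + 1) → ℂ}
    (hΦ : ∀ q, Differentiable ℂ (fun z => Φ z q)) (h0 : ∀ z j, eval (Φ z) (G j) = 0)
    {z₀ z₁ : ℂ} (hp : Φ z₀ ≠ 0) (ha : ∀ x : ℂ, Φ z₁ ≠ x • Φ z₀)
    (hspan : ∀ z, ∃ x y : ℂ, Φ z = x • Φ z₀ + y • Φ z₁) :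
    Projectivization.mk ℂ (Φ z₀) hp ∈ gmPoints (projectiveSet G) := by
  obtain ⟨σ, hσ, hσΦ, hσd⟩ := exists_coords hΦ (comb2 (Φ z₀) (Φ z₁)) (comb2_inj hp ha)
    (fun z => by
      obtain ⟨x, y, h⟩ := hspan z
      exact ⟨![x, y], by rw [h]; rfl⟩)
  have e0 : σ (Φ z₀) = ![1, 0] := by
    rw [← hσ ![1, 0]]
    congr 1
    show Φ z₀ = (1 : ℂ) • Φ z₀ + (0 : ℂ) • Φ z₁
    module
  have e1 : σ (Φ z₁) = ![0, 1] := by
    rw [← hσ ![0, 1]]
    congr 1
    show Φ z₁ = (0 : ℂ) • Φ z₀ + (1 : ℂ) • Φ z₁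
    module
  have hz : ∀ (r : ℂ) (j : Fin c), eval (r • Φ z₀ + Φ z₁) (G j) = 0 := by
    intro r j
    set A : Fin (N + 1) → Polynomial ℂ := fun i =>
      Polynomial.X * Polynomial.C (Φ z₀ i) + Polynomial.C (Φ z₁ i) with hA
    have hAe : ∀ r : ℂ, (fun i => (A i).eval r) = r • Φ z₀ + Φ z₁ := by
      intro r
      funext i
      simp only [hA, Polynomial.eval_add, Polynomial.eval_mul, Polynomial.eval_C,
        Polynomial.eval_X, Pi.add_apply, Pi.smul_apply, smul_eq_mul]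
    have h1 : aeval A (G j) = 0 := by
      refine poly_zero_of_ratio (hσd 0) (hσd 1) ?_ _ ?_
      · intro x y hxy
        have h2 := hxy z₀
        have h3 := hxy z₁
        rw [e0] at h2
        rw [e1] at h3
        simp at h2 h3
        exact ⟨h2, h3⟩
      · intro z hz
        rw [eval_aeval_poly, hAe]
        have h4 : Φ z = σ (Φ z) 1 • ((σ (Φ z) 0 / σ (Φ z) 1) • Φ z₀ + Φ z₁) := by
          have h5 : Φ z = σ (Φ z) 0 • Φ z₀ + σ (Φ z) 1 • Φ z₁ := (hσΦ z).symm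
          conv_lhs => rw [h5]
          rw [smul_add, smul_smul]
          congr 2
          field_simp
        have h6 := h0 z j
        rw [h4, eval_smul_homogeneous (hG j)] at h6
        exact (mul_eq_zero.mp h6).resolve_left (pow_ne_zero _ hz)
    rw [← hAe, ← eval_aeval_poly, h1, Polynomial.eval_zero]
  apply gm_of_line hG hp ha
  intro s j
  by_cases hs : s = 0
  · rw [hs, zero_smul, add_zero]
    exact h0 z₀ j
  · have h1 : Φ z₀ + s • Φ z₁ = s • (s⁻¹ • Φ z₀ + Φ z₁) := by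
      rw [smul_add, smul_smul, mul_inv_cancel₀ hs, one_smul]
    rw [h1, eval_smul_homogeneous (hG j), hz, mul_zero]

/-- Lines in a plane through the point. -/
lemma plane_line (hG : ∀ j, (G j).IsHomogeneous (e j)) {p a b : Fin (N + 1) → ℂ}
    (hind : Ind3 p a b) (hp : p ≠ 0) {s t : ℂ} (hst : s ≠ 0 ∨ t ≠ 0)
    (h : ∀ z j, eval ((1 : ℂ) • p + (z * s) • a + (z * t) • b) (G j) = 0) :
    Projectivization.mk ℂ p hp ∈ gmPoints (projectiveSet G) := by
  apply gm_of_line hG hp (V := s • a + t • b)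
  · intro x hx
    have h4 : (-x) • p + s • a + t • b = 0 := by
      have h5 : (s • a + t • b) - x • p = 0 := sub_eq_zero.mpr hx
      rw [← h5]
      module
    obtain ⟨-, h5, h6⟩ := hind _ _ _ h4
    rcases hst with h | h
    · exact h h5
    · exact h h6
  · intro z j
    have h5 : (1 : ℂ) • p + (z * s) • a + (z * t) • b = p + z • (s • a + t • b) := by
      module
    rw [← h5]
    exact h z j

/-- The rational curve cut out by one or two conics. -/
lemma plane_param (hG : ∀ j, (G j).IsHomogeneous (e j)) {p a b : Fin (N + 1) → ℂ}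
    (hind : Ind3 p a b) (hp : p ≠ 0) {m₀ m₁ q₀ q₁ q₂ n₀ n₁ r₀ r₁ r₂ : ℂ}
    (hY : ∀ α s t : ℂ, α * (m₀ * s + m₁ * t) + (q₀ * s ^ 2 + q₁ * (s * t) + q₂ * t ^ 2) = 0 →
      α * (n₀ * s + n₁ * t) + (r₀ * s ^ 2 + r₁ * (s * t) + r₂ * t ^ 2) = 0 →
      ∀ j, eval (α • p + s • a + t • b) (G j) = 0)
    (hR : ∀ s t : ℂ, (m₀ * s + m₁ * t) * (r₀ * s ^ 2 + r₁ * (s * t) + r₂ * t ^ 2) =
      (n₀ * s + n₁ * t) * (q₀ * s ^ 2 + q₁ * (s * t) + q₂ * t ^ 2))
    (hm : m₀ ≠ 0 ∨ m₁ ≠ 0) (hq : q₀ * m₁ ^ 2 - q₁ * (m₁ * m₀) + q₂ * m₀ ^ 2 ≠ 0) :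
    Projectivization.mk ℂ p hp ∈ gmPoints (projectiveSet G) := by
  obtain ⟨x, y, hxy⟩ : ∃ x y : ℂ, m₀ * x + m₁ * y = 1 := by
    by_cases h : m₀ = 0
    · refine ⟨0, 1 / m₁, ?_⟩
      have h1 : m₁ ≠ 0 := hm.resolve_left (not_not.mpr h)
      field_simp
      ring
    · refine ⟨1 / m₀, 0, ?_⟩
      field_simp
      ring
  set S : Polynomial ℂ := Polynomial.C m₁ + Polynomial.X * Polynomial.C x with hS
  set T : Polynomial ℂ := Polynomial.C (-m₀) + Polynomial.X * Polynomial.C y with hT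
  have hSe : ∀ z, S.eval z = m₁ + z * x := fun z => by
    simp only [hS, Polynomial.eval_add, Polynomial.eval_mul, Polynomial.eval_C,
      Polynomial.eval_X]
  have hTe : ∀ z, T.eval z = -m₀ + z * y := fun z => by
    simp only [hT, Polynomial.eval_add, Polynomial.eval_mul, Polynomial.eval_C,
      Polynomial.eval_X]
  refine gm_of_coords hG hind
    (-(Polynomial.C q₀ * S ^ 2 + Polynomial.C q₁ * (S * T) + Polynomial.C q₂ * T ^ 2))
    (Polynomial.X * S) (Polynomial.X * T) ?_ 0 hp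
    (-(q₀ * m₁ ^ 2 - q₁ * (m₁ * m₀) + q₂ * m₀ ^ 2)) 1 0 0 (neg_ne_zero.mpr hq)
    (by module) ?_ ?_ ?_ 1 ?_
  · intro z j
    simp only [Polynomial.eval_neg, Polynomial.eval_add, Polynomial.eval_mul,
      Polynomial.eval_pow, Polynomial.eval_C, Polynomial.eval_X]
    have hM : m₀ * S.eval z + m₁ * T.eval z = z := by
      rw [hSe, hTe]
      linear_combination z * hxy
    apply hY
    · linear_combination -z * (q₀ * S.eval z ^ 2 + q₁ * (S.eval z * T.eval z) +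
        q₂ * T.eval z ^ 2) * hM
    · have h2 := hR (S.eval z) (T.eval z)
      rw [hM] at h2
      linear_combination z * h2
  · simp only [Polynomial.eval_neg, Polynomial.eval_add, Polynomial.eval_mul,
      Polynomial.eval_pow, Polynomial.eval_C, hSe, hTe]
    ring
  · simp
  · simp
  · rintro ⟨h1, h2, -⟩
    simp only [Polynomial.eval_mul, Polynomial.eval_X, hSe, hTe] at h1 h2
    have h3 : x = -m₁ := by linear_combination -h1
    have h4 : y = m₀ := by linear_combination -h2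
    rw [h3, h4] at hxy
    apply one_ne_zero (α := ℂ)
    linear_combination -hxy

/-- Points of plane conics. -/
lemma conic_point (hG : ∀ j, (G j).IsHomogeneous (e j)) {p a b : Fin (N + 1) → ℂ}
    (hind : Ind3 p a b) (hp : p ≠ 0) {m₀ m₁ q₀ q₁ q₂ : ℂ}
    (hY : ∀ α s t : ℂ, α * (m₀ * s + m₁ * t) + (q₀ * s ^ 2 + q₁ * (s * t) + q₂ * t ^ 2) = 0 →
      ∀ j, eval (α • p + s • a + t • b) (G j) = 0) :
    Projectivization.mk ℂ p hp ∈ gmPoints (projectiveSet G) := by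
  by_cases hline : ∃ s t : ℂ, (s ≠ 0 ∨ t ≠ 0) ∧ m₀ * s + m₁ * t = 0 ∧
      q₀ * s ^ 2 + q₁ * (s * t) + q₂ * t ^ 2 = 0
  · obtain ⟨s, t, hst, h1, h2⟩ := hline
    refine plane_line hG hind hp hst fun z j => hY _ _ _ ?_ j
    linear_combination z * h1 + z ^ 2 * h2
  have hm : m₀ ≠ 0 ∨ m₁ ≠ 0 := by
    by_contra hcon
    push Not at hcon
    obtain ⟨s, t, hst, h⟩ := quad_root q₀ q₁ q₂
    exact hline ⟨s, t, hst, by rw [hcon.1, hcon.2]; ring, h⟩
  refine plane_param hG hind hp (n₀ := 0) (n₁ := 0) (r₀ := 0) (r₁ := 0) (r₂ := 0)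
    (fun α s t h _ => hY α s t h) (fun s t => by ring) hm ?_
  intro h
  apply hline
  refine ⟨m₁, -m₀, ?_, by ring, by linear_combination h⟩
  rcases hm with h1 | h1
  · exact Or.inr (neg_ne_zero.mpr h1)
  · exact Or.inl h1

/-- Factorisation of a binary quadratic form with a given zero. -/
lemma quad_factor {m₀ m₁ q₀ q₁ q₂ : ℂ} (hm : m₀ ≠ 0 ∨ m₁ ≠ 0)
    (hq : q₀ * m₁ ^ 2 - q₁ * (m₁ * m₀) + q₂ * m₀ ^ 2 = 0) :
    ∃ x y : ℂ, ∀ s t : ℂ, q₀ * s ^ 2 + q₁ * (s * t) + q₂ * t ^ 2 =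
      (m₀ * s + m₁ * t) * (x * s + y * t) := by
  by_cases h : m₀ = 0
  · have h1 : m₁ ≠ 0 := hm.resolve_left (not_not.mpr h)
    have h2 : q₀ = 0 := by
      have h3 : q₀ * m₁ ^ 2 = 0 := by
        rw [h] at hq
        linear_combination hq
      exact (mul_eq_zero.mp h3).resolve_right (pow_ne_zero _ h1)
    refine ⟨q₁ / m₁, q₂ / m₁, fun s t => ?_⟩
    rw [h, h2]
    field_simp
    ring
  · refine ⟨q₀ / m₀, (q₁ * m₀ - m₁ * q₀) / m₀ ^ 2, fun s t => ?_⟩
    field_simp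
    linear_combination t ^ 2 * hq

/-- Two conics with an entire curve which is not contained in a line: auxiliary form. -/
lemma plane_aux (hG : ∀ j, (G j).IsHomogeneous (e j)) {p a b : Fin (N + 1) → ℂ}
    (hind : Ind3 p a b) (hp : p ≠ 0) {m₀ m₁ q₀ q₁ q₂ n₀ n₁ r₀ r₁ r₂ : ℂ}
    (hY : ∀ α s t : ℂ, α * (m₀ * s + m₁ * t) + (q₀ * s ^ 2 + q₁ * (s * t) + q₂ * t ^ 2) = 0 →
      α * (n₀ * s + n₁ * t) + (r₀ * s ^ 2 + r₁ * (s * t) + r₂ * t ^ 2) = 0 →
      ∀ j, eval (α • p + s • a + t • b) (G j) = 0)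
    {α s t : ℂ → ℂ} (hα : Differentiable ℂ α) (hs : Differentiable ℂ s)
    (ht : Differentiable ℂ t)
    (hrel : ∀ x y : ℂ, (∀ z, x * s z + y * t z = 0) → x = 0 ∧ y = 0)
    {z₀ : ℂ} (hα0 : α z₀ ≠ 0) (hs0 : s z₀ = 0) (ht0 : t z₀ = 0)
    (h1 : ∀ z, α z * (m₀ * s z + m₁ * t z) +
      (q₀ * s z ^ 2 + q₁ * (s z * t z) + q₂ * t z ^ 2) = 0)
    (hR : ∀ s t : ℂ, (m₀ * s + m₁ * t) * (r₀ * s ^ 2 + r₁ * (s * t) + r₂ * t ^ 2) =
      (n₀ * s + n₁ * t) * (q₀ * s ^ 2 + q₁ * (s * t) + q₂ * t ^ 2))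
    (hm : m₀ ≠ 0 ∨ m₁ ≠ 0) :
    Projectivization.mk ℂ p hp ∈ gmPoints (projectiveSet G) := by
  refine plane_param hG hind hp hY hR hm ?_
  intro hq
  obtain ⟨x, y, hxy⟩ := quad_factor hm hq
  have h2 : ∀ z, (m₀ * s z + m₁ * t z) * (α z + (x * s z + y * t z)) = 0 := by
    intro z
    have h3 := h1 z
    rw [hxy] at h3
    linear_combination h3
  rcases entire_mul_eq_zero ((hs.const_mul m₀).add (ht.const_mul m₁))
    (hα.add ((hs.const_mul x).add (ht.const_mul y))) h2 with h3 | h3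
  · obtain ⟨h4, h5⟩ := hrel m₀ m₁ h3
    rcases hm with h | h
    · exact h h4
    · exact h h5
  · have h4 := h3 z₀
    simp only [Pi.add_apply, hs0, ht0, mul_zero, add_zero] at h4
    exact hα0 h4

/-- Two conics with an entire curve which is not contained in a line. -/
lemma plane_case (hG : ∀ j, (G j).IsHomogeneous (e j)) {p a b : Fin (N + 1) → ℂ}
    (hind : Ind3 p a b) (hp : p ≠ 0) {m₀ m₁ q₀ q₁ q₂ n₀ n₁ r₀ r₁ r₂ : ℂ}
    (hY : ∀ α s t : ℂ, α * (m₀ * s + m₁ * t) + (q₀ * s ^ 2 + q₁ * (s * t) + q₂ * t ^ 2) = 0 →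
      α * (n₀ * s + n₁ * t) + (r₀ * s ^ 2 + r₁ * (s * t) + r₂ * t ^ 2) = 0 →
      ∀ j, eval (α • p + s • a + t • b) (G j) = 0)
    {α s t : ℂ → ℂ} (hα : Differentiable ℂ α) (hs : Differentiable ℂ s)
    (ht : Differentiable ℂ t)
    (hrel : ∀ x y : ℂ, (∀ z, x * s z + y * t z = 0) → x = 0 ∧ y = 0)
    {z₀ : ℂ} (hα0 : α z₀ ≠ 0) (hs0 : s z₀ = 0) (ht0 : t z₀ = 0)
    (h1 : ∀ z, α z * (m₀ * s z + m₁ * t z) +
      (q₀ * s z ^ 2 + q₁ * (s z * t z) + q₂ * t z ^ 2) = 0)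
    (h2 : ∀ z, α z * (n₀ * s z + n₁ * t z) +
      (r₀ * s z ^ 2 + r₁ * (s z * t z) + r₂ * t z ^ 2) = 0) :
    Projectivization.mk ℂ p hp ∈ gmPoints (projectiveSet G) := by
  -- the binary cubic form vanishes identically
  set u : Polynomial ℂ :=
    (Polynomial.C m₀ * Polynomial.X + Polynomial.C m₁) * (Polynomial.C r₀ * Polynomial.X ^ 2 +
      Polynomial.C r₁ * Polynomial.X + Polynomial.C r₂) -
    (Polynomial.C n₀ * Polynomial.X + Polynomial.C n₁) * (Polynomial.C q₀ * Polynomial.X ^ 2 +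
      Polynomial.C q₁ * Polynomial.X + Polynomial.C q₂) with hu
  have hue : ∀ x, u.eval x = (m₀ * x + m₁) * (r₀ * x ^ 2 + r₁ * x + r₂) -
      (n₀ * x + n₁) * (q₀ * x ^ 2 + q₁ * x + q₂) := by
    intro x
    simp [hu]
  have hu0 : u = 0 := by
    refine poly_zero_of_ratio hs ht hrel u fun z hz => ?_
    rw [hue]
    have h3 := h1 z
    have h4 := h2 z
    have h5 : (m₀ * s z + m₁ * t z) * (r₀ * s z ^ 2 + r₁ * (s z * t z) + r₂ * t z ^ 2) =
        (n₀ * s z + n₁ * t z) * (q₀ * s z ^ 2 + q₁ * (s z * t z) + q₂ * t z ^ 2) := by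
      linear_combination (m₀ * s z + m₁ * t z) * h4 - (n₀ * s z + n₁ * t z) * h3
    field_simp
    linear_combination h5
  have huz : ∀ x, (m₀ * x + m₁) * (r₀ * x ^ 2 + r₁ * x + r₂) -
      (n₀ * x + n₁) * (q₀ * x ^ 2 + q₁ * x + q₂) = 0 := by
    intro x
    rw [← hue, hu0, Polynomial.eval_zero]
  have k0 := huz 0
  have k1 := huz 1
  have k2 := huz (-1)
  have k3 := huz 2
  have hR : ∀ s t : ℂ, (m₀ * s + m₁ * t) * (r₀ * s ^ 2 + r₁ * (s * t) + r₂ * t ^ 2) =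
      (n₀ * s + n₁ * t) * (q₀ * s ^ 2 + q₁ * (s * t) + q₂ * t ^ 2) := by
    intro s t
    have c0 : m₁ * r₂ - n₁ * q₂ = 0 := by linear_combination k0
    have c2 : (m₀ * r₁ + m₁ * r₀) - (n₀ * q₁ + n₁ * q₀) = 0 := by
      linear_combination (1 / 2) * k1 + (1 / 2) * k2 - k0
    have c3 : m₀ * r₀ - n₀ * q₀ = 0 := by
      linear_combination (1 / 6) * k3 - (1 / 2) * k1 - (1 / 6) * k2 + (1 / 2) * k0
    have c1 : (m₀ * r₂ + m₁ * r₁) - (n₀ * q₂ + n₁ * q₁) = 0 := by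
      linear_combination (1 / 2) * k1 - (1 / 2) * k2 - ((1 / 6) * k3 - (1 / 2) * k1 -
        (1 / 6) * k2 + (1 / 2) * k0)
    linear_combination t ^ 3 * c0 + s * t ^ 2 * c1 + s ^ 2 * t * c2 + s ^ 3 * c3
  by_cases hm : m₀ ≠ 0 ∨ m₁ ≠ 0
  · exact plane_aux hG hind hp hY hα hs ht hrel hα0 hs0 ht0 h1 hR hm
  by_cases hn : n₀ ≠ 0 ∨ n₁ ≠ 0
  · exact plane_aux hG hind hp (fun α s t h h' => hY α s t h' h) hα hs ht hrel hα0 hs0 ht0 h2
      (fun s t => (hR s t).symm) hn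
  push Not at hm hn
  -- both conics are singular at the point
  obtain ⟨z, hz⟩ : ∃ z, s z ≠ 0 ∨ t z ≠ 0 := by
    by_contra hcon
    push Not at hcon
    exact one_ne_zero (hrel 1 1 fun z => by rw [(hcon z).1, (hcon z).2]; ring).1
  have h3 := h1 z
  have h4 := h2 z
  rw [hm.1, hm.2] at h3
  rw [hn.1, hn.2] at h4
  refine plane_line hG hind hp hz fun w j => hY _ _ _ ?_ ?_ j
  · rw [hm.1, hm.2]
    linear_combination w ^ 2 * h3
  · rw [hn.1, hn.2]
    linear_combination w ^ 2 * h4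

end Pool.Agent.H24.SG
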