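import Mathlib
import Pool.Agent.H24.SG.Plane
import Pool.Agent.H24.SG.Transport
import Pool.Agent.H6.CommonZero

/-!
# Points of intersections of two quadrics in a three-dimensional projective space
-/

set_option autoImplicit false

namespace Pool.Agent.H24.SG

open MvPolynomial Pool.Agent.H86.Refl

/-! ### Linear algebra in `ℂ³` -/

lemma exists_second (v : Fin (2 + 1) → ℂ) (hv : v ≠ 0) :
    ∃ v₁ : Fin (2 + 1) → ℂ, ∀ x : ℂ, v₁ ≠ x • v := by
  obtain ⟨i, hi⟩ : ∃ i, v i ≠ 0 := by
    by_contra hcon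
    push Not at hcon
    exact hv (funext hcon)
  have hij : i + 1 ≠ i := by
    fin_cases i <;> decide
  refine ⟨Pi.single (i + 1) 1, fun x hx => ?_⟩
  have h1 := congrFun hx i
  rw [Pi.single_eq_of_ne hij.symm] at h1
  simp only [Pi.smul_apply, smul_eq_mul] at h1
  have h2 : x = 0 := (mul_eq_zero.mp h1.symm).resolve_right hi
  rw [h2, zero_smul] at hx
  have h3 := congrFun hx (i + 1)
  rw [Pi.single_eq_same] at h3
  exact one_ne_zero h3

lemma exists_third {v v₁ : Fin (2 + 1) → ℂ} (hv : v ≠ 0) (h1 : ∀ x : ℂ, v₁ ≠ x • v) :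
    ∃ u, Ind3 v v₁ u := by
  by_contra hcon
  push Not at hcon
  have hsurj : Function.Surjective (comb2 v v₁) := by
    intro u
    have h2 := hcon u
    unfold Ind3 at h2
    push Not at h2
    obtain ⟨x, y, z, h3, h4⟩ := h2
    have hz : z ≠ 0 := by
      rintro rfl
      rw [zero_smul, add_zero] at h3
      obtain ⟨h5, h6⟩ := ind2 hv h1 h3
      exact h4 h5 h6 rfl
    refine ⟨![-(z⁻¹ * x), -(z⁻¹ * y)], ?_⟩
    show (-(z⁻¹ * x)) • v + (-(z⁻¹ * y)) • v₁ = u
    have h5 : u = z⁻¹ • (z • u) := by rw [smul_smul, inv_mul_cancel₀ hz, one_smul]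
    have h6 : z • u = -(x • v + y • v₁) := by
      rw [eq_neg_iff_add_eq_zero, ← h3]
      exact add_comm _ _
    rw [h5, h6]
    module
  have h5 := LinearMap.finrank_range_le (comb2 v v₁)
  rw [LinearMap.range_eq_top.mpr hsurj, finrank_top] at h5
  simp at h5

lemma Ind3.span {v v₁ u : Fin (2 + 1) → ℂ} (h : Ind3 v v₁ u) (w : Fin (2 + 1) → ℂ) :
    ∃ x y z : ℂ, w = x • v + y • v₁ + z • u := by
  have h1 := comb3_inj h
  have h2 : Function.Surjective (comb3 v v₁ u) := LinearMap.injective_iff_surjective.mp h1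
  obtain ⟨y, hy⟩ := h2 w
  exact ⟨y 0, y 1, y 2, hy.symm⟩

lemma exists_zero_pair {P Q : MvPolynomial (Fin (2 + 1)) ℂ} {m n : ℕ}
    (hP : P.IsHomogeneous m) (hQ : Q.IsHomogeneous n) (hm : 0 < m) (hn : 0 < n) :
    ∃ v : Fin (2 + 1) → ℂ, v ≠ 0 ∧ eval v P = 0 ∧ eval v Q = 0 := by
  have hz : ∀ {R : MvPolynomial (Fin (2 + 1)) ℂ} {k : ℕ}, R.IsHomogeneous k → 0 < k →
      eval (0 : Fin (2 + 1) → ℂ) R = 0 := by
    intro R k hR hk
    have h1 := eval_smul_homogeneous hR 0 0
    rwa [smul_zero, zero_pow hk.ne', zero_mul] at h1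
  obtain ⟨y, hy, h⟩ := Pool.Agent.H6.exists_ne_zero_common_zero ![P, Q]
    (by
      intro j
      fin_cases j
      · exact hz hP hm
      · exact hz hQ hn)
    (by simp)
  exact ⟨y, hy, h 0, h 1⟩

/-! ### The forms -/

variable {N c : ℕ} {e : Fin c → ℕ} {G : Fin c → MvPolynomial (Fin (N + 1)) ℂ}

lemma lin_add {n : ℕ} {l : MvPolynomial (Fin n) ℂ} (hl : l.IsHomogeneous 1)
    (v w : Fin n → ℂ) : eval (v + w) l = eval v l + eval w l := by
  obtain ⟨c, hc⟩ := exists_lin hl
  rw [hc, hc, hc, ← Finset.sum_add_distrib]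
  exact Finset.sum_congr rfl fun i _ => by rw [Pi.add_apply]; ring

lemma lin_smul {n : ℕ} {l : MvPolynomial (Fin n) ℂ} (hl : l.IsHomogeneous 1)
    (x : ℂ) (v : Fin n → ℂ) : eval (x • v) l = x * eval v l := by
  obtain ⟨c, hc⟩ := exists_lin hl
  rw [hc, hc, Finset.mul_sum]
  exact Finset.sum_congr rfl fun i _ => by rw [Pi.smul_apply, smul_eq_mul]; ring

lemma quad_smul {n : ℕ} {q : MvPolynomial (Fin n) ℂ} (hq : q.IsHomogeneous 2)
    (x : ℂ) (v : Fin n → ℂ) : eval (x • v) q = x ^ 2 * eval v q := by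
  obtain ⟨c, hc⟩ := exists_quad hq
  rw [hc, hc, Finset.mul_sum]
  refine Finset.sum_congr rfl fun i _ => ?_
  rw [Finset.mul_sum]
  exact Finset.sum_congr rfl fun j _ => by
    rw [Pi.smul_apply, Pi.smul_apply, smul_eq_mul, smul_eq_mul]; ring

lemma quad_comb {n : ℕ} {q : MvPolynomial (Fin n) ℂ} (hq : q.IsHomogeneous 2)
    (v w : Fin n → ℂ) : ∃ B : ℂ, ∀ x y : ℂ, eval (x • v + y • w) q =
      eval v q * x ^ 2 + B * (x * y) + eval w q * y ^ 2 := by
  obtain ⟨c, hc⟩ := exists_quad hq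
  refine ⟨∑ i, ∑ j, c i j * (v i * w j + w i * v j), fun x y => ?_⟩
  rw [hc, hc, hc]
  simp only [Finset.sum_mul, ← Finset.sum_add_distrib]
  refine Finset.sum_congr rfl fun i _ => Finset.sum_congr rfl fun j _ => ?_
  simp only [Pi.add_apply, Pi.smul_apply, smul_eq_mul]
  ring

/-- The form `l(v) w(v) - q(v) p`. -/
noncomputable def patchB (p : Fin (N + 1) → ℂ) (w : (Fin (2 + 1) → ℂ) →ₗ[ℂ] (Fin (N + 1) → ℂ))
    (l q : MvPolynomial (Fin (2 + 1)) ℂ) (i : Fin (N + 1)) : MvPolynomial (Fin (2 + 1)) ℂ :=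
  l * linForms w i - q * C (p i)

variable {p : Fin (N + 1) → ℂ} {w : (Fin (2 + 1) → ℂ) →ₗ[ℂ] (Fin (N + 1) → ℂ)}

lemma patchB_hom {l q : MvPolynomial (Fin (2 + 1)) ℂ} (hl : l.IsHomogeneous 1)
    (hq : q.IsHomogeneous 2) (i : Fin (N + 1)) : (patchB p w l q i).IsHomogeneous 2 := by
  refine IsHomogeneous.sub ?_ ?_
  · exact hl.mul (linForms_hom w i)
  · have h1 := hq.mul (isHomogeneous_C (Fin (2 + 1)) (p i))
    rwa [add_zero] at h1

lemma eval_patchB (l q : MvPolynomial (Fin (2 + 1)) ℂ) (v : Fin (2 + 1) → ℂ) :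
    (fun i => eval v (patchB p w l q i)) = eval v l • w v - eval v q • p := by
  funext i
  simp only [patchB, map_sub, map_mul, eval_C, eval_linForms, Pi.sub_apply, Pi.smul_apply,
    smul_eq_mul]

/-- Lines. -/
lemma quad_line (hG : ∀ j, (G j).IsHomogeneous (e j))
    (hind : ∀ (x : ℂ) v, x • p + w v = 0 → x = 0 ∧ v = 0) (hp : p ≠ 0)
    {v : Fin (2 + 1) → ℂ} (hv : v ≠ 0) (h : ∀ z : ℂ, ∀ j, eval ((1 : ℂ) • p + w (z • v)) (G j) = 0) :
    Projectivization.mk ℂ p hp ∈ gmPoints (projectiveSet G) := by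
  apply gm_of_line hG hp (V := w v)
  · intro x hx
    have h4 : (-x) • p + w v = 0 := by
      rw [hx]
      module
    exact hv (hind _ _ h4).2
  · intro z j
    have h5 : p + z • w v = (1 : ℂ) • p + w (z • v) := by
      rw [map_smul, one_smul]
    rw [h5]
    exact h z j

/-- Curves on the cone over a conic. -/
lemma quad_curve (hG : ∀ j, (G j).IsHomogeneous (e j))
    (hind : ∀ (x : ℂ) v, x • p + w v = 0 → x = 0 ∧ v = 0) (hp : p ≠ 0)
    {l q r : MvPolynomial (Fin (2 + 1)) ℂ} (hl : l.IsHomogeneous 1) (hq : q.IsHomogeneous 2)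
    (hr : r.IsHomogeneous 2)
    (hY : ∀ (α : ℂ) v, α * eval v l + eval v q = 0 → eval v r = 0 →
      ∀ j, eval (α • p + w v) (G j) = 0)
    {v₀ : Fin (2 + 1) → ℂ} (hl0 : eval v₀ l = 0) (hq0 : eval v₀ q ≠ 0)
    (V : Fin (2 + 1) → Polynomial ℂ) (hV : ∀ z, eval (fun k => (V k).eval z) r = 0)
    {κ : ℂ} (hκ : κ ≠ 0) (hV0 : (fun k => (V k).eval 0) = κ • v₀) {z₁ : ℂ}
    (hV1 : eval (fun k => (V k).eval z₁) l ≠ 0) :
    Projectivization.mk ℂ p hp ∈ gmPoints (projectiveSet G) := by
  have hev : ∀ z, (fun i => (aeval V (patchB p w l q i) : Polynomial ℂ).eval z) =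
      eval (fun k => (V k).eval z) l • w (fun k => (V k).eval z) -
      eval (fun k => (V k).eval z) q • p := by
    intro z
    rw [← eval_patchB]
    funext i
    exact eval_aeval_poly V _ z
  refine gm_of_poly hG (fun i => aeval V (patchB p w l q i)) ?_ 0 hp
    (-(κ ^ 2 * eval v₀ q)) (neg_ne_zero.mpr (mul_ne_zero (pow_ne_zero _ hκ) hq0)) ?_ ?_
  · intro z j
    rw [hev]
    set v : Fin (2 + 1) → ℂ := fun k => (V k).eval z with hv
    have h1 : eval v l • w v - eval v q • p = (-eval v q) • p + w (eval v l • v) := by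
      rw [map_smul]
      module
    rw [h1]
    apply hY
    · rw [lin_smul hl, quad_smul hq]
      ring
    · rw [quad_smul hr, hV z, mul_zero]
  · intro i
    have h1 := congrFun (hev 0) i
    rw [hV0, lin_smul hl, hl0, mul_zero, zero_smul, zero_sub, quad_smul hq] at h1
    rw [h1]
    simp only [Pi.neg_apply, Pi.smul_apply, smul_eq_mul]
    ring
  · by_contra hcon
    push Not at hcon
    obtain ⟨k, hk⟩ : ∃ k, p k ≠ 0 := by
      by_contra h
      push Not at h
      exact hp (funext h)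
    set v : Fin (2 + 1) → ℂ := fun k => (V k).eval z₁ with hv
    set Q : Fin (N + 1) → ℂ := eval v l • w v - eval v q • p with hQ
    have h1 : ∀ i j, Q i * p j = Q j * p i := by
      intro i j
      have h2 := hcon z₁ i j
      rw [hQ, ← hev z₁]
      exact h2
    have h2 : p k • Q = Q k • p := by
      funext i
      simp only [Pi.smul_apply, smul_eq_mul]
      linear_combination h1 i k
    have h3 : (-(p k * eval v q) - Q k) • p + w ((p k * eval v l) • v) = 0 := by
      have h4 : p k • Q - Q k • p = 0 := sub_eq_zero.mpr h2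
      rw [← h4, map_smul, hQ]
      module
    obtain ⟨-, h5⟩ := hind _ _ h3
    rcases smul_eq_zero.mp h5 with h6 | h6
    · exact (mul_ne_zero hk hV1) h6
    · apply hV1
      rw [h6]
      have h7 := lin_smul hl 0 0
      rwa [smul_zero, zero_mul] at h7

/-- Two quadrics, one of which is singular at the point. -/
lemma quad_cone (hG : ∀ j, (G j).IsHomogeneous (e j))
    (hind : ∀ (x : ℂ) v, x • p + w v = 0 → x = 0 ∧ v = 0) (hp : p ≠ 0)
    {l q r : MvPolynomial (Fin (2 + 1)) ℂ} (hl : l.IsHomogeneous 1) (hq : q.IsHomogeneous 2)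
    (hr : r.IsHomogeneous 2)
    (hY : ∀ (α : ℂ) v, α * eval v l + eval v q = 0 → eval v r = 0 →
      ∀ j, eval (α • p + w v) (G j) = 0) :
    Projectivization.mk ℂ p hp ∈ gmPoints (projectiveSet G) := by
  by_cases hB : ∃ v : Fin (2 + 1) → ℂ, v ≠ 0 ∧ eval v l = 0 ∧ eval v q = 0 ∧ eval v r = 0
  · obtain ⟨v, hv, h1, h2, h3⟩ := hB
    refine quad_line hG hind hp hv fun z j => hY _ _ ?_ ?_ j
    · rw [lin_smul hl, quad_smul hq, h1, h2]
      ring
    · rw [quad_smul hr, h3, mul_zero]
  obtain ⟨v₀, hv₀, hl0, hr0⟩ := exists_zero_pair hl hr one_pos two_pos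
  have hq0 : eval v₀ q ≠ 0 := fun h => hB ⟨v₀, hv₀, hl0, h, hr0⟩
  obtain ⟨a, ha⟩ := exists_second v₀ hv₀
  obtain ⟨b, hb⟩ := exists_third hv₀ ha
  obtain ⟨m₀, m₁, q₀, q₁, q₂, hexp⟩ := exists_quad_coef hr hr0 a b
  have hlab : ∀ x s t : ℂ, eval (x • v₀ + s • a + t • b) l = s * eval a l + t * eval b l := by
    intro x s t
    rw [lin_add hl, lin_add hl, lin_smul hl, lin_smul hl, lin_smul hl, hl0]
    ring
  have hl_ne : eval a l ≠ 0 ∨ eval b l ≠ 0 := by
    by_contra hcon
    push Not at hcon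
    obtain ⟨v, hv, h1, h2⟩ := exists_zero_pair hq hr two_pos two_pos
    refine hB ⟨v, hv, ?_, h1, h2⟩
    obtain ⟨x, y, z, h3⟩ := hb.span v
    rw [h3, hlab, hcon.1, hcon.2]
    ring
  by_cases hline : ∃ s t : ℂ, (s ≠ 0 ∨ t ≠ 0) ∧ m₀ * s + m₁ * t = 0 ∧
      q₀ * s ^ 2 + q₁ * (s * t) + q₂ * t ^ 2 = 0
  · obtain ⟨s, t, hst, h1, h2⟩ := hline
    have hrl : ∀ z y : ℂ, eval (z • v₀ + (y * s) • a + (y * t) • b) r = 0 := by
      intro z y
      rw [hexp]
      linear_combination z * y * h1 + y ^ 2 * h2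
    by_cases h3 : s * eval a l + t * eval b l = 0
    · exfalso
      obtain ⟨B, hBq⟩ := quad_comb hq v₀ (s • a + t • b)
      obtain ⟨x, y, hxy, h4⟩ := quad_root (eval v₀ q) B (eval (s • a + t • b) q)
      have h5 : x • v₀ + y • (s • a + t • b) = x • v₀ + (y * s) • a + (y * t) • b := by
        module
      refine hB ⟨x • v₀ + y • (s • a + t • b), ?_, ?_, ?_, ?_⟩
      · intro h6
        rw [h5] at h6
        obtain ⟨h7, h8, h9⟩ := hb _ _ _ h6
        rcases hxy with h | h
        · exact h h7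
        · rcases hst with h' | h'
          · exact (mul_ne_zero h h') h8
          · exact (mul_ne_zero h h') h9
      · rw [h5, hlab]
        linear_combination y * h3
      · rw [hBq]
        exact h4
      · rw [h5]
        exact hrl x y
    · have hVe : ∀ z : ℂ, (fun k => (Polynomial.C (v₀ k) + Polynomial.X *
          Polynomial.C ((s • a + t • b) k)).eval z) = (1 : ℂ) • v₀ + (z * s) • a + (z * t) • b := by
        intro z
        funext k
        simp only [Polynomial.eval_add, Polynomial.eval_mul, Polynomial.eval_C,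
          Polynomial.eval_X, Pi.add_apply, Pi.smul_apply, smul_eq_mul]
        ring
      refine quad_curve hG hind hp hl hq hr hY hl0 hq0
        (fun k => Polynomial.C (v₀ k) + Polynomial.X * Polynomial.C ((s • a + t • b) k))
        (fun z => ?_) one_ne_zero ?_ (z₁ := 1) ?_
      · rw [hVe]
        exact hrl 1 z
      · rw [hVe]
        module
      · rw [hVe, hlab]
        intro h6
        apply h3
        linear_combination h6
  · have hm : m₀ ≠ 0 ∨ m₁ ≠ 0 := by
      by_contra hcon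
      push Not at hcon
      obtain ⟨s, t, hst, h⟩ := quad_root q₀ q₁ q₂
      exact hline ⟨s, t, hst, by rw [hcon.1, hcon.2]; ring, h⟩
    have hq' : q₀ * m₁ ^ 2 - q₁ * (m₁ * m₀) + q₂ * m₀ ^ 2 ≠ 0 := by
      intro h
      apply hline
      refine ⟨m₁, -m₀, ?_, by ring, by linear_combination h⟩
      rcases hm with h1 | h1
      · exact Or.inr (neg_ne_zero.mpr h1)
      · exact Or.inl h1
    obtain ⟨x, y, hxy⟩ : ∃ x y : ℂ, m₀ * x + m₁ * y = 1 := by
      by_cases h : m₀ = 0
      · refine ⟨0, 1 / m₁, ?_⟩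
        have h1 : m₁ ≠ 0 := hm.resolve_left (not_not.mpr h)
        field_simp
        ring
      · refine ⟨1 / m₀, 0, ?_⟩
        field_simp
        ring
    set S : Polynomial ℂ := Polynomial.C m₁ + Polynomial.X * Polynomial.C x with hS
    set T : Polynomial ℂ := Polynomial.C (-m₀) + Polynomial.X * Polynomial.C y with hT
    have hSe : ∀ z, S.eval z = m₁ + z * x := fun z => by
      simp only [hS, Polynomial.eval_add, Polynomial.eval_mul, Polynomial.eval_C,
        Polynomial.eval_X]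
    have hTe : ∀ z, T.eval z = -m₀ + z * y := fun z => by
      simp only [hT, Polynomial.eval_add, Polynomial.eval_mul, Polynomial.eval_C,
        Polynomial.eval_X]
    set U : Polynomial ℂ := -(Polynomial.C q₀ * S ^ 2 + Polynomial.C q₁ * (S * T) +
      Polynomial.C q₂ * T ^ 2) with hU
    have hUe : ∀ z, U.eval z = -(q₀ * S.eval z ^ 2 + q₁ * (S.eval z * T.eval z) +
        q₂ * T.eval z ^ 2) := fun z => by
      simp only [hU, Polynomial.eval_neg, Polynomial.eval_add, Polynomial.eval_mul,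
        Polynomial.eval_C, Polynomial.eval_pow]
    have hVe : ∀ z : ℂ, (fun k => (U * Polynomial.C (v₀ k) + Polynomial.X * S *
        Polynomial.C (a k) + Polynomial.X * T * Polynomial.C (b k)).eval z) =
        U.eval z • v₀ + (z * S.eval z) • a + (z * T.eval z) • b := by
      intro z
      funext k
      simp only [Polynomial.eval_add, Polynomial.eval_mul, Polynomial.eval_C,
        Polynomial.eval_X, Pi.add_apply, Pi.smul_apply, smul_eq_mul]
    -- a parameter for which the linear form does not vanish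
    obtain ⟨z₁, hz₁⟩ : ∃ z : ℂ, z * S.eval z * eval a l + z * T.eval z * eval b l ≠ 0 := by
      by_contra hcon
      push Not at hcon
      have h1 := hcon 1
      have h2 := hcon 2
      rw [hSe, hTe] at h1 h2
      have h3 : m₁ * eval a l - m₀ * eval b l = 0 := by
        linear_combination 2 * h1 - (1 / 2) * h2
      have h4 : x * eval a l + y * eval b l = 0 := by
        linear_combination (1 / 2) * h2 - h1
      rcases hl_ne with h | h
      · apply h
        linear_combination y * h3 + m₀ * h4 - eval a l * hxy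
      · apply h
        linear_combination m₁ * h4 - x * h3 - eval b l * hxy
    refine quad_curve hG hind hp hl hq hr hY hl0 hq0
      (fun k => U * Polynomial.C (v₀ k) + Polynomial.X * S * Polynomial.C (a k) +
        Polynomial.X * T * Polynomial.C (b k)) (fun z => ?_) (κ := U.eval 0) ?_ ?_
      (z₁ := z₁) ?_
    · rw [hVe, hexp, hUe]
      have hM : m₀ * S.eval z + m₁ * T.eval z = z := by
        rw [hSe, hTe]
        linear_combination z * hxy
      linear_combination -z * (q₀ * S.eval z ^ 2 + q₁ * (S.eval z * T.eval z) +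
        q₂ * T.eval z ^ 2) * hM
    · rw [hUe, hSe, hTe]
      intro h
      apply hq'
      linear_combination -h
    · rw [hVe]
      module
    · rw [hVe, hlab]
      exact hz₁

end Pool.Agent.H24.SG
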