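import Mathlib
import Pool.Agent.H24.SG.TwoQuad

/-!
# Points of intersections of two quadrics in a three-dimensional projective space: general case
-/

set_option autoImplicit false

namespace Pool.Agent.H24.SG

open MvPolynomial Pool.Agent.H86.Refl

variable {N c : ℕ} {e : Fin c → ℕ} {G : Fin c → MvPolynomial (Fin (N + 1)) ℂ}
  {p : Fin (N + 1) → ℂ} {w : (Fin (2 + 1) → ℂ) →ₗ[ℂ] (Fin (N + 1) → ℂ)}

/-- Two quadrics which meet transversally at the point. -/
lemma quad_transversal (hG : ∀ j, (G j).IsHomogeneous (e j))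
    (hind : ∀ (x : ℂ) v, x • p + w v = 0 → x = 0 ∧ v = 0) (hp : p ≠ 0)
    {l q : Fin 2 → MvPolynomial (Fin (2 + 1)) ℂ} (hl : ∀ k, (l k).IsHomogeneous 1)
    (hq : ∀ k, (q k).IsHomogeneous 2)
    (hY : ∀ (α : ℂ) v, (∀ k, α * eval v (l k) + eval v (q k) = 0) →
      ∀ j, eval (α • p + w v) (G j) = 0)
    {v₀ : Fin (2 + 1) → ℂ} (hv₀ : v₀ ≠ 0) (hl0 : ∀ k, eval v₀ (l k) = 0)
    (hker : ∀ v, (∀ k, eval v (l k) = 0) → ∃ x : ℂ, v = x • v₀)
    (hB : ¬ ∃ v : Fin (2 + 1) → ℂ, v ≠ 0 ∧ ∀ k, eval v (l k) = 0 ∧ eval v (q k) = 0) :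
    Projectivization.mk ℂ p hp ∈
      gmPoints (projectiveSet G) ∪ ellipticPoints (projectiveSet G) := by
  set R : MvPolynomial (Fin (2 + 1)) ℂ := l 0 * q 1 - l 1 * q 0 with hR
  have hRh : R.IsHomogeneous 3 := ((hl 0).mul (hq 1)).sub ((hl 1).mul (hq 0))
  have hRe : ∀ v, eval v R = eval v (l 0) * eval v (q 1) - eval v (l 1) * eval v (q 0) := by
    intro v
    rw [hR, map_sub, map_mul, map_mul]
  set X : Set (PSpace 2) := projectiveSet (fun _ : Fin 1 => R) with hX
  have hXR : ∀ x ∈ X, ∀ k m, eval x.rep (l k) * eval x.rep (q m) =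
      eval x.rep (l m) * eval x.rep (q k) := by
    intro x hx k m
    have h1 : eval x.rep R = 0 := hx 0
    rw [hRe] at h1
    fin_cases k <;> fin_cases m
    · rfl
    · exact sub_eq_zero.mp h1
    · exact (sub_eq_zero.mp h1).symm
    · rfl
  -- the point on the plane cubic
  have hpt : Projectivization.mk ℂ v₀ hv₀ ∈ gmPoints X ∪ ellipticPoints X := by
    obtain ⟨a, ha⟩ := exists_second v₀ hv₀
    obtain ⟨b, hb⟩ := exists_third hv₀ ha
    obtain ⟨k, hk⟩ := exists_coef hRh (p := v₀) (by rw [hRe, hl0, hl0]; ring) a b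
    exact k.point (e := fun _ => 3) (fun _ => hRh) hb
      (fun α s t h _ => by rw [hk]; exact h) hv₀
  have hrep : ∀ x : PSpace 2, x.rep ≠ 0 := fun x => x.rep_nonzero
  obtain ⟨ψ, hψ, hψv⟩ := exists_patchMap (X := X) (Y := projectiveSet G) (K := Fin 2)
    (fun _ => 2) (fun k => patchB p w (l k) (q k)) (fun _ => two_pos)
    (fun k i => patchB_hom (hl k) (hq k) i) (by
      intro x hx
      by_contra hcon
      push Not at hcon
      apply hB
      refine ⟨x.rep, hrep x, fun k => ?_⟩
      have h1 : eval x.rep (l k) • w x.rep - eval x.rep (q k) • p = 0 := by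
        rw [← eval_patchB]
        funext i
        exact hcon k i
      have h2 : (-eval x.rep (q k)) • p + w (eval x.rep (l k) • x.rep) = 0 := by
        rw [← h1, map_smul]
        module
      obtain ⟨h3, h4⟩ := hind _ _ h2
      exact ⟨(smul_eq_zero.mp h4).resolve_right (hrep x), neg_eq_zero.mp h3⟩)
    (by
      intro x hx k m i j
      have h1 := congrFun (eval_patchB (p := p) (w := w) (l k) (q k) x.rep)
      have h2 := congrFun (eval_patchB (p := p) (w := w) (l m) (q m) x.rep)
      have h3 := h1 i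
      have h4 := h1 j
      have h5 := h2 i
      have h6 := h2 j
      simp only [Pi.sub_apply, Pi.smul_apply, smul_eq_mul] at h3 h4 h5 h6
      rw [h3, h4, h5, h6]
      linear_combination (w x.rep j * p i - w x.rep i * p j) * hXR x hx k m)
    (by
      intro x hx k h j
      rw [vanishesAt_mk (hG j), eval_patchB]
      have h1 : eval x.rep (l k) • w x.rep - eval x.rep (q k) • p =
          (-eval x.rep (q k)) • p + w (eval x.rep (l k) • x.rep) := by
        rw [map_smul]
        module
      rw [h1]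
      apply hY
      intro m
      rw [lin_smul (hl m), quad_smul (hq m)]
      linear_combination eval x.rep (l k) * hXR x hx k m)
    (by
      intro c
      apply Set.Subsingleton.finite
      rintro x ⟨hx, k, h1, h2⟩ y ⟨hy, m, h3, h4⟩
      rw [← h4, Projectivization.mk_eq_mk_iff'] at h2
      obtain ⟨μ, hμ⟩ := h2
      rw [eval_patchB, eval_patchB] at hμ
      have h5 : (μ * -eval y.rep (q m) + eval x.rep (q k)) • p +
          w ((μ * eval y.rep (l m)) • y.rep - eval x.rep (l k) • x.rep) = 0 := by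
        have h6 := sub_eq_zero.mpr hμ
        rw [← h6, map_sub, map_smul, map_smul]
        module
      obtain ⟨h6, h7⟩ := hind _ _ h5
      have h8 : (μ * eval y.rep (l m)) • y.rep = eval x.rep (l k) • x.rep := sub_eq_zero.mp h7
      have hμ0 : μ ≠ 0 := by
        rintro rfl
        rw [zero_smul] at hμ
        apply h1
        rw [eval_patchB]
        exact hμ.symm
      by_cases hlk : eval x.rep (l k) = 0
      · -- both points are the base point
        have hly : eval y.rep (l m) = 0 := by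
          rw [hlk, zero_smul] at h8
          have h9 := (smul_eq_zero.mp h8).resolve_right (hrep y)
          exact (mul_eq_zero.mp h9).resolve_left hμ0
        have hq1 : eval x.rep (q k) ≠ 0 := by
          intro h0
          apply h1
          rw [eval_patchB, hlk, h0]
          module
        have hq2 : eval y.rep (q m) ≠ 0 := by
          intro h0
          apply h3
          rw [eval_patchB, hly, h0]
          module
        obtain ⟨r, hr⟩ := hker x.rep fun n => by
          have h9 := hXR x hx k n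
          rw [hlk, zero_mul] at h9
          exact (mul_eq_zero.mp h9.symm).resolve_right hq1
        obtain ⟨r', hr'⟩ := hker y.rep fun n => by
          have h9 := hXR y hy m n
          rw [hly, zero_mul] at h9
          exact (mul_eq_zero.mp h9.symm).resolve_right hq2
        have hr0 : r' ≠ 0 := by
          rintro rfl
          rw [zero_smul] at hr'
          exact hrep y hr'
        rw [← x.mk_rep, ← y.mk_rep]
        apply mk_eq_of_smul _ _ (r / r')
        rw [hr, hr', smul_smul]
        congr 1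
        field_simp
      · rw [← x.mk_rep, ← y.mk_rep]
        apply mk_eq_of_smul _ _ ((eval x.rep (l k))⁻¹ * (μ * eval y.rep (l m)))
        rw [mul_smul, h8, smul_smul, inv_mul_cancel₀ hlk, one_smul])
  have h1 := hψ.sab hpt
  -- the image of the base point
  have hXv : Projectivization.mk ℂ v₀ hv₀ ∈ X := by
    intro _
    rw [vanishesAt_mk hRh, hRe, hl0, hl0]
    ring
  obtain ⟨μ, hμ⟩ := Projectivization.exists_smul_eq_mk_rep ℂ v₀ hv₀
  have hμ' : (Projectivization.mk ℂ v₀ hv₀).rep = (μ : ℂ) • v₀ := hμ.symm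
  obtain ⟨k, hk⟩ : ∃ k, eval v₀ (q k) ≠ 0 := by
    by_contra hcon
    push Not at hcon
    exact hB ⟨v₀, hv₀, fun k => ⟨hl0 k, hcon k⟩⟩
  have h2 : (fun i => eval (Projectivization.mk ℂ v₀ hv₀).rep (patchB p w (l k) (q k) i)) =
      (-((μ : ℂ) ^ 2 * eval v₀ (q k))) • p := by
    rw [eval_patchB, hμ', lin_smul (hl k), quad_smul (hq k), hl0]
    module
  have h3 : -((μ : ℂ) ^ 2 * eval v₀ (q k)) ≠ 0 :=
    neg_ne_zero.mpr (mul_ne_zero (pow_ne_zero _ μ.ne_zero) hk)
  have h4 : (fun i => eval (Projectivization.mk ℂ v₀ hv₀).rep (patchB p w (l k) (q k) i)) ≠ 0 := by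
    rw [h2]
    exact smul_ne_zero h3 hp
  have h5 := hψv _ hXv k h4
  have h6 : Projectivization.mk ℂ _ h4 = Projectivization.mk ℂ p hp :=
    mk_eq_of_smul h4 hp _ h2
  rw [h5, h6] at h1
  exact h1

/-- Every point of an intersection of two quadrics in `P³` lies on the image of a curve of genus
at most one. -/
theorem quad_point (hG : ∀ j, (G j).IsHomogeneous (e j))
    (hind : ∀ (x : ℂ) v, x • p + w v = 0 → x = 0 ∧ v = 0) (hp : p ≠ 0)
    {l q : Fin 2 → MvPolynomial (Fin (2 + 1)) ℂ} (hl : ∀ k, (l k).IsHomogeneous 1)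
    (hq : ∀ k, (q k).IsHomogeneous 2)
    (hY : ∀ (α : ℂ) v, (∀ k, α * eval v (l k) + eval v (q k) = 0) →
      ∀ j, eval (α • p + w v) (G j) = 0) :
    Projectivization.mk ℂ p hp ∈
      gmPoints (projectiveSet G) ∪ ellipticPoints (projectiveSet G) := by
  by_cases hB : ∃ v : Fin (2 + 1) → ℂ, v ≠ 0 ∧ ∀ k, eval v (l k) = 0 ∧ eval v (q k) = 0
  · obtain ⟨v, hv, h1⟩ := hB
    left
    refine quad_line hG hind hp hv fun z j => hY _ _ (fun k => ?_) j
    rw [lin_smul (hl k), quad_smul (hq k), (h1 k).1, (h1 k).2]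
    ring
  obtain ⟨v₀, hv₀, hl0, hl1⟩ := exists_zero_pair (hl 0) (hl 1) one_pos one_pos
  have hl' : ∀ k, eval v₀ (l k) = 0 := by
    intro k
    fin_cases k
    · exact hl0
    · exact hl1
  by_cases hker : ∀ v, (∀ k, eval v (l k) = 0) → ∃ x : ℂ, v = x • v₀
  · exact quad_transversal hG hind hp hl hq hY hv₀ hl' hker hB
  left
  push Not at hker
  obtain ⟨v₁, hl1', hv₁⟩ := hker
  obtain ⟨u, hu⟩ := exists_third hv₀ hv₁
  have hlu : ∀ k, ∀ x y z : ℂ, eval (x • v₀ + y • v₁ + z • u) (l k) = z * eval u (l k) := by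
    intro k x y z
    rw [lin_add (hl k), lin_add (hl k), lin_smul (hl k), lin_smul (hl k), lin_smul (hl k),
      hl' k, hl1' k]
    ring
  have hrel : ∀ v, eval u (l 1) * eval v (l 0) = eval u (l 0) * eval v (l 1) := by
    intro v
    obtain ⟨x, y, z, rfl⟩ := hu.span v
    rw [hlu, hlu]
    ring
  by_cases h0 : eval u (l 0) = 0
  · have hz : ∀ v, eval v (l 0) = 0 := by
      intro v
      obtain ⟨x, y, z, rfl⟩ := hu.span v
      rw [hlu, h0, mul_zero]
    refine quad_cone hG hind hp (hl 1) (hq 1) (hq 0) fun α v h1 h2 j => hY α v (fun k => ?_) j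
    fin_cases k
    · show α * eval v (l 0) + eval v (q 0) = 0
      rw [hz, h2]
      ring
    · exact h1
  · have hr : (C (eval u (l 1)) * q 0 - C (eval u (l 0)) * q 1).IsHomogeneous 2 :=
      (hom_C_mul _ (hq 0)).sub (hom_C_mul _ (hq 1))
    refine quad_cone hG hind hp (hl 0) (hq 0) hr fun α v h1 h2 j => hY α v (fun k => ?_) j
    rw [map_sub, map_mul, map_mul, eval_C, eval_C] at h2
    fin_cases k
    · exact h1
    · show α * eval v (l 1) + eval v (q 1) = 0
      have h3 := hrel v
      apply mul_left_cancel₀ h0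
      linear_combination eval u (l 1) * h1 - h2 - α * h3

end Pool.Agent.H24.SG
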