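import Mathlib
import Pool.Agent.H24.SG.TwoQuadGen
import Pool.Agent.H84.Waring.Span

/-!
# Entire curves in sections of sectional genus at most one
-/

set_option autoImplicit false

namespace Pool.Agent.H24.SG

open MvPolynomial Pool.Agent.H86.Refl Pool.Agent.H84.Waring

lemma split_cases {m : ℕ} {e : Fin m → ℕ} (he1 : ∀ j, 1 ≤ e j) (he : ∑ j, (e j - 1) ≤ 2) :
    (∃ j₀, e j₀ = 3 ∧ ∀ j, j ≠ j₀ → e j = 1) ∨ (∀ j, e j = 1) ∨
      ∃ j₀ j₁, e j₀ = 2 ∧ e j₁ = 2 ∧ ∀ j, j ≠ j₀ → j ≠ j₁ → e j = 1 := by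
  classical
  have hsub : ∀ s : Finset (Fin m), ∑ j ∈ s, (e j - 1) ≤ 2 := fun s =>
    (Finset.sum_le_sum_of_subset (Finset.subset_univ s)).trans he
  by_cases h3 : ∃ j₀, 3 ≤ e j₀
  · left
    obtain ⟨j₀, hj₀⟩ := h3
    refine ⟨j₀, ?_, fun j hj => ?_⟩
    · have h1 := hsub {j₀}
      rw [Finset.sum_singleton] at h1
      omega
    · have h1 := hsub {j₀, j}
      rw [Finset.sum_pair hj.symm] at h1
      have h2 := he1 j
      omega
  push Not at h3
  right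
  by_cases h2 : ∃ j₀, e j₀ = 2
  · right
    obtain ⟨j₀, hj₀⟩ := h2
    by_cases h4 : ∃ j₁, j₁ ≠ j₀ ∧ e j₁ = 2
    · obtain ⟨j₁, hne, hj₁⟩ := h4
      refine ⟨j₀, j₁, hj₀, hj₁, fun j h5 h6 => ?_⟩
      have h1 := hsub {j₀, j₁, j}
      rw [Finset.sum_insert (by simp [hne.symm, h5.symm]), Finset.sum_pair h6.symm] at h1
      have h2 := he1 j
      omega
    · push Not at h4
      refine ⟨j₀, j₀, hj₀, hj₀, fun j h5 _ => ?_⟩
      have h6 := h4 j h5
      have h7 := he1 j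
      have h8 := h3 j
      omega
  · left
    push Not at h2
    intro j
    have h6 := h2 j
    have h7 := he1 j
    have h8 := h3 j
    omega

variable {N c m : ℕ} {F : Fin c → MvPolynomial (Fin (N + 1)) ℂ}
  {G : Fin m → MvPolynomial (Fin (N + 1)) ℂ}

lemma projectiveSet_append :
    projectiveSet (Fin.append F G) = projectiveSet F ∩ projectiveSet G := by
  ext x
  constructor
  · intro h
    refine ⟨fun k => ?_, fun j => ?_⟩
    · have h1 := h (Fin.castAdd m k)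
      rwa [Fin.append_left] at h1
    · have h1 := h (Fin.natAdd c j)
      rwa [Fin.append_right] at h1
  · rintro ⟨h1, h2⟩ i
    refine Fin.addCases (fun k => ?_) (fun j => ?_) i
    · rw [Fin.append_left]
      exact h1 k
    · rw [Fin.append_right]
      exact h2 j

/-- The statement for homogeneous coordinates. -/
theorem point_of_coords {n : ℕ} {H : Fin n → MvPolynomial (Fin (N + 1)) ℂ} {d : Fin n → ℕ}
    (hH : ∀ i, (H i).IsHomogeneous (d i)) {e : Fin m → ℕ} (hG : ∀ j, (G j).IsHomogeneous (e j))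
    (he1 : ∀ j, 1 ≤ e j) (he : ∑ j, (e j - 1) ≤ 2) {Φ : ℂ → Fin (N + 1) → ℂ}
    (hΦ : ∀ q, Differentiable ℂ (fun z => Φ z q)) (hH0 : ∀ z i, eval (Φ z) (H i) = 0)
    (hG0 : ∀ z j, eval (Φ z) (G j) = 0)
    (hHG : ∀ v ∈ Submodule.span ℂ (Set.range Φ), (∀ j, eval v (G j) = 0) →
      ∀ i, eval v (H i) = 0)
    {z₀ z₁ : ℂ} (hp : Φ z₀ ≠ 0) (ha : ∀ x : ℂ, Φ z₁ ≠ x • Φ z₀) :
    Projectivization.mk ℂ (Φ z₀) hp ∈
      gmPoints (projectiveSet H) ∪ ellipticPoints (projectiveSet H) := by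
  set S := Submodule.span ℂ (Set.range Φ) with hS
  have hΦS : ∀ z, Φ z ∈ S := fun z => Submodule.subset_span ⟨z, rfl⟩
  have hlin : ∀ j, e j = 1 → ∀ v ∈ S, eval v (G j) = 0 := by
    intro j hj v hv
    have hGj := hG j
    rw [hj] at hGj
    induction hv using Submodule.span_induction with
    | mem v hv =>
      obtain ⟨z, rfl⟩ := hv
      exact hG0 z j
    | zero =>
      have h1 := lin_smul hGj 0 0
      rwa [smul_zero, zero_mul] at h1
    | add v w _ _ h1 h2 => rw [lin_add hGj, h1, h2, add_zero]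
    | smul a v _ h1 => rw [lin_smul hGj, h1, mul_zero]
  by_cases hS2 : ∀ z, ∃ x y : ℂ, Φ z = x • Φ z₀ + y • Φ z₁
  · exact Or.inl (line_case hH hΦ hH0 hp ha hS2)
  push Not at hS2
  obtain ⟨z₂, hz₂⟩ := hS2
  have hind : Ind3 (Φ z₀) (Φ z₁) (Φ z₂) := by
    intro x y z h
    have hz : z = 0 := by
      by_contra hz
      apply hz₂ (-(z⁻¹ * x)) (-(z⁻¹ * y))
      have h1 : z • Φ z₂ = -(x • Φ z₀ + y • Φ z₁) := by
        rw [eq_neg_iff_add_eq_zero, ← h]
        exact add_comm _ _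
      have h2 : Φ z₂ = z⁻¹ • (z • Φ z₂) := by rw [smul_smul, inv_mul_cancel₀ hz, one_smul]
      rw [h2, h1]
      module
    rw [hz, zero_smul, add_zero] at h
    obtain ⟨h1, h2⟩ := ind2 hp ha h
    exact ⟨h1, h2, hz⟩
  have hcomb : ∀ x y z : ℂ, x • Φ z₀ + y • Φ z₁ + z • Φ z₂ ∈ S := fun x y z =>
    S.add_mem (S.add_mem (S.smul_mem _ (hΦS _)) (S.smul_mem _ (hΦS _))) (S.smul_mem _ (hΦS _))
  rcases split_cases he1 he with ⟨j₀, hj₀, hj⟩ | hcase
  · -- a cubic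
    have hGj := hG j₀
    rw [hj₀] at hGj
    obtain ⟨k, hk⟩ := exists_coef hGj (hG0 z₀ j₀) (Φ z₁) (Φ z₂)
    refine k.point hH hind (fun α s t h i => ?_) hp
    refine hHG _ (hcomb α s t) (fun j => ?_) i
    by_cases h1 : j = j₀
    · rw [h1, hk]
      exact h
    · exact hlin j (hj j h1) _ (hcomb α s t)
  -- two quadrics
  obtain ⟨Q, hQ, hQ0, hQG⟩ : ∃ Q : Fin 2 → MvPolynomial (Fin (N + 1)) ℂ,
      (∀ k, (Q k).IsHomogeneous 2) ∧ (∀ z k, eval (Φ z) (Q k) = 0) ∧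
      ∀ v ∈ S, (∀ k, eval v (Q k) = 0) → ∀ j, eval v (G j) = 0 := by
    rcases hcase with hj | ⟨j₀, j₁, h0, h1, hj⟩
    · exact ⟨fun _ => 0, fun _ => isHomogeneous_zero _ _ _, fun z k => map_zero _,
        fun v hv _ j => hlin j (hj j) v hv⟩
    · have hG0' := hG j₀
      rw [h0] at hG0'
      have hG1' := hG j₁
      rw [h1] at hG1'
      refine ⟨![G j₀, G j₁], fun k => ?_, fun z k => ?_, fun v hv h j => ?_⟩
      · fin_cases k
        · exact hG0'
        · exact hG1'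
      · fin_cases k
        · exact hG0 z j₀
        · exact hG0 z j₁
      · by_cases h2 : j = j₀
        · rw [h2]
          exact h 0
        by_cases h3 : j = j₁
        · rw [h3]
          exact h 1
        exact hlin j (hj j h2 h3) v hv
  by_cases hS3 : ∀ z, ∃ x y w : ℂ, Φ z = x • Φ z₀ + y • Φ z₁ + w • Φ z₂
  · -- a plane
    left
    obtain ⟨σ, hσ, hσΦ, hσd⟩ := exists_coords hΦ (comb3 (Φ z₀) (Φ z₁) (Φ z₂)) (comb3_inj hind)
      (fun z => by
        obtain ⟨x, y, w, h⟩ := hS3 z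
        exact ⟨![x, y, w], by rw [h]; rfl⟩)
    have e0 : σ (Φ z₀) = ![1, 0, 0] := by
      rw [← hσ ![1, 0, 0]]
      congr 1
      show Φ z₀ = (1 : ℂ) • Φ z₀ + (0 : ℂ) • Φ z₁ + (0 : ℂ) • Φ z₂
      module
    have e1 : σ (Φ z₁) = ![0, 1, 0] := by
      rw [← hσ ![0, 1, 0]]
      congr 1
      show Φ z₁ = (0 : ℂ) • Φ z₀ + (1 : ℂ) • Φ z₁ + (0 : ℂ) • Φ z₂
      module
    have e2 : σ (Φ z₂) = ![0, 0, 1] := by
      rw [← hσ ![0, 0, 1]]
      congr 1
      show Φ z₂ = (0 : ℂ) • Φ z₀ + (0 : ℂ) • Φ z₁ + (1 : ℂ) • Φ z₂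
      module
    have hΦe : ∀ z, Φ z = σ (Φ z) 0 • Φ z₀ + σ (Φ z) 1 • Φ z₁ + σ (Φ z) 2 • Φ z₂ :=
      fun z => (hσΦ z).symm
    obtain ⟨m₀, m₁, q₀, q₁, q₂, h0⟩ := exists_quad_coef (hQ 0) (hQ0 z₀ 0) (Φ z₁) (Φ z₂)
    obtain ⟨n₀, n₁, r₀, r₁, r₂, h1⟩ := exists_quad_coef (hQ 1) (hQ0 z₀ 1) (Φ z₁) (Φ z₂)
    refine plane_case hH hind hp (m₀ := m₀) (m₁ := m₁) (q₀ := q₀) (q₁ := q₁) (q₂ := q₂)
      (n₀ := n₀) (n₁ := n₁) (r₀ := r₀) (r₁ := r₁) (r₂ := r₂) (fun α s t h2 h3 i => ?_)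
      (hσd 0) (hσd 1) (hσd 2) (fun x y hxy => ?_) (z₀ := z₀) ?_ ?_ ?_ (fun z => ?_)
      (fun z => ?_)
    · refine hHG _ (hcomb α s t) (hQG _ (hcomb α s t) fun k => ?_) i
      fin_cases k
      · exact (h0 α s t).trans h2
      · exact (h1 α s t).trans h3
    · have h2 := hxy z₁
      have h3 := hxy z₂
      rw [e1] at h2
      rw [e2] at h3
      simp at h2 h3
      exact ⟨h2, h3⟩
    · rw [e0]
      simp
    · rw [e0]
      simp
    · rw [e0]
      simp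
    · rw [← h0, ← hΦe]
      exact hQ0 z 0
    · rw [← h1, ← hΦe]
      exact hQ0 z 1
  · -- a three-dimensional space
    push Not at hS3
    obtain ⟨z₃, hz₃⟩ := hS3
    set w : (Fin (2 + 1) → ℂ) →ₗ[ℂ] (Fin (N + 1) → ℂ) := comb3 (Φ z₁) (Φ z₂) (Φ z₃) with hw
    have hwS : ∀ v, w v ∈ S := fun v =>
      S.add_mem (S.add_mem (S.smul_mem _ (hΦS _)) (S.smul_mem _ (hΦS _)))
        (S.smul_mem _ (hΦS _))
    have hind4 : ∀ (x : ℂ) v, x • Φ z₀ + w v = 0 → x = 0 ∧ v = 0 := by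
      intro x v h
      have h' : x • Φ z₀ + (v 0 • Φ z₁ + v 1 • Φ z₂ + v 2 • Φ z₃) = 0 := h
      have hv2 : v 2 = 0 := by
        by_contra hz
        apply hz₃ (-((v 2)⁻¹ * x)) (-((v 2)⁻¹ * v 0)) (-((v 2)⁻¹ * v 1))
        have h1 : v 2 • Φ z₃ = -(x • Φ z₀ + v 0 • Φ z₁ + v 1 • Φ z₂) := by
          rw [eq_neg_iff_add_eq_zero, ← h']
          abel
        have h2 : Φ z₃ = (v 2)⁻¹ • (v 2 • Φ z₃) := by
          rw [smul_smul, inv_mul_cancel₀ hz, one_smul]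
        rw [h2, h1]
        module
      have h1 : x • Φ z₀ + v 0 • Φ z₁ + v 1 • Φ z₂ = 0 := by
        rw [← h', hv2]
        module
      obtain ⟨h2, h3, h4⟩ := hind _ _ _ h1
      refine ⟨h2, ?_⟩
      funext i
      fin_cases i
      · exact h3
      · exact h4
      · exact hv2
    choose l q hl hq hlq using fun k => exists_restrict (hQ k) (hQ0 z₀ k) w
    refine quad_point hH hind4 hp hl hq fun α v h i => ?_
    have hmem : α • Φ z₀ + w v ∈ S := S.add_mem (S.smul_mem _ (hΦS _)) (hwS v)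
    exact hHG _ hmem (hQG _ hmem fun k => (hlq k α v).trans (h k)) i

/-- Every point of an entire curve in a section of sectional genus at most one lies on the image
of a non-constant morphism from `G_m` or from an elliptic curve. -/
theorem entirePoints_subset (hF : ∀ k, IsPowerSum F (F k)) {e : Fin m → ℕ}
    (hG : ∀ j, (G j).IsHomogeneous (e j)) (he1 : ∀ j, 1 ≤ e j) (he : ∑ j, (e j - 1) ≤ 2) :
    entirePoints (projectiveSet F ∩ projectiveSet G) ⊆
      gmPoints (projectiveSet F ∩ projectiveSet G) ∪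
      ellipticPoints (projectiveSet F ∩ projectiveSet G) := by
  rintro x ⟨f, hf, hmem, ⟨y₀, y₁, hy⟩, z₀, rfl⟩
  obtain ⟨Ψ, hΨ, hΨf⟩ := Pool.Agent.H42.GGL.exists_lift f fun z => hf z
  set Φ : ℂ → Fin (N + 1) → ℂ := fun z i => Ψ i z with hΦdef
  have hne : ∀ z, Φ z ≠ 0 := fun z => (hΨf z).1
  have hfΦ : ∀ z, f z = Projectivization.mk ℂ (Φ z) (hne z) := fun z => (hΨf z).2
  have hΦ : ∀ q, Differentiable ℂ (fun z => Φ z q) := hΨ
  choose eF heF using fun k => (hF k).exists_hom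
  have hF0 : ∀ z k, eval (Φ z) (F k) = 0 := by
    intro z k
    have h1 := (hmem z).1 k
    rw [hfΦ, vanishesAt_mk (heF k)] at h1
    exact h1
  have hG0 : ∀ z j, eval (Φ z) (G j) = 0 := by
    intro z j
    have h1 := (hmem z).2 j
    rw [hfΦ, vanishesAt_mk (hG j)] at h1
    exact h1
  have hFS : ∀ v ∈ Submodule.span ℂ (Set.range Φ), ∀ k, eval v (F k) = 0 := fun v hv k =>
    span_zero hF hΦ hF0 hv k
  obtain ⟨z₁, hz₁⟩ : ∃ z₁, ∀ x : ℂ, Φ z₁ ≠ x • Φ z₀ := by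
    by_contra hcon
    push Not at hcon
    have h1 : ∀ z, f z = f z₀ := by
      intro z
      obtain ⟨x, hx⟩ := hcon z
      rw [hfΦ, hfΦ]
      exact mk_eq_of_smul _ _ x hx
    exact hy ((h1 y₀).trans (h1 y₁).symm)
  rw [hfΦ, ← projectiveSet_append]
  refine point_of_coords (H := Fin.append F G) (d := Fin.append eF e) ?_ hG he1 he hΦ ?_ hG0 ?_
    (hne z₀) hz₁
  · intro i
    refine Fin.addCases (fun k => ?_) (fun j => ?_) i
    · rw [Fin.append_left, Fin.append_left]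
      exact heF k
    · rw [Fin.append_right, Fin.append_right]
      exact hG j
  · intro z i
    refine Fin.addCases (fun k => ?_) (fun j => ?_) i
    · rw [Fin.append_left]
      exact hF0 z k
    · rw [Fin.append_right]
      exact hG0 z j
  · intro v hv h i
    refine Fin.addCases (fun k => ?_) (fun j => ?_) i
    · rw [Fin.append_left]
      exact hFS v hv k
    · rw [Fin.append_right]
      exact h j

end Pool.Agent.H24.SG
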