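import Mathlib
import Pool.Agent.H24.SG.Fib
import Pool.Agent.H24.SG.Poly
import Pool.Agent.H86.Refl.FromData

/-!
# Images of `G_m` and of elliptic curves are covered by entire curves
-/

set_option autoImplicit false

open Filter Topology

namespace Pool.Agent.H24.SG

open MvPolynomial Pool.Agent.H86.Refl Pool.Agent.H84

variable {N c : ℕ} {e : Fin c → ℕ} {G : Fin c → MvPolynomial (Fin (N + 1)) ℂ}

/-- Points on images of `G_m` lie on entire curves. -/
lemma gm_entire {X : Set (PSpace N)} : gmPoints X ⊆ entirePoints X := by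
  rintro x ⟨f, ⟨A, hA⟩, hmem, ⟨z, y, hz, hy, hzy⟩, w, hw, rfl⟩
  refine ⟨fun z => f (Complex.exp z), fun z => ?_, fun z => hmem _ (Complex.exp_ne_zero z),
    ⟨Complex.log z, Complex.log y, ?_⟩, Complex.log w, ?_⟩
  · refine ⟨fun z i => (A i).eval (Complex.exp z), ?_, Eventually.of_forall fun w =>
      hA _ (Complex.exp_ne_zero w)⟩
    rw [analyticAt_pi_iff]
    intro i
    have h1 : Differentiable ℂ (fun z => (A i).eval (Complex.exp z)) :=
      (A i).differentiable.comp Complex.differentiable_exp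
    exact h1.analyticAt z
  · show f (Complex.exp (Complex.log z)) ≠ f (Complex.exp (Complex.log y))
    rw [Complex.exp_log hz, Complex.exp_log hy]
    exact hzy
  · show f (Complex.exp (Complex.log w)) = f w
    rw [Complex.exp_log hw]

/-- Change of chart for polynomials on the affine curve. -/
lemma exists_chart (A : MvPolynomial (Fin 2) ℂ) : ∃ M₀ : ℕ, ∀ M, M₀ ≤ M →
    ∃ B : MvPolynomial (Fin 2) ℂ,
      (∀ s v : ℂ, s ≠ 0 → eval ![s, v] B = s ^ M * eval ![s⁻¹, v * s⁻¹ ^ 2] A) ∧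
      ∀ v : ℂ, eval ![0, v] B = 0 := by
  induction A using MvPolynomial.induction_on with
  | C a =>
    refine ⟨1, fun M hM => ⟨C a * X 0 ^ M, fun s v _ => ?_, fun v => ?_⟩⟩
    · simp
      ring
    · simp
      omega
  | add p q hp hq =>
    obtain ⟨M₁, h1⟩ := hp
    obtain ⟨M₂, h2⟩ := hq
    refine ⟨max M₁ M₂, fun M hM => ?_⟩
    obtain ⟨B, hB1, hB2⟩ := h1 M ((le_max_left _ _).trans hM)
    obtain ⟨B', hB1', hB2'⟩ := h2 M ((le_max_right _ _).trans hM)
    refine ⟨B + B', fun s v hs => ?_, fun v => ?_⟩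
    · rw [map_add, map_add, hB1 s v hs, hB1' s v hs]
      ring
    · rw [map_add, hB2, hB2', add_zero]
  | mul_X p i hp =>
    obtain ⟨M₁, h1⟩ := hp
    refine ⟨M₁ + 2, fun M hM => ?_⟩
    fin_cases i
    · obtain ⟨B, hB1, hB2⟩ := h1 (M - 1) (by omega)
      refine ⟨B, fun s v hs => ?_, hB2⟩
      rw [map_mul, hB1 s v hs]
      have h2 : s ^ M = s ^ (M - 1) * s := by
        rw [← pow_succ]
        congr 1
        omega
      have h3 : eval ![s⁻¹, v * s⁻¹ ^ 2] (X 0 : MvPolynomial (Fin 2) ℂ) = s⁻¹ := by simp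
      show _ = s ^ M * (_ * eval ![s⁻¹, v * s⁻¹ ^ 2] (X 0 : MvPolynomial (Fin 2) ℂ))
      rw [h2, h3]
      have h4 : s * s⁻¹ = 1 := mul_inv_cancel₀ hs
      linear_combination -(s ^ (M - 1) * eval ![s⁻¹, v * s⁻¹ ^ 2] p) * h4
    · obtain ⟨B, hB1, hB2⟩ := h1 (M - 2) (by omega)
      refine ⟨B * X 1, fun s v hs => ?_, fun v => ?_⟩
      · rw [map_mul, map_mul, hB1 s v hs]
        have h2 : s ^ M = s ^ (M - 2) * s ^ 2 := by
          rw [← pow_add]
          congr 1
          omega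
        have h3 : eval ![s⁻¹, v * s⁻¹ ^ 2] (X 1 : MvPolynomial (Fin 2) ℂ) = v * s⁻¹ ^ 2 := by
          simp
        have h5 : eval ![s, v] (X 1 : MvPolynomial (Fin 2) ℂ) = v := by simp
        show _ = s ^ M * (_ * eval ![s⁻¹, v * s⁻¹ ^ 2] (X 1 : MvPolynomial (Fin 2) ℂ))
        rw [h2, h3, h5]
        have h4 : s * s⁻¹ = 1 := mul_inv_cancel₀ hs
        linear_combination -(s ^ (M - 2) * eval ![s⁻¹, v * s⁻¹ ^ 2] p * v) *
          (s * s⁻¹ + 1) * h4
      · rw [map_mul, hB2, zero_mul]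

lemma analyticAt_eval2 {u : ℂ → ℂ × ℂ} {z : ℂ} (hu : AnalyticAt ℂ u z)
    (A : MvPolynomial (Fin 2) ℂ) : AnalyticAt ℂ (fun y => eval ![(u y).1, (u y).2] A) z := by
  have hu1 : AnalyticAt ℂ (fun y => (u y).1) z := analyticAt_fst.comp hu
  have hu2 : AnalyticAt ℂ (fun y => (u y).2) z := analyticAt_snd.comp hu
  induction A using MvPolynomial.induction_on with
  | C a =>
    simp only [eval_C]
    exact analyticAt_const
  | add p q hp hq =>
    simp only [map_add]
    exact hp.add hq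
  | mul_X p i hp =>
    simp only [map_mul, eval_X]
    fin_cases i
    · exact hp.mul hu1
    · exact hp.mul hu2

/-- Points on images of elliptic curves lie on entire curves. -/
theorem ell_entire (hG : ∀ j, (G j).IsHomogeneous (e j)) :
    ellipticPoints (projectiveSet G) ⊆ entirePoints (projectiveSet G) := by
  rintro x ⟨a, b, h, hΔ, hmor, hmem, hnc, p, hp, rfl⟩
  obtain ⟨A, hA0, hA⟩ := hmor p hp
  set g : Polynomial ℂ := Polynomial.X ^ 3 + Polynomial.C a * Polynomial.X + Polynomial.C b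
    with hg
  have hge : ∀ ξ, g.eval ξ = ξ ^ 3 + a * ξ + b := fun ξ => by simp [hg]
  have hg' : ∀ ξ, (Polynomial.derivative g).eval ξ = 3 * ξ ^ 2 + a := fun ξ => by
    simp [hg]
    norm_num
  have hdeg : g.natDegree ≤ 2 + 2 := by
    have h1 : g.natDegree = 3 := by
      rw [hg]
      compute_degree!
    rw [h1]
    norm_num
  have hκ : 2 * 1 = 2 := rfl
  have hp' : p.2 ^ 2 = p.1 ^ 3 + a * p.1 + b := hp
  have hon : Curve.OnCurve 1 2 g (Sum.inl p) := by
    show p.2 ^ (1 + 1) = g.eval p.1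
    rw [hge]
    exact hp'
  obtain ⟨f, hf0, hf⟩ := Curve.exists_entire hκ hdeg hon
  -- a common chart at infinity
  choose M₀ hM₀ using fun i => exists_chart (A i)
  obtain ⟨M, hM⟩ : ∃ M, ∀ i, M₀ i ≤ M := ⟨Finset.univ.sup M₀, fun i =>
    Finset.le_sup (Finset.mem_univ i)⟩
  choose B hB1 hB2 using fun i => hM₀ i M (hM i)
  set R' : Curve.Pt → Fin (N + 1) → ℂ := fun q => match q with
    | Sum.inl q => fun i => eval ![q.1, q.2] (A i)
    | Sum.inr _ => 0 with hR'
  have hRloc : ∀ z₀, ∃ φ : ℂ → Fin (N + 1) → ℂ, AnalyticAt ℂ φ z₀ ∧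
      ∀ᶠ z in 𝓝 z₀, ∃ c : ℂ, c ≠ 0 ∧ φ z = c • R' (f z) := by
    intro z₀
    rcases hf z₀ with ⟨u, hu⟩ | ⟨u, hu⟩
    · refine ⟨fun y i => eval ![(u y).1, (u y).2] (A i), ?_, ?_⟩
      · rw [analyticAt_pi_iff]
        exact fun i => analyticAt_eval2 (analyticAt_of_hasDerivAt (hu.mono fun y hy => hy.1)) _
      · filter_upwards [hu] with y hy
        refine ⟨1, one_ne_zero, ?_⟩
        rw [one_smul, hy.2.2]
    · refine ⟨fun y i => eval ![(u y).1, (u y).2] (B i), ?_, ?_⟩
      · rw [analyticAt_pi_iff]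
        exact fun i => analyticAt_eval2 (analyticAt_of_hasDerivAt (hu.mono fun y hy => hy.1)) _
      · filter_upwards [hu] with y hy
        by_cases hs : (u y).1 = 0
        · refine ⟨1, one_ne_zero, ?_⟩
          rw [one_smul, hy.2.2, Curve.mkB, if_pos hs]
          funext i
          rw [hs]
          exact hB2 i _
        · refine ⟨(u y).1 ^ M, pow_ne_zero _ hs, ?_⟩
          rw [hy.2.2, Curve.mkB, if_neg hs]
          funext i
          exact hB1 i _ _ hs
  have hR0 : R' (f 0) = fun i => eval ![p.1, p.2] (A i) := by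
    rw [hf0]
  have hz0 : ∀ j, eval (0 : Fin (N + 1) → ℂ) (G j) = 0 := by
    intro j
    have h1 := hmem p hp j
    rw [hA p hp hA0, vanishesAt_mk (hG j)] at h1
    have h2 := eval_smul_homogeneous (hG j) 0 (fun i => eval ![p.1, p.2] (A i))
    rwa [zero_smul, h1, mul_zero] at h2
  have hRG : ∀ j z, eval (R' (f z)) (G j) = 0 := by
    intro j z
    have h1 := Curve.onCurve_of_locSol hκ hdeg (hf z)
    generalize f z = q at h1
    rcases q with q | q
    · have hq : q ∈ affineE a b := by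
        have h2 : q.2 ^ (1 + 1) = g.eval q.1 := h1
        rw [hge] at h2
        exact h2
      show eval (fun i => eval ![q.1, q.2] (A i)) (G j) = 0
      by_cases hq0 : (fun i => eval ![q.1, q.2] (A i)) = 0
      · rw [hq0]
        exact hz0 j
      · have h3 := hmem q hq j
        rw [hA q hq hq0, vanishesAt_mk (hG j)] at h3
        exact h3
    · exact hz0 j
  obtain ⟨F, hF1, hF2, hF3⟩ := exists_extension (fun z => R' (f z)) hRloc (z₁ := 0)
    (by rw [hR0]; exact hA0)
  have hFh : ∀ z q, f z = Sum.inl q → q ∈ affineE a b →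
      (fun i => eval ![q.1, q.2] (A i)) ≠ 0 → F z = h q := by
    intro z q hfz hq hne
    have h1 : R' (f z) = fun i => eval ![q.1, q.2] (A i) := by rw [hfz]
    have h2 : R' (f z) ≠ 0 := by rw [h1]; exact hne
    rw [hF2 z h2, hA q hq hne]
    congr 1
  have hF0 : F 0 = h p := hFh 0 p hf0 hp hA0
  refine ⟨F, hF1, fun z j => hF3 (e j) (G j) (hG j) (hRG j) z, ?_, 0, hF0⟩
  -- nonconstancy
  by_contra hcon
  push Not at hcon
  obtain ⟨u, hu⟩ := Curve.exists_solA hκ hdeg (hf 0) hf0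
  have hu0 : u 0 = p := (Sum.inl_injective (hf0.symm.trans hu.self_of_nhds.2.2)).symm
  have hder := hu.self_of_nhds.1
  have hder0 : Curve.FA 1 g (u 0) ≠ 0 := by
    rw [hu0]
    intro h0
    have h1 : p.2 = 0 := by
      have := congrArg Prod.fst h0
      simpa [Curve.FA] using this
    have h2 : 3 * p.1 ^ 2 + a = 0 := by
      have := congrArg Prod.snd h0
      simp only [Curve.FA, Prod.snd_zero, hg'] at this
      have h3 : ((1 : ℕ) : ℂ) + 1 ≠ 0 := by norm_num
      exact (div_eq_zero_iff.mp this).resolve_right h3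
    rw [h1] at hp'
    apply hΔ
    have h3 : a = -3 * p.1 ^ 2 := by linear_combination h2
    have h4 : b = 2 * p.1 ^ 3 := by
      rw [h3] at hp'
      linear_combination -hp'
    rw [h3, h4]
    ring
  have hcont : ContinuousAt u 0 := hder.continuousAt
  have hfin := fib_ell hmor hnc (h p)
  have hne : ∀ᶠ z in 𝓝 (0 : ℂ), (fun i => eval ![(u z).1, (u z).2] (A i)) ≠ 0 := by
    have h1 : AnalyticAt ℂ (fun y i => eval ![(u y).1, (u y).2] (A i)) 0 := by
      rw [analyticAt_pi_iff]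
      exact fun i => analyticAt_eval2 (analyticAt_of_hasDerivAt (hu.mono fun y hy => hy.1)) _
    apply h1.continuousAt.eventually_ne
    rw [hu0]
    exact hA0
  have hev : ∀ᶠ z in 𝓝 (0 : ℂ), u z ∈ {q | q ∈ affineE a b ∧ h q = h p} := by
    filter_upwards [hu, hne] with z hz1 hz2
    have hq : u z ∈ affineE a b := by
      have h2 := hz1.2.1
      rw [hge] at h2
      exact h2
    exact ⟨hq, by rw [← hFh z (u z) hz1.2.2 hq hz2, ← hF0]; exact hcon z 0⟩
  have hall : ∀ᶠ z in 𝓝[≠] (0 : ℂ), ∀ q ∈ {q | q ∈ affineE a b ∧ h q = h p}, u z ≠ q :=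
    (Filter.eventually_all_finite hfin).mpr fun q _ => hder.eventually_ne hder0
  obtain ⟨z, hz1, hz2⟩ := (hall.and (hev.filter_mono nhdsWithin_le_nhds)).exists
  exact hz1 _ hz2 rfl

end Pool.Agent.H24.SG
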